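import Pool.Agent.H974T.Basic

/-!
# Weight decompositions of algebraic torus actions on polynomial rings
-/

set_option autoImplicit false

open MvPolynomial

namespace Pool.Agent.H974T

variable {k : Type*} [Field k] {d n : ℕ}

/-- polynomial ring in `n` variables -/
abbrev PA (k : Type*) [Field k] (n : ℕ) : Type _ := MvPolynomial (Fin n) k

/-- Laurent polynomials in `d` variables with coefficients in the polynomial ring -/
abbrev LL (k : Type*) [Field k] (n d : ℕ) : Type _ :=
  AddMonoidAlgebra (MvPolynomial (Fin n) k) (Fin d → ℤ)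

/-- a homomorphism of the torus `(k^*)^d` in the automorphism group of the polynomial ring -/
abbrev TAct (k : Type*) [Field k] (d n : ℕ) : Type _ :=
  (Fin d → kˣ) →* (MvPolynomial (Fin n) k ≃ₐ[k] MvPolynomial (Fin n) k)

/-- evaluation of Laurent polynomials at a point of the torus -/
noncomputable def ev (n : ℕ) (t : Fin d → kˣ) : LL k n d →ₐ[k] PA k n :=
  ((AddMonoidAlgebra.lift (PA k n) (PA k n) (Fin d → ℤ))
    { toFun := fun e => C (chik e.toAdd t)
      map_one' := by
        change C (chik (0 : Fin d → ℤ) t) = 1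
        rw [chik_apply, chi_zero]; simp
      map_mul' := fun e e' => by
        change C (chik (e.toAdd + e'.toAdd) t) = _
        rw [chik_apply, chi_add, Units.val_mul, C_mul]; rfl }).restrictScalars k

theorem ev_single (t : Fin d → kˣ) (e : Fin d → ℤ) (v : PA k n) :
    ev n t (AddMonoidAlgebra.single e v) = chik (k := k) e t • v := by
  unfold ev
  rw [AlgHom.restrictScalars_apply, AddMonoidAlgebra.lift_single]
  change v • (C (chik e t) : PA k n) = _
  rw [smul_eq_mul, mul_comm, ← smul_eq_C_mul]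

theorem ev_apply (t : Fin d → kˣ) (x : LL k n d) :
    ev n t x = x.coeff.sum (fun e v => chik (k := k) e t • v) := by
  unfold ev
  rw [AlgHom.restrictScalars_apply, AddMonoidAlgebra.lift_apply]
  refine Finset.sum_congr rfl (fun e _ => ?_)
  change (x.coeff e) • (C (chik e t) : PA k n) = _
  rw [smul_eq_mul, mul_comm, ← smul_eq_C_mul]

theorem ev_inj [Infinite k] {x y : LL k n d} (h : ∀ t, ev n t x = ev n t y) : x = y := by
  rw [← sub_eq_zero]
  have h1 : (x - y).coeff = 0 := by
    apply laurent_eq_zero (k := k)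
    intro t
    rw [← ev_apply, map_sub, h t, sub_self]
  exact AddMonoidAlgebra.coeff_eq_zero.1 h1

/-- `p` is a semi-invariant of weight `e` -/
def IsWt (ρ : TAct k d n) (e : Fin d → ℤ) (p : PA k n) : Prop :=
  ∀ t, ρ t p = chik (k := k) e t • p

theorem IsWt.zero (ρ : TAct k d n) (e : Fin d → ℤ) : IsWt ρ e 0 := fun t => by simp

theorem IsWt.add {ρ : TAct k d n} {e : Fin d → ℤ} {p q : PA k n} (hp : IsWt ρ e p)
    (hq : IsWt ρ e q) : IsWt ρ e (p + q) := fun t => by rw [map_add, hp t, hq t, smul_add]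

theorem IsWt.sub {ρ : TAct k d n} {e : Fin d → ℤ} {p q : PA k n} (hp : IsWt ρ e p)
    (hq : IsWt ρ e q) : IsWt ρ e (p - q) := fun t => by rw [map_sub, hp t, hq t, smul_sub]

theorem IsWt.mul {ρ : TAct k d n} {e e' : Fin d → ℤ} {p q : PA k n} (hp : IsWt ρ e p)
    (hq : IsWt ρ e' q) : IsWt ρ (e + e') (p * q) := fun t => by
  rw [map_mul, hp t, hq t, smul_mul_smul_comm, chik_apply, chik_apply, chik_apply, chi_add,
    Units.val_mul]

theorem IsWt.C (ρ : TAct k d n) (c : k) : IsWt ρ 0 (C c : PA k n) := fun t => by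
  rw [chik_apply, chi_zero, Units.val_one, one_smul]
  exact (ρ t).commutes c

theorem IsWt.one (ρ : TAct k d n) : IsWt ρ 0 (1 : PA k n) := by
  simpa using IsWt.C ρ 1

theorem IsWt.smul {ρ : TAct k d n} {e : Fin d → ℤ} {p : PA k n} (hp : IsWt ρ e p) (c : k) :
    IsWt ρ e (c • p) := fun t => by
  rw [map_smul, hp t, smul_comm]

theorem IsWt.pow {ρ : TAct k d n} {e : Fin d → ℤ} {p : PA k n} (hp : IsWt ρ e p) (m : ℕ) :
    IsWt ρ (m • e) (p ^ m) := by
  induction m with
  | zero => simpa using IsWt.one ρ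
  | succ m ih => rw [pow_succ, succ_nsmul]; exact ih.mul hp

theorem IsWt.prod {ρ : TAct k d n} {ι : Type*} (s : Finset ι) (e : ι → Fin d → ℤ) (p : ι → PA k n)
    (h : ∀ i ∈ s, IsWt ρ (e i) (p i)) : IsWt ρ (∑ i ∈ s, e i) (∏ i ∈ s, p i) := by
  classical
  induction s using Finset.induction_on with
  | empty => simpa using IsWt.one ρ
  | insert a s ha ih =>
    rw [Finset.sum_insert ha, Finset.prod_insert ha]
    exact (h a (Finset.mem_insert_self a s)).mul
      (ih (fun i hi => h i (Finset.mem_insert_of_mem hi)))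

/-- the structure describing the action by Laurent polynomials -/
def Rep (ρ : TAct k d n) (x : Fin n → LL k n d) : Prop := ∀ t i, ρ t (X i) = ev n t (x i)

theorem Rep.apply {ρ : TAct k d n} {x : Fin n → LL k n d} (h : Rep ρ x) (t : Fin d → kˣ)
    (p : PA k n) : ρ t p = ev n t (aeval x p) := by
  have h1 : (ρ t : PA k n →ₐ[k] PA k n) = (ev n t).comp (aeval x) := by
    apply MvPolynomial.algHom_ext
    intro i
    simpa using h t i
  exact DFunLike.congr_fun h1 p

theorem Rep.wt {ρ : TAct k d n} {x : Fin n → LL k n d} (h : Rep ρ x) [Infinite k]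
    {e : Fin d → ℤ} {w : PA k n} (hw : IsWt ρ e w) : aeval x w = AddMonoidAlgebra.single e w := by
  apply ev_inj
  intro t
  rw [← h.apply, hw t, ev_single]

theorem Rep.isWt_coeff {ρ : TAct k d n} {x : Fin n → LL k n d} (h : Rep ρ x) [Infinite k]
    (i : Fin n) (e : Fin d → ℤ) : IsWt ρ e ((x i).coeff e) := by
  classical
  intro s
  let f : (Fin d → ℤ) → PA k n := fun e => ρ s ((x i).coeff e) - chik (k := k) e s • (x i).coeff e
  have hf : ∀ e, f e ≠ 0 → e ∈ (x i).coeff.support := by
    intro e he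
    rw [Finsupp.mem_support_iff]
    intro h0
    apply he
    simp [f, h0]
  have h1 : Finsupp.onFinset (x i).coeff.support f hf = 0 := by
    apply laurent_eq_zero (k := k)
    intro t
    rw [Finsupp.onFinset_sum hf (by simp)]
    have h2 : ρ (s * t) (X i) = ρ s (ρ t (X i)) := by rw [map_mul]; rfl
    rw [h, h, ev_apply, ev_apply, Finsupp.sum, Finsupp.sum, map_sum, ← sub_eq_zero,
      ← Finset.sum_sub_distrib] at h2
    rw [← neg_eq_zero, ← Finset.sum_neg_distrib, ← h2]
    refine Finset.sum_congr rfl (fun e _ => ?_)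
    simp only [f]
    rw [map_smul, smul_sub, map_mul, mul_comm (chik e s), mul_smul]
    abel
  have h3 := DFunLike.congr_fun h1 e
  simp only [Finsupp.onFinset_apply, Finsupp.zero_apply, f] at h3
  exact sub_eq_zero.1 h3

theorem Rep.sum_coeff {ρ : TAct k d n} {x : Fin n → LL k n d} (h : Rep ρ x) (i : Fin n) :
    (x i).coeff.sum (fun _ v => v) = X i := by
  have h1 := h 1 i
  rw [map_one, ev_apply] at h1
  change X i = _ at h1
  rw [h1]
  refine Finset.sum_congr rfl (fun e _ => ?_)
  simp

/-- every polynomial is a sum of semi-invariants -/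
def Decomposes (ρ : TAct k d n) : Prop :=
  ∀ p : PA k n, ∃ Y : (Fin d → ℤ) →₀ PA k n, (∀ e, IsWt ρ e (Y e)) ∧ Y.sum (fun _ v => v) = p

theorem coeff_mul_isWt {ρ : TAct k d n} (u v : LL k n d) (hu : ∀ e, IsWt ρ e (u.coeff e))
    (hv : ∀ e, IsWt ρ e (v.coeff e)) (e : Fin d → ℤ) : IsWt ρ e ((u * v).coeff e) := by
  classical
  have h3 : u * v = ∑ a ∈ u.coeff.support, ∑ b ∈ v.coeff.support,
      AddMonoidAlgebra.single (a + b) (u.coeff a * v.coeff b) := by
    conv_lhs => rw [← AddMonoidAlgebra.sum_coeff_single u,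
      ← AddMonoidAlgebra.sum_coeff_single v]
    rw [Finsupp.sum, Finsupp.sum, Finset.sum_mul_sum]
    simp [AddMonoidAlgebra.single_mul_single]
  rw [h3, AddMonoidAlgebra.coeff_sum, Finsupp.finsetSum_apply]
  intro t
  rw [map_sum, Finset.smul_sum]
  refine Finset.sum_congr rfl (fun a _ => ?_)
  rw [AddMonoidAlgebra.coeff_sum, Finsupp.finsetSum_apply, map_sum, Finset.smul_sum]
  refine Finset.sum_congr rfl (fun b _ => ?_)
  rw [AddMonoidAlgebra.coeff_single, Finsupp.single_apply]
  split_ifs with h0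
  · subst h0; exact (hu a).mul (hv b) t
  · simp

theorem Rep.isWt_aeval {ρ : TAct k d n} {x : Fin n → LL k n d} (h : Rep ρ x) [Infinite k]
    (p : PA k n) : ∀ e, IsWt ρ e ((aeval x p).coeff e) := by
  classical
  induction p using MvPolynomial.induction_on with
  | C a =>
    intro e s
    have h1 : aeval x (C a) = AddMonoidAlgebra.single (0 : Fin d → ℤ) (C a : PA k n) :=
      h.wt (IsWt.C ρ a)
    rw [h1, AddMonoidAlgebra.coeff_single, Finsupp.single_apply]
    split_ifs with h0
    · subst h0; exact IsWt.C ρ a s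
    · simp
  | add p q hp hq =>
    intro e
    rw [map_add, AddMonoidAlgebra.coeff_add, Finsupp.add_apply]
    exact (hp e).add (hq e)
  | mul_X p i hp =>
    rw [map_mul, aeval_X]
    exact coeff_mul_isWt _ _ hp (fun e => h.isWt_coeff i e)

theorem ev_one (x : LL k n d) : ev n (1 : Fin d → kˣ) x = x.coeff.sum (fun _ v => v) := by
  rw [ev_apply]
  refine Finset.sum_congr rfl (fun e _ => ?_)
  simp

theorem Rep.sum_aeval {ρ : TAct k d n} {x : Fin n → LL k n d} (h : Rep ρ x) (p : PA k n) :
    (aeval x p).coeff.sum (fun _ v => v) = p := by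
  rw [← ev_one, ← h.apply, map_one]; rfl

theorem Rep.decomposes {ρ : TAct k d n} {x : Fin n → LL k n d} (h : Rep ρ x) [Infinite k] :
    Decomposes ρ :=
  fun p => ⟨(aeval x p).coeff, h.isWt_aeval p, h.sum_aeval p⟩

/-- algebraicity of the action, as in the frozen statement -/
def IsAlg (ρ : TAct k d n) : Prop :=
  ∃ (m : ℕ) (F : Fin n → MvPolynomial (Fin d ⊕ Fin n) k),
    ∀ (t : Fin d → kˣ) (j : Fin n),
      MvPolynomial.C ((∏ i, ((t i : kˣ) : k)) ^ m) * ρ t (MvPolynomial.X j) =
        MvPolynomial.aeval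
          (Sum.elim (fun i : Fin d => MvPolynomial.C ((t i : kˣ) : k))
            (fun l : Fin n => (MvPolynomial.X l : MvPolynomial (Fin n) k))) (F j)

/-- the Laurent polynomial with a denominator, attached to a polynomial with polynomial
coefficients -/
noncomputable def toLL (m : ℕ) (G : MvPolynomial (Fin d) (PA k n)) : LL k n d :=
  ∑ β ∈ G.support, AddMonoidAlgebra.single (fun l => (β l : ℤ) - m) (coeff β G)

theorem chik_monomial (m : ℕ) (β : Fin d →₀ ℕ) (t : Fin d → kˣ) :
    (∏ i, ((t i : kˣ) : k)) ^ m * chik (fun l => (β l : ℤ) - m) t = ∏ i, ((t i : kˣ) : k) ^ β i := by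
  rw [chik_apply, chi_apply, Units.coe_prod, ← Finset.prod_pow, ← Finset.prod_mul_distrib]
  refine Finset.prod_congr rfl (fun i _ => ?_)
  rw [← Units.val_pow_eq_pow_val, ← Units.val_pow_eq_pow_val, ← Units.val_mul]
  congr 1
  rw [zpow_sub, zpow_natCast, zpow_natCast, mul_comm, inv_mul_cancel_right]

theorem ev_toLL (m : ℕ) (G : MvPolynomial (Fin d) (PA k n)) (t : Fin d → kˣ) :
    C ((∏ i, ((t i : kˣ) : k)) ^ m) * ev n t (toLL m G) =
      aeval (fun i => (C ((t i : kˣ) : k) : PA k n)) G := by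
  unfold toLL
  rw [map_sum, Finset.mul_sum, aeval_def, eval₂_eq']
  refine Finset.sum_congr rfl (fun β _ => ?_)
  rw [ev_single, smul_eq_C_mul, ← mul_assoc, ← C_mul, chik_monomial, mul_comm, map_prod]
  simp

theorem aeval_sum_elim (t : Fin d → kˣ) (F : MvPolynomial (Fin d ⊕ Fin n) k) :
    MvPolynomial.aeval
          (Sum.elim (fun i : Fin d => MvPolynomial.C ((t i : kˣ) : k))
            (fun l : Fin n => (MvPolynomial.X l : MvPolynomial (Fin n) k))) F =
      aeval (fun i => (C ((t i : kˣ) : k) : PA k n)) (sumAlgEquiv k (Fin d) (Fin n) F) := by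
  have h1 : MvPolynomial.aeval (R := k)
          (Sum.elim (fun i : Fin d => MvPolynomial.C ((t i : kˣ) : k))
            (fun l : Fin n => (MvPolynomial.X l : MvPolynomial (Fin n) k))) =
      ((aeval (R := PA k n) (fun i => (C ((t i : kˣ) : k) : PA k n))).restrictScalars k).comp
        (sumAlgEquiv k (Fin d) (Fin n)).toAlgHom := by
    apply MvPolynomial.algHom_ext
    rintro (i | i)
    · simp
    · simp
  exact DFunLike.congr_fun h1 F

theorem IsAlg.exists_rep {ρ : TAct k d n} (h : IsAlg ρ) : ∃ x : Fin n → LL k n d, Rep ρ x := by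
  obtain ⟨m, F, hF⟩ := h
  refine ⟨fun j => toLL m (sumAlgEquiv k (Fin d) (Fin n) (F j)), fun t j => ?_⟩
  have h1 := hF t j
  rw [aeval_sum_elim, ← ev_toLL m] at h1
  have h2 : (C ((∏ i, ((t i : kˣ) : k)) ^ m) : PA k n) ≠ 0 := by
    rw [Ne, C_eq_zero]
    exact pow_ne_zero _ (Finset.prod_ne_zero_iff.2 (fun i _ => (t i).ne_zero))
  exact mul_left_cancel₀ h2 h1

/-- every action given by Laurent polynomials is algebraic -/
theorem Rep.isAlg {ρ : TAct k d n} {x : Fin n → LL k n d} (h : Rep ρ x) : IsAlg ρ := by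
  classical
  -- a common bound for the negative exponents
  obtain ⟨m, hm⟩ : ∃ m : ℕ, ∀ j, ∀ e ∈ (x j).coeff.support, ∀ l, 0 ≤ e l + m := by
    let S : Finset ℕ := Finset.univ.biUnion (fun j : Fin n =>
      (x j).coeff.support.biUnion (fun e => Finset.univ.image (fun l : Fin d => (e l).natAbs)))
    refine ⟨S.sup id, fun j e he l => ?_⟩
    have h1 : (e l).natAbs ≤ S.sup id := by
      refine Finset.le_sup (f := id) ?_
      simp only [S, Finset.mem_biUnion, Finset.mem_univ, true_and, Finset.mem_image]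
      exact ⟨j, e, he, l, rfl⟩
    omega
  let β : (Fin d → ℤ) → (Fin d →₀ ℕ) := fun e => Finsupp.equivFunOnFinite.symm
    (fun l => (e l + m).toNat)
  refine ⟨m, fun j => (sumAlgEquiv k (Fin d) (Fin n)).symm
    (∑ e ∈ (x j).coeff.support, monomial (β e) ((x j).coeff e)), fun t j => ?_⟩
  rw [aeval_sum_elim, AlgEquiv.apply_symm_apply, map_sum, h, ev_apply, Finsupp.sum, Finset.mul_sum]
  refine Finset.sum_congr rfl (fun e he => ?_)
  rw [aeval_monomial, smul_eq_C_mul, ← mul_assoc, ← C_mul]
  have h2 : (fun l => ((β e) l : ℤ) - m) = e := by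
    ext l
    simp only [β, Finsupp.equivFunOnFinite_symm_apply_apply]
    rw [Int.toNat_of_nonneg (hm j e he l)]
    ring
  have h3 := chik_monomial (k := k) m (β e) t
  rw [h2] at h3
  rw [h3, mul_comm, map_prod, Finsupp.prod_fintype _ _ (by simp)]
  simp

end Pool.Agent.H974T
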