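import Pool.Agent.H974T.Ext

/-!
# Tori whose weights have `a_1 + ... + a_n = 0` as their only relation

An elementary proof that the action of a torus of dimension `n - 1` whose weights at a fixed point
have the relation `a_1 + ... + a_n = 0` as their only relation (up to multiples) is linear in
suitable coordinates.
-/

set_option autoImplicit false

open MvPolynomial

namespace Pool.Agent.H974T

variable {k : Type*} [Field k] {d n : ℕ}

/-- the action fixes the origin -/
def FixZero (ρ : TAct k d n) : Prop := ∀ t i, coeff 0 (ρ t (X i)) = 0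

theorem FixZero.coeff_zero {ρ : TAct k d n} (h : FixZero ρ) (t : Fin d → kˣ) (p : PA k n) :
    coeff 0 (ρ t p) = coeff 0 p := by
  have h1 : (MvPolynomial.constantCoeff (R := k) (σ := Fin n)).comp
      ((ρ t : PA k n →ₐ[k] PA k n) : PA k n →+* PA k n) = MvPolynomial.constantCoeff := by
    apply MvPolynomial.ringHom_ext
    · intro r
      change constantCoeff (ρ t (C r)) = _
      have : ρ t (C r) = C r := (ρ t).commutes r
      rw [this]
    · intro i
      change coeff 0 (ρ t (X i)) = _
      rw [h t i, constantCoeff_X]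
  exact DFunLike.congr_fun h1 p

theorem FixZero.weight_eq_zero [Infinite k] {ρ : TAct k d n} (h : FixZero ρ) {e : Fin d → ℤ}
    {p : PA k n} (hp : IsWt ρ e p) (h0 : coeff 0 p ≠ 0) : e = 0 := by
  apply chik_injective (k := k)
  refine DFunLike.ext _ _ (fun t => ?_)
  have h1 := h.coeff_zero t p
  rw [hp t, coeff_smul, smul_eq_mul] at h1
  have h2 := mul_right_cancel₀ h0 (h1.trans (one_mul _).symm)
  rw [h2, chik_apply, chi_zero, Units.val_one]

theorem IsWt.of_mul {ρ : TAct k d n} {e e' : Fin d → ℤ} {p q : PA k n} (hp : IsWt ρ e p)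
    (hp0 : p ≠ 0) (h : IsWt ρ e' (p * q)) : IsWt ρ (e' - e) q := by
  intro t
  have h1 := h t
  rw [map_mul, hp t, smul_mul_assoc, ← mul_smul_comm, ← mul_smul_comm] at h1
  have h2 := mul_left_cancel₀ hp0 h1
  have h3 : ((chik e t : k))⁻¹ • (chik e t : k) • ρ t q =
      ((chik e t : k))⁻¹ • (chik e' t : k) • q := by rw [h2]
  have h4 : (chik e t : k) ≠ 0 := by rw [chik_apply]; exact Units.ne_zero _
  rw [smul_smul, inv_mul_cancel₀ h4, one_smul, smul_smul] at h3
  rw [h3, chik_apply, chik_apply, chik_apply, chi_sub, Units.val_mul, Units.val_inv_eq_inv_val,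
    mul_comm]

theorem exists_root_torus [IsAlgClosed k] (t : Fin d → kˣ) {N : ℕ} (hN : 0 < N) :
    ∃ u : Fin d → kˣ, u ^ N = t := by
  have h1 : ∀ i, ∃ u : kˣ, u ^ N = t i := by
    intro i
    obtain ⟨z, hz⟩ := IsAlgClosed.exists_pow_nat_eq ((t i : kˣ) : k) hN
    have hz0 : z ≠ 0 := by
      rintro rfl
      rw [zero_pow hN.ne'] at hz
      exact (t i).ne_zero hz.symm
    exact ⟨Units.mk0 z hz0, Units.ext (by simpa using hz)⟩
  choose u hu using h1
  exact ⟨u, funext hu⟩

/-- irreducible factors of semi-invariants are semi-invariants -/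
theorem IsWt.of_irreducible_dvd [IsAlgClosed k] {ρ : TAct k d n} (hdec : Decomposes ρ)
    {e : Fin d → ℤ} {h g : PA k n} (hh : IsWt ρ e h) (h0 : h ≠ 0) (hg : Irreducible g)
    (hgh : g ∣ h) : ∃ e', IsWt ρ e' g := by
  classical
  haveI : Infinite k := IsAlgClosed.instInfinite
  -- the stabiliser of the associate class of `g`
  let H : Subgroup (Fin d → kˣ) :=
    { carrier := {t | Associated (ρ t g) g}
      one_mem' := by
        change Associated (ρ 1 g) g
        rw [map_one]
        exact Associated.refl g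
      mul_mem' := by
        intro s t hs ht
        change Associated (ρ (s * t) g) g
        rw [map_mul]
        change Associated (ρ s (ρ t g)) g
        exact (ht.map (ρ s : PA k n →* PA k n)).trans hs
      inv_mem' := by
        intro t ht
        change Associated (ρ t⁻¹ g) g
        have h1 := (Associated.map (ρ t⁻¹ : PA k n →* PA k n) ht)
        change Associated (ρ t⁻¹ (ρ t g)) (ρ t⁻¹ g) at h1
        have h2 : ρ t⁻¹ (ρ t g) = g := by
          change (ρ t⁻¹ * ρ t) g = g
          rw [← map_mul, inv_mul_cancel, map_one]; rfl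
        rw [h2] at h1
        exact h1.symm }
  have hdvd : ∀ t, ρ t g ∣ h := by
    intro t
    have h1 : ρ t g ∣ ρ t h := map_dvd (ρ t) hgh
    rw [hh t, smul_eq_C_mul] at h1
    have h2 : IsUnit (MvPolynomial.C (chik (k := k) e t) : PA k n) :=
      (isUnit_iff_ne_zero.2 (by rw [chik_apply]; exact Units.ne_zero _)).map MvPolynomial.C
    exact (h2.dvd_mul_left).1 h1
  have hfin : Finite {x : Associates (PA k n) // x ∣ Associates.mk h} := by
    have : Associates.mk h ≠ 0 := by rwa [Ne, Associates.mk_eq_zero]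
    exact @Finite.of_fintype _ (UniqueFactorizationMonoid.fintypeSubtypeDvd _ this)
  let φ : ((Fin d → kˣ) ⧸ H) → {x : Associates (PA k n) // x ∣ Associates.mk h} :=
    Quotient.lift (fun t => (⟨Associates.mk (ρ t g), Associates.mk_dvd_mk.2 (hdvd t)⟩ :
      {x : Associates (PA k n) // x ∣ Associates.mk h})) (by
        intro s t hst
        have h1 : s⁻¹ * t ∈ H := QuotientGroup.leftRel_apply.1 hst
        have h2 : Associated (ρ (s⁻¹ * t) g) g := h1
        have h3 := Associated.map (ρ s : PA k n →* PA k n) h2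
        change Associated (ρ s (ρ (s⁻¹ * t) g)) (ρ s g) at h3
        have h4 : ρ s (ρ (s⁻¹ * t) g) = ρ t g := by
          change (ρ s * ρ (s⁻¹ * t)) g = _
          rw [← map_mul, mul_inv_cancel_left]
        rw [h4] at h3
        exact Subtype.ext (Associates.mk_eq_mk_iff_associated.2 h3.symm))
  have hφ : Function.Injective φ := by
    intro s t hst
    induction s using Quotient.inductionOn with
    | _ s =>
    induction t using Quotient.inductionOn with
    | _ t =>
    apply Quotient.sound
    have h1 : Associated (ρ s g) (ρ t g) :=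
      Associates.mk_eq_mk_iff_associated.1 (congrArg Subtype.val hst)
    have h2 := Associated.map (ρ s⁻¹ : PA k n →* PA k n) h1
    change Associated (ρ s⁻¹ (ρ s g)) (ρ s⁻¹ (ρ t g)) at h2
    have h3 : ρ s⁻¹ (ρ s g) = g := by
      change (ρ s⁻¹ * ρ s) g = g
      rw [← map_mul, inv_mul_cancel, map_one]; rfl
    have h4 : ρ s⁻¹ (ρ t g) = ρ (s⁻¹ * t) g := by rw [map_mul]; rfl
    rw [h3, h4] at h2
    exact QuotientGroup.leftRel_apply.2 h2.symm
  have hfin2 : Finite ((Fin d → kˣ) ⧸ H) := Finite.of_injective φ hφ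
  have hH : H = ⊤ := by
    rw [eq_top_iff]
    intro t _
    haveI : H.FiniteIndex := Subgroup.finiteIndex_of_finite_quotient
    have hN : 0 < H.index := Nat.pos_of_ne_zero (Subgroup.FiniteIndex.index_ne_zero)
    obtain ⟨u, rfl⟩ := exists_root_torus t hN
    exact Subgroup.pow_index_mem H u
  have hc : ∀ t, ∃ c : k, ρ t g = c • g := by
    intro t
    have h1 : t ∈ H := by rw [hH]; trivial
    obtain ⟨u, hu⟩ := (show Associated (ρ t g) g from h1).symm
    obtain ⟨c, hc, hc2⟩ := MvPolynomial.isUnit_iff_eq_C_of_isReduced.1 u.isUnit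
    exact ⟨c, by rw [← hu, hc2, smul_eq_C_mul, mul_comm]⟩
  choose c hc using hc
  obtain ⟨Y, hY, hYg⟩ := hdec g
  have h1 : ∀ t e, (chik (k := k) e t - c t) • Y e = 0 := by
    intro t
    have h2 : Y.mapRange (fun v => v) rfl = Y := by ext; simp
    let Z : (Fin d → ℤ) →₀ PA k n := Finsupp.onFinset Y.support
      (fun e => (chik (k := k) e t - c t) • Y e) (by
        intro e he
        rw [Finsupp.mem_support_iff]
        intro h3
        exact he (by rw [h3, smul_zero]))
    have hZ : Z = 0 := by
      apply laurent_eq_zero (k := k)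
      intro s
      rw [Finsupp.onFinset_sum _ (by simp)]
      have h3 : ∑ e ∈ Y.support, (chik (k := k) e t - c t) • Y e = 0 := by
        simp only [sub_smul]
        rw [Finset.sum_sub_distrib, ← Finset.smul_sum]
        have h4 : ∑ e ∈ Y.support, Y e = g := hYg
        have h4' : ρ t g = ∑ e ∈ Y.support, ρ t (Y e) := by rw [← map_sum, h4]
        rw [h4, ← hc t, h4', ← Finset.sum_sub_distrib]
        refine Finset.sum_eq_zero (fun e _ => ?_)
        rw [hY e t, sub_self]
      have h5 := congrArg (ρ s) h3
      rw [map_sum, map_zero] at h5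
      rw [← h5]
      refine Finset.sum_congr rfl (fun e _ => ?_)
      rw [map_smul, hY e s, smul_comm]
    intro e
    have := DFunLike.congr_fun hZ e
    simpa [Z] using this
  have hg0 : g ≠ 0 := hg.ne_zero
  obtain ⟨e0, he0⟩ : ∃ e, Y e ≠ 0 := by
    by_contra hcon
    push Not at hcon
    apply hg0
    rw [← hYg]
    exact Finset.sum_eq_zero (fun e _ => hcon e)
  have h2 : ∀ e, Y e ≠ 0 → e = e0 := by
    intro e he
    apply chik_injective (k := k)
    refine DFunLike.ext _ _ (fun t => ?_)
    have h3 := (smul_eq_zero.1 (h1 t e)).resolve_right he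
    have h4 := (smul_eq_zero.1 (h1 t e0)).resolve_right he0
    rw [sub_eq_zero.1 h3, sub_eq_zero.1 h4]
  refine ⟨e0, ?_⟩
  have h3 : g = Y e0 := by
    rw [← hYg, Finsupp.sum, Finset.sum_eq_single e0]
    · intro e he hne
      exact absurd (h2 e (Finsupp.mem_support_iff.1 he)) hne
    · intro h; exact Finsupp.notMem_support_iff.1 h
  rw [h3]
  exact hY e0

end Pool.Agent.H974T
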