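import Mathlib

/-!
# Algebraic dependence modulo an element
-/

set_option autoImplicit false

open MvPolynomial

namespace Pool.Agent.H974T

variable {k : Type*} [Field k] {n : ℕ}

/-- a nonzero polynomial relation `F(g) = 0` gives a nonzero coefficient polynomial whose value
is divisible by `g` -/
theorem exists_dvd_of_rel {A B : Type*} [CommRing A] [CommRing B] [IsDomain B] (φ : A →+* B)
    (g : B) (hg : g ≠ 0) (F : Polynomial A) (hF : F ≠ 0) (h : Polynomial.eval₂ φ g F = 0) :
    ∃ c : A, c ≠ 0 ∧ g ∣ φ c := by
  classical
  induction hN : F.natDegree using Nat.strong_induction_on generalizing F with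
  | _ N ih =>
    by_cases h0 : F.coeff 0 = 0
    · have h1 : F = Polynomial.X * F.divX := by
        conv_lhs => rw [← Polynomial.X_mul_divX_add F, h0, Polynomial.C_0, add_zero]
      have h2 : F.divX ≠ 0 := by
        intro h2
        rw [h2, mul_zero] at h1
        exact hF h1
      have h3 : Polynomial.eval₂ φ g F.divX = 0 := by
        rw [h1, Polynomial.eval₂_mul, Polynomial.eval₂_X] at h
        exact (mul_eq_zero.1 h).resolve_left hg
      refine ih F.divX.natDegree ?_ F.divX h2 h3 rfl
      have h4 : F.natDegree ≠ 0 := by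
        intro h4
        obtain ⟨c, hc⟩ := Polynomial.natDegree_eq_zero.1 h4
        rw [← hc, Polynomial.coeff_C_zero] at h0
        rw [← hc, h0, Polynomial.C_0] at hF
        exact hF rfl
      rw [Polynomial.natDegree_divX_eq_natDegree_tsub_one]
      omega
    · refine ⟨F.coeff 0, h0, ?_⟩
      have h1 := Polynomial.X_mul_divX_add F
      have h2 := congrArg (Polynomial.eval₂ φ g) h1
      rw [Polynomial.eval₂_add, Polynomial.eval₂_mul, Polynomial.eval₂_X, Polynomial.eval₂_C,
        h] at h2
      have h3 : φ (F.coeff 0) = g * (-(Polynomial.eval₂ φ g F.divX)) := by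
        linear_combination h2
      exact ⟨_, h3⟩

theorem exists_rel_dvd (g : MvPolynomial (Fin n) k) (hg : g ≠ 0)
    (y : Fin n → MvPolynomial (Fin n) k) :
    ∃ P : MvPolynomial (Fin n) k, P ≠ 0 ∧ g ∣ aeval y P := by
  classical
  -- the family of `n + 1` elements is algebraically dependent
  let z : Option (Fin n) → MvPolynomial (Fin n) k := fun o => o.elim g y
  have h1 : ¬ AlgebraicIndependent k z := by
    intro h
    have h2 := h.lift_cardinalMk_le_trdeg
    rw [MvPolynomial.trdeg_of_isDomain] at h2
    simp only [Cardinal.mk_fintype, Fintype.card_option, Fintype.card_fin,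
      Cardinal.lift_natCast] at h2
    simp at h2
  rw [algebraicIndependent_iff] at h1
  push Not at h1
  obtain ⟨F, hF, hF0⟩ := h1
  -- consider `F` as a polynomial in the first variable
  have h2 : optionEquivLeft k (Fin n) F ≠ 0 := by
    rwa [Ne, EmbeddingLike.map_eq_zero_iff]
  have h3 : Polynomial.eval₂ (aeval y : MvPolynomial (Fin n) k →ₐ[k] MvPolynomial (Fin n) k)
      g (optionEquivLeft k (Fin n) F) = 0 := by
    rw [← hF]
    have h4 : (Polynomial.eval₂RingHom
        (aeval y : MvPolynomial (Fin n) k →ₐ[k] MvPolynomial (Fin n) k).toRingHom g).comp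
        (optionEquivLeft k (Fin n)).toAlgHom.toRingHom =
        (aeval z : MvPolynomial (Option (Fin n)) k →ₐ[k] MvPolynomial (Fin n) k).toRingHom := by
      apply MvPolynomial.ringHom_ext
      · intro r
        simp
      · rintro (_ | i)
        · simp [z]
        · simp [z]
    exact DFunLike.congr_fun h4 F
  exact exists_dvd_of_rel _ g hg _ h2 h3

/-- A surjective endomorphism of the polynomial ring is an automorphism. -/
theorem injective_of_surjective {A : Type*} [CommRing A] [IsNoetherianRing A] (f : A →+* A)
    (hf : Function.Surjective f) : Function.Injective f := by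
  rw [injective_iff_map_eq_zero]
  intro a ha
  let I : ℕ →o Ideal A :=
    { toFun := fun m => RingHom.ker (f ^ m)
      monotone' := by
        apply monotone_nat_of_le_succ
        intro m x hx
        rw [RingHom.mem_ker] at hx ⊢
        rw [pow_succ', RingHom.mul_def, RingHom.comp_apply, hx, map_zero] }
  obtain ⟨m, hm⟩ := monotone_stabilizes_iff_noetherian.2 (inferInstance : IsNoetherian A A) I
  have hs : Function.Surjective (f ^ m : A →+* A) := by
    rw [RingHom.coe_pow]
    exact hf.iterate m
  obtain ⟨b, rfl⟩ := hs a
  have h1 : b ∈ I (m + 1) := by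
    change b ∈ RingHom.ker (f ^ (m + 1))
    rw [RingHom.mem_ker, pow_succ', RingHom.mul_def, RingHom.comp_apply, ha]
  rw [← hm (m + 1) (Nat.le_succ m)] at h1
  exact h1

/-- a family of generators defines an automorphism of the polynomial ring -/
theorem exists_algEquiv (y : Fin n → MvPolynomial (Fin n) k)
    (h : Algebra.adjoin k (Set.range y) = ⊤) :
    ∃ ψ : MvPolynomial (Fin n) k ≃ₐ[k] MvPolynomial (Fin n) k, ∀ i, ψ (X i) = y i := by
  have h1 : Function.Surjective (aeval y : MvPolynomial (Fin n) k →ₐ[k] _) := by
    rw [← AlgHom.range_eq_top, ← Algebra.adjoin_range_eq_range_aeval]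
    exact h
  have h2 := injective_of_surjective
    (aeval y : MvPolynomial (Fin n) k →ₐ[k] MvPolynomial (Fin n) k).toRingHom h1
  exact ⟨AlgEquiv.ofBijective (aeval y) ⟨h2, h1⟩, fun i => by simp⟩

end Pool.Agent.H974T
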