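import Pool.Agent.H974T.BB
import Pool.Agent.H974T.Dep

/-!
# Tori whose weights have `a_1 + ... + a_n = 0` as their only relation, continued
-/

set_option autoImplicit false

open MvPolynomial

namespace Pool.Agent.H974T

variable {k : Type*} [Field k] {d n : ℕ}

theorem decomp_unique [Infinite k] {ρ : TAct k d n} {Z Z' : (Fin d → ℤ) →₀ PA k n}
    (hZ : ∀ e, IsWt ρ e (Z e)) (hZ' : ∀ e, IsWt ρ e (Z' e))
    (h : Z.sum (fun _ v => v) = Z'.sum (fun _ v => v)) : Z = Z' := by
  classical
  rw [← sub_eq_zero]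
  apply laurent_eq_zero (k := k)
  intro t
  have h1 : (Z - Z').sum (fun e v => chik (k := k) e t • v) =
      ρ t ((Z - Z').sum (fun _ v => v)) := by
    rw [Finsupp.sum, Finsupp.sum, map_sum]
    refine Finset.sum_congr rfl (fun e _ => ?_)
    rw [Finsupp.sub_apply, ((hZ e).sub (hZ' e)) t]
  rw [h1, Finsupp.sum_sub_index (by intros; rfl), h, sub_self, map_zero]

theorem exists_irreducible_factor {h : PA k n} (h0 : h ≠ 0) (hc : coeff 0 h = 0) :
    ∃ g, Irreducible g ∧ g ∣ h ∧ coeff 0 g = 0 := by
  induction h using WfDvdMonoid.induction_on_irreducible with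
  | zero => exact absurd rfl h0
  | unit u hu =>
    exfalso
    have h1 : IsUnit (constantCoeff u) := hu.map constantCoeff
    exact h1.ne_zero hc
  | mul a i ha hi ih =>
    have h1 : coeff 0 (i * a) = coeff 0 i * coeff 0 a :=
      map_mul (constantCoeff (R := k) (σ := Fin n)) i a
    rw [h1] at hc
    rcases mul_eq_zero.1 hc with h2 | h2
    · exact ⟨i, hi, Dvd.intro _ rfl, h2⟩
    · obtain ⟨g, hg, hga, hg0⟩ := ih ha h2
      exact ⟨g, hg, hga.mul_left _, hg0⟩

theorem coeff_zero_aeval (y : Fin n → PA k n) (hy : ∀ i, coeff 0 (y i) = 0) (p : PA k n) :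
    coeff 0 (aeval y p) = coeff 0 p := by
  have h1 : (constantCoeff (R := k) (σ := Fin n)).comp
      (aeval y : PA k n →ₐ[k] PA k n).toRingHom = constantCoeff := by
    apply MvPolynomial.ringHom_ext
    · intro r
      simp
    · intro i
      simp [constantCoeff_eq, hy i]
  exact DFunLike.congr_fun h1 p

/-- the condition that all relations between the weights are multiples of one another, the
sum of all weights being the basic relation -/
def OnlyOne (b : Fin n → Fin d → ℤ) : Prop :=
  ∀ p q : Fin n →₀ ℕ, aw b p = aw b q → ∃ m : ℕ, (∀ i, p i = q i + m) ∨ (∀ i, q i = p i + m)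

theorem degree_eq_sum' (p : Fin n →₀ ℕ) : p.degree = ∑ i, p i := by
  rw [Finsupp.degree_eq_sum]

/-- An irreducible semi-invariant vanishing at the origin divides one of the `y_i`. -/
theorem exists_dvd_of_irreducible [Infinite k] {ρ : TAct k d n} (hdec : Decomposes ρ)
    {b : Fin n → Fin d → ℤ} (hrel : OnlyOne b) (y : Fin n → PA k n)
    (hy : ∀ i, IsWt ρ (b i) (y i)) (hy0 : ∀ i, coeff 0 (y i) = 0)
    {g : PA k n} {e : Fin d → ℤ} (hg : IsWt ρ e g) (hgi : Irreducible g) (hg0 : coeff 0 g = 0) :
    ∃ i, g ∣ y i := by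
  classical
  obtain ⟨P, hP, h, hh⟩ := exists_rel_dvd g hgi.ne_zero y
  obtain ⟨Y, hY, hYh⟩ := hdec h
  -- two decompositions
  let Z : (Fin d → ℤ) →₀ PA k n := ∑ β ∈ P.support,
    Finsupp.single (aw b β) (aeval y (monomial β (coeff β P)))
  let Z' : (Fin d → ℤ) →₀ PA k n := ∑ e' ∈ Y.support, Finsupp.single (e + e') (g * Y e')
  have hmon : ∀ (β : Fin n →₀ ℕ) (c : k), IsWt ρ (aw b β) (aeval y (monomial β c)) := by
    intro β c
    rw [aeval_monomial, Finsupp.prod_fintype _ _ (by simp)]
    have h1 := (IsWt.C ρ c).mul (IsWt.prod (ρ := ρ) Finset.univ (fun i => β i • b i)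
      (fun i => y i ^ β i) (fun i _ => (hy i).pow (β i)))
    rw [zero_add] at h1
    exact h1
  have hZ : ∀ w, IsWt ρ w (Z w) := by
    intro w t
    simp only [Z]
    rw [Finsupp.finsetSum_apply, map_sum, Finset.smul_sum]
    refine Finset.sum_congr rfl (fun β _ => ?_)
    rw [Finsupp.single_apply]
    split_ifs with h0
    · subst h0; exact hmon β _ t
    · simp
  have hZ' : ∀ w, IsWt ρ w (Z' w) := by
    intro w t
    simp only [Z']
    rw [Finsupp.finsetSum_apply, map_sum, Finset.smul_sum]
    refine Finset.sum_congr rfl (fun e' _ => ?_)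
    rw [Finsupp.single_apply]
    split_ifs with h0
    · subst h0; exact (hg.mul (hY e')) t
    · simp
  have hsumZ : Z.sum (fun _ v => v) = aeval y P := by
    simp only [Z]
    rw [← Finsupp.sum_finsetSum_index (by simp) (by simp)]
    conv_rhs => rw [P.as_sum, map_sum]
    refine Finset.sum_congr rfl (fun β _ => ?_)
    rw [Finsupp.sum_single_index rfl]
  have hsumZ' : Z'.sum (fun _ v => v) = aeval y P := by
    simp only [Z']
    rw [← Finsupp.sum_finsetSum_index (by simp) (by simp), hh, ← hYh, Finsupp.sum,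
      Finset.mul_sum]
    refine Finset.sum_congr rfl (fun β _ => ?_)
    rw [Finsupp.sum_single_index rfl]
  have hZZ : Z = Z' := decomp_unique hZ hZ' (hsumZ.trans hsumZ'.symm)
  have hdvd : ∀ w, g ∣ Z w := by
    intro w
    rw [hZZ]
    simp only [Z']
    rw [Finsupp.finsetSum_apply]
    refine Finset.dvd_sum (fun e' _ => ?_)
    rw [Finsupp.single_apply]
    split_ifs
    · exact Dvd.intro _ rfl
    · exact dvd_zero _
  obtain ⟨β0, hβ0⟩ := MvPolynomial.support_nonempty.2 hP
  let S : Finset (Fin n →₀ ℕ) := P.support.filter (fun β => aw b β = aw b β0)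
  have hS : S.Nonempty := ⟨β0, by simp [S, hβ0]⟩
  obtain ⟨β1, hβ1, hmin⟩ := Finset.exists_min_image S Finsupp.degree hS
  have hle : ∀ β ∈ S, β1 ≤ β := by
    intro β hβ
    have h1 : aw b β = aw b β1 := by
      rw [(Finset.mem_filter.1 hβ).2, (Finset.mem_filter.1 hβ1).2]
    obtain ⟨m, h2 | h2⟩ := hrel _ _ h1
    · intro i
      rw [h2 i]
      exact Nat.le_add_right _ _
    · have h3 := hmin β hβ
      rw [degree_eq_sum', degree_eq_sum'] at h3
      intro i
      by_contra hlt
      push Not at hlt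
      have h4 : ∑ j, β j < ∑ j, β1 j := by
        refine Finset.sum_lt_sum (fun j _ => ?_) ⟨i, Finset.mem_univ i, hlt⟩
        rw [h2 j]; exact Nat.le_add_right _ _
      omega
  let U : PA k n := ∑ β ∈ S, monomial (β - β1) (coeff β P)
  have hZw : Z (aw b β0) = aeval y (monomial β1 (1 : k)) * aeval y U := by
    have h1 : Z (aw b β0) = ∑ β ∈ S, aeval y (monomial β (coeff β P)) := by
      simp only [Z, S]
      rw [Finsupp.finsetSum_apply, Finset.sum_filter]
      refine Finset.sum_congr rfl (fun β _ => ?_)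
      rw [Finsupp.single_apply]
    rw [h1, ← map_mul]
    simp only [U]
    rw [Finset.mul_sum, map_sum]
    refine Finset.sum_congr rfl (fun β hβ => ?_)
    rw [monomial_mul, one_mul, add_tsub_cancel_of_le (hle β hβ)]
  have hU : coeff 0 (aeval y U) ≠ 0 := by
    rw [coeff_zero_aeval y hy0]
    simp only [U]
    rw [coeff_sum, Finset.sum_eq_single β1]
    · rw [tsub_self, coeff_monomial, if_pos rfl]
      exact mem_support_iff.1 (Finset.mem_filter.1 hβ1).1
    · intro β hβ hne
      rw [coeff_monomial, if_neg]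
      intro h0
      apply hne
      exact le_antisymm (tsub_eq_zero_iff_le.1 h0) (hle β hβ)
    · intro h0; exact absurd hβ1 h0
  have hp : Prime g := hgi.prime
  have h1 := hdvd (aw b β0)
  rw [hZw] at h1
  rcases hp.dvd_or_dvd h1 with h2 | h2
  · rw [aeval_monomial, map_one, one_mul, Finsupp.prod_fintype _ _ (by simp)] at h2
    obtain ⟨i, -, hi⟩ := hp.exists_mem_finset_dvd h2
    exact ⟨i, hp.dvd_of_dvd_pow hi⟩
  · exfalso
    obtain ⟨c, hc⟩ := h2
    apply hU
    rw [hc]
    have h3 : coeff 0 (g * c) = coeff 0 g * coeff 0 c :=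
      map_mul (constantCoeff (R := k) (σ := Fin n)) g c
    rw [h3, hg0, zero_mul]

/-- **Białynicki-Birula type lemma.** If all relations between the weights of a torus action
at the fixed point are multiples of `a_1 + ... + a_n = 0`, then there are generators of the
polynomial ring with the weights `a_1, ..., a_n`. -/
theorem exists_generators [IsAlgClosed k] {ρ : TAct k d n} {x : Fin n → LL k n d} (hx : Rep ρ x)
    {b : Fin n → Fin d → ℤ} (hn : Normal ρ b) (hrel : OnlyOne b) :
    ∃ y : Fin n → PA k n, (∀ i, IsWt ρ (b i) (y i)) ∧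
      Algebra.adjoin k (Set.range y) = ⊤ := by
  classical
  have : Infinite k := IsAlgClosed.instInfinite
  have hdec := hx.decomposes
  have hfix : FixZero ρ := hn.const
  -- the homogeneous generators
  have hex : ∀ i, ∃ y : PA k n, IsWt ρ (b i) y ∧ Irreducible y ∧ coeff 0 y = 0 := by
    intro i
    have hf0 : (x i).coeff (b i) ≠ 0 := by
      intro h0
      have h1 := hx.coeff_single_coeff hn i i (b i)
      rw [h0, coeff_zero, if_pos ⟨rfl, rfl⟩] at h1
      exact zero_ne_one h1
    obtain ⟨y, hy, ⟨c, hc⟩, hy0⟩ := exists_irreducible_factor hf0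
      (hx.coeff_zero_coeff hn i (b i))
    have hfw := hx.isWt_coeff i (b i)
    obtain ⟨e, he⟩ := IsWt.of_irreducible_dvd hdec hfw hf0 hy ⟨c, hc⟩
    have hcw : IsWt ρ (b i - e) c := he.of_mul hy.ne_zero (by rw [← hc]; exact hfw)
    have hc0 : coeff 0 c ≠ 0 := by
      intro h0
      have h1 := hx.coeff_single_coeff hn i i (b i)
      rw [if_pos ⟨rfl, rfl⟩, hc, coeff_mul] at h1
      apply zero_ne_one (α := k)
      rw [← h1]
      symm
      refine Finset.sum_eq_zero (fun p hp => ?_)
      rw [Finset.HasAntidiagonal.mem_antidiagonal] at hp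
      have h2 : p.1.degree + p.2.degree = 1 := by
        rw [← map_add, hp, Finsupp.degree_single]
      have h3 : p.1.degree = 0 ∨ p.2.degree = 0 := by omega
      rcases h3 with h3 | h3
      · rw [Finsupp.degree_eq_zero_iff] at h3
        rw [h3, hy0, zero_mul]
      · rw [Finsupp.degree_eq_zero_iff] at h3
        rw [h3, h0, mul_zero]
    have h4 := hfix.weight_eq_zero hcw hc0
    rw [sub_eq_zero] at h4
    rw [← h4] at he
    exact ⟨y, he, hy, hy0⟩
  choose y hyw hyi hy0 using hex
  refine ⟨y, hyw, ?_⟩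
  -- semi-invariants are in the subalgebra generated by `y`
  have hmain : ∀ (N : ℕ) (h : PA k n) (e : Fin d → ℤ), h.totalDegree ≤ N → IsWt ρ e h →
      h ∈ Algebra.adjoin k (Set.range y) := by
    intro N
    induction N with
    | zero =>
      intro h e hN hh
      rw [Nat.le_zero, totalDegree_eq_zero_iff_eq_C] at hN
      rw [hN]
      exact Subalgebra.algebraMap_mem _ _
    | succ N ih =>
      intro h e hN hh
      obtain ⟨h', c, e', hadd, hh', hdeg, h0⟩ : ∃ (h' : PA k n) (c : k) (e' : Fin d → ℤ),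
          h = h' + C c ∧ IsWt ρ e' h' ∧ h'.totalDegree ≤ N + 1 ∧ coeff 0 h' = 0 := by
        by_cases h0 : coeff 0 h = 0
        · exact ⟨h, 0, e, by simp, hh, hN, h0⟩
        · have he := hfix.weight_eq_zero hh h0
          refine ⟨h - C (coeff 0 h), coeff 0 h, e, by ring, ?_, ?_, ?_⟩
          · subst he
            exact hh.sub (IsWt.C ρ _)
          · refine (totalDegree_sub _ _).trans ?_
            simpa using hN
          · simp
      rw [hadd]
      refine add_mem ?_ (Subalgebra.algebraMap_mem _ _)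
      by_cases hz : h' = 0
      · rw [hz]; exact zero_mem _
      obtain ⟨g, hgi, hgh, hg0⟩ := exists_irreducible_factor hz h0
      obtain ⟨eg, hgw⟩ := IsWt.of_irreducible_dvd hdec hh' hz hgi hgh
      obtain ⟨i, hi⟩ := exists_dvd_of_irreducible hdec hrel y hyw hy0 hgw hgi hg0
      have h1 : y i ∣ g := ((hgi.associated_of_dvd (hyi i) hi).symm).dvd
      obtain ⟨q, hq⟩ := h1.trans hgh
      have hq0 : q ≠ 0 := by
        rintro rfl
        rw [mul_zero] at hq
        exact hz hq
      have hqw := (hyw i).of_mul (hyi i).ne_zero (by rw [← hq]; exact hh')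
      have hyd : 0 < (y i).totalDegree := by
        rw [Nat.pos_iff_ne_zero]
        intro h3
        rw [totalDegree_eq_zero_iff_eq_C, hy0 i, C_0] at h3
        exact (hyi i).ne_zero h3
      have hdq : q.totalDegree ≤ N := by
        have h4 := totalDegree_mul_of_isDomain (hyi i).ne_zero hq0
        rw [← hq] at h4
        omega
      rw [hq]
      exact mul_mem (Algebra.subset_adjoin ⟨i, rfl⟩) (ih q _ hdq hqw)
  rw [eq_top_iff]
  intro p _
  obtain ⟨Y, hY, hYp⟩ := hdec p
  rw [← hYp]
  exact sum_mem (fun e _ => hmain _ _ e le_rfl (hY e))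

end Pool.Agent.H974T
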