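import Mathlib

/-!
# Characters of tori and weight decompositions of torus actions on polynomial rings
-/

set_option autoImplicit false

open MvPolynomial

namespace Pool.Agent.H974T

variable {k : Type*} [Field k]

/-- Vector valued independence of distinct characters. -/
theorem char_indep {G E V : Type*} [MulOneClass G] [AddCommGroup V] [Module k V]
    (c : E → (G →* k)) (hc : Function.Injective c) (X : E →₀ V)
    (h : ∀ g, X.sum (fun e v => c e g • v) = 0) : X = 0 := by
  ext e
  rw [Finsupp.zero_apply]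
  refine (Module.forall_dual_apply_eq_zero_iff k (X e)).1 (fun φ => ?_)
  have hli : LinearIndependent k (fun e => (c e : G → k)) :=
    (linearIndependent_monoidHom G k).comp c hc
  have h1 : X.mapRange φ (map_zero φ) = 0 := by
    refine linearIndependent_iff.1 hli _ ?_
    ext g
    rw [Finsupp.linearCombination_apply, Finsupp.sum_mapRange_index (by simp)]
    have h2 := congrArg φ (h g)
    rw [Finsupp.sum, map_sum, map_zero] at h2
    rw [Finsupp.sum, Finset.sum_apply, Pi.zero_apply, ← h2]
    refine Finset.sum_congr rfl (fun e' _ => ?_)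
    simp [mul_comm]
  have h3 := DFunLike.congr_fun h1 e
  simpa using h3

/-- the character `t ↦ ∏ t_i ^ (e i)` of the torus `(k^*)^d` -/
def chi {d : ℕ} (e : Fin d → ℤ) : (Fin d → kˣ) →* kˣ where
  toFun t := ∏ i, t i ^ e i
  map_one' := by simp
  map_mul' s t := by simp [mul_zpow, Finset.prod_mul_distrib]

theorem chi_apply {d : ℕ} (e : Fin d → ℤ) (t : Fin d → kˣ) : chi e t = ∏ i, t i ^ e i := rfl

theorem chi_add {d : ℕ} (e e' : Fin d → ℤ) (t : Fin d → kˣ) :
    chi (e + e') t = chi e t * chi e' t := by
  simp [chi_apply, zpow_add, Finset.prod_mul_distrib]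

theorem chi_zero {d : ℕ} (t : Fin d → kˣ) : chi (0 : Fin d → ℤ) t = 1 := by
  simp [chi_apply]

theorem chi_neg {d : ℕ} (e : Fin d → ℤ) (t : Fin d → kˣ) :
    chi (-e) t = (chi e t)⁻¹ := by
  simp [chi_apply, Finset.prod_inv_distrib]

theorem chi_sub {d : ℕ} (e e' : Fin d → ℤ) (t : Fin d → kˣ) :
    chi (e - e') t = chi e t * (chi e' t)⁻¹ := by
  rw [sub_eq_add_neg, chi_add, chi_neg]

theorem chi_nsmul {d : ℕ} (m : ℕ) (e : Fin d → ℤ) (t : Fin d → kˣ) :
    chi (m • e) t = chi e t ^ m := by
  induction m with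
  | zero => simp [chi_zero]
  | succ m ih => rw [succ_nsmul, chi_add, ih, pow_succ]

theorem chi_zsmul {d : ℕ} (m : ℤ) (e : Fin d → ℤ) (t : Fin d → kˣ) :
    chi (m • e) t = chi e t ^ m := by
  simp only [chi_apply, Pi.smul_apply, smul_eq_mul]
  rw [← Finset.prod_zpow]
  refine Finset.prod_congr rfl (fun i _ => ?_)
  rw [mul_comm, zpow_mul]

theorem chi_sum {d : ℕ} {ι : Type*} (s : Finset ι) (e : ι → Fin d → ℤ) (t : Fin d → kˣ) :
    chi (∑ i ∈ s, e i) t = ∏ i ∈ s, chi (e i) t := by
  classical
  induction s using Finset.induction_on with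
  | empty => simp [chi_zero]
  | insert a s ha ih => rw [Finset.sum_insert ha, Finset.prod_insert ha, chi_add, ih]

theorem chi_update_one {d : ℕ} (e : Fin d → ℤ) (i : Fin d) (u : kˣ) :
    chi e (Function.update 1 i u) = u ^ e i := by
  classical
  rw [chi_apply, Finset.prod_eq_single i]
  · simp
  · intro j _ hj
    simp [Function.update_of_ne hj]
  · simp

/-- the character with values in the field -/
def chik {d : ℕ} (e : Fin d → ℤ) : (Fin d → kˣ) →* k := (Units.coeHom k).comp (chi e)

theorem chik_apply {d : ℕ} (e : Fin d → ℤ) (t : Fin d → kˣ) : chik e t = ((chi e t : kˣ) : k) := rfl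

theorem exists_zpow_ne_one [Infinite k] {m : ℤ} (hm : m ≠ 0) : ∃ u : kˣ, u ^ m ≠ 1 := by
  by_contra hcon
  push Not at hcon
  have hN : 0 < m.natAbs := Int.natAbs_pos.2 hm
  have h1 : ∀ u : kˣ, u ^ m.natAbs = 1 := by
    intro u
    rcases Int.natAbs_eq m with h | h
    · have := hcon u
      rw [h] at this
      simpa using this
    · have := hcon u
      rw [h] at this
      simpa using this
  have h2 : ∀ x : k, x * (x ^ m.natAbs - 1) = 0 := by
    intro x
    rcases eq_or_ne x 0 with hx | hx
    · simp [hx]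
    · have := congrArg (fun u : kˣ => (u : k)) (h1 (Units.mk0 x hx))
      simp only [Units.val_pow_eq_pow_val, Units.val_mk0, Units.val_one] at this
      rw [this]; simp
  have h3 : (Polynomial.X * (Polynomial.X ^ m.natAbs - 1) : Polynomial k) = 0 := by
    apply Polynomial.funext
    intro x
    simpa using h2 x
  have h4 : (Polynomial.X ^ m.natAbs - 1 : Polynomial k) ≠ 0 := by
    have := Polynomial.X_pow_sub_C_ne_zero hN (1 : k)
    simpa using this
  exact (mul_ne_zero Polynomial.X_ne_zero h4) h3

theorem chik_injective [Infinite k] {d : ℕ} :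
    Function.Injective (chik : (Fin d → ℤ) → ((Fin d → kˣ) →* k)) := by
  intro e e' h
  ext i
  by_contra hne
  obtain ⟨u, hu⟩ := exists_zpow_ne_one (k := k) (sub_ne_zero.2 hne)
  apply hu
  have h1 := DFunLike.congr_fun h (Function.update (1 : Fin d → kˣ) i u)
  rw [chik_apply, chik_apply, chi_update_one, chi_update_one] at h1
  have h2 : u ^ e i = u ^ e' i := Units.ext h1
  rw [zpow_sub, h2, mul_inv_cancel]

/-- vanishing of Laurent polynomials with vector coefficients -/
theorem laurent_eq_zero [Infinite k] {d : ℕ} {V : Type*} [AddCommGroup V] [Module k V]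
    (X : (Fin d → ℤ) →₀ V) (h : ∀ t : Fin d → kˣ, X.sum (fun e v => chik (k := k) e t • v) = 0) :
    X = 0 :=
  char_indep chik chik_injective X h

end Pool.Agent.H974T
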