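import Pool.Agent.H974T.Act

/-!
# Fixed points of finite 2-groups and of tori acting on affine space
-/

set_option autoImplicit false

open MvPolynomial

namespace Pool.Agent.H974T

variable {k : Type*} [Field k] {d n : ℕ}

theorem jac_int : IsJacobsonRing ℤ := by
  rw [isJacobsonRing_iff_prime_eq]
  intro P hP
  by_cases h : P = ⊥
  · subst h
    rw [eq_bot_iff]
    intro x hx
    rw [Ideal.mem_jacobson_bot] at hx
    have h1 := hx x
    rw [Int.isUnit_iff] at h1
    rw [Ideal.mem_bot]
    rcases h1 with h1 | h1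
    · have : x * x = 0 := by linarith
      exact mul_self_eq_zero.1 this
    · exfalso
      nlinarith [mul_self_nonneg x]
  · have : P.IsMaximal := IsPrime.to_maximal_ideal h
    exact Ideal.jacobson_eq_self_of_isMaximal

/-- residue fields of finitely generated commutative rings are finite -/
theorem residue_finite (S : Type*) [CommRing S] [Algebra.FiniteType ℤ S] (m : Ideal S)
    [hm : m.IsMaximal] : Finite (S ⧸ m) := by
  let F : Field (S ⧸ m) := Ideal.Quotient.field m
  have h0 : Algebra.FiniteType ℤ (S ⧸ m) :=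
    Algebra.FiniteType.of_surjective ((Ideal.Quotient.mkₐ S m).restrictScalars ℤ)
      Ideal.Quotient.mk_surjective
  have hJ : IsJacobsonRing ℤ := jac_int
  have h1 : Module.Finite ℤ (S ⧸ m) := finite_of_finite_type_of_isJacobsonRing ℤ (S ⧸ m)
  obtain ⟨p, hp⟩ := CharP.exists (S ⧸ m)
  rcases Nat.eq_zero_or_pos p with h2 | h2
  · exfalso
    subst h2
    have hc : CharZero (S ⧸ m) := CharP.charP_to_charZero (S ⧸ m)
    have h3 : Function.Injective (algebraMap ℤ (S ⧸ m)) := by
      have : (algebraMap ℤ (S ⧸ m)) = Int.castRingHom (S ⧸ m) := RingHom.ext_int _ _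
      rw [this]
      exact RingHom.injective_int _
    have hi : Algebra.IsIntegral ℤ (S ⧸ m) := Algebra.IsIntegral.of_finite ℤ (S ⧸ m)
    have h4 : IsField ℤ := isField_of_isIntegral_of_isField h3 (Field.toIsField _)
    exact Int.not_isField h4
  · apply Module.finite_of_fg_torsion (S ⧸ m)
    intro x
    refine ⟨⟨(p : ℤ), ?_⟩, ?_⟩
    · rw [mem_nonZeroDivisors_iff_ne_zero]
      exact_mod_cast h2.ne'
    · change (p : ℤ) • x = 0
      rw [zsmul_eq_mul]
      simp

/-- a finite field in which `2` is nonzero has an odd number of elements -/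
theorem odd_card {F : Type*} [Field F] [Finite F] (h : (2 : F) ≠ 0) : ¬ 2 ∣ Nat.card F := by
  intro h2
  have : Fintype F := Fintype.ofFinite F
  obtain ⟨p, hp⟩ := CharP.exists F
  obtain ⟨m, hpp, hm⟩ := FiniteField.card F p
  rw [Nat.card_eq_fintype_card, hm] at h2
  have h3 := Nat.prime_two.dvd_of_dvd_pow h2
  have h4 : (2 : ℕ) = p := (Nat.prime_dvd_prime_iff_eq Nat.prime_two hpp).1 h3
  apply h
  rw [← Nat.cast_ofNat (R := F), h4]
  exact CharP.cast_eq_zero F p

/-- the ideal of the fixed points -/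
noncomputable def fixIdeal {G : Type*} [Group G] (τ : G →* (PA k n ≃ₐ[k] PA k n)) : Ideal (PA k n) :=
  Ideal.span (Set.range fun gi : G × Fin n => τ gi.1 (X gi.2) - X gi.2)

/-- A finite 2-group acting on affine space over a field with `2 ≠ 0` has a fixed point. -/
theorem fixIdeal_ne_top (h2 : (2 : k) ≠ 0) {G : Type*} [Group G] [Finite G] (hG : IsPGroup 2 G)
    (τ : G →* (PA k n ≃ₐ[k] PA k n)) : fixIdeal τ ≠ ⊤ := by
  classical
  intro htop
  have : Fintype G := Fintype.ofFinite G
  rw [Ideal.eq_top_iff_one, fixIdeal, Ideal.mem_span_range_iff_exists_fun] at htop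
  obtain ⟨H, hH⟩ := htop
  -- the ring generated by the coefficients
  let C0 : Finset k := (Finset.univ.biUnion (fun gi : G × Fin n =>
    (τ gi.1 (X gi.2)).coeffs ∪ (H gi).coeffs)) ∪ {(2 : k)⁻¹}
  let R : Subalgebra ℤ k := Algebra.adjoin ℤ (C0 : Set k)
  have hR : Algebra.FiniteType ℤ R :=
    (Subalgebra.fg_iff_finiteType _).1 ⟨C0, rfl⟩
  let ι : R →+* k := R.val.toRingHom
  have hι : Function.Injective ι := Subtype.val_injective
  have hrange : Set.range ι = (R : Set k) := by
    ext z
    exact ⟨fun ⟨r, hr⟩ => hr ▸ r.2, fun hz => ⟨⟨z, hz⟩, rfl⟩⟩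
  have hC0 : (C0 : Set k) ⊆ R := Algebra.subset_adjoin
  have hlift : ∀ p : PA k n, (∀ c ∈ p.coeffs, c ∈ C0) →
      ∃ q : MvPolynomial (Fin n) R, MvPolynomial.map ι q = p := by
    intro p hp
    have h1 : p ∈ Set.range (MvPolynomial.map (σ := Fin n) ι) := by
      rw [mem_range_map_iff_coeffs_subset, hrange]
      intro c hc
      exact hC0 (hp c hc)
    exact h1
  have hT : ∀ g i, ∃ q : MvPolynomial (Fin n) R, MvPolynomial.map ι q = τ g (X i) := by
    intro g i
    apply hlift
    intro c hc
    refine Finset.mem_union_left _ (Finset.mem_biUnion.2 ⟨(g, i), Finset.mem_univ _, ?_⟩)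
    exact Finset.mem_union_left _ hc
  have hHl : ∀ gi, ∃ q : MvPolynomial (Fin n) R, MvPolynomial.map ι q = H gi := by
    intro gi
    apply hlift
    intro c hc
    refine Finset.mem_union_left _ (Finset.mem_biUnion.2 ⟨gi, Finset.mem_univ _, ?_⟩)
    exact Finset.mem_union_right _ hc
  choose T hT using hT
  choose L hL using hHl
  have hmap : Function.Injective (MvPolynomial.map (σ := Fin n) ι) := map_injective ι hι
  -- the identities over `R`
  have hone : ∑ gi : G × Fin n, L gi * (T gi.1 gi.2 - X gi.2) = 1 := by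
    apply hmap
    rw [map_sum, map_one, ← hH]
    refine Finset.sum_congr rfl (fun gi _ => ?_)
    rw [map_mul, map_sub, hL, hT, map_X]
  have hT1 : ∀ i, T 1 i = X i := by
    intro i
    apply hmap
    rw [hT, map_one, map_X]; rfl
  have hTmul : ∀ g g' i, T (g * g') i = bind₁ (T g) (T g' i) := by
    intro g g' i
    apply hmap
    rw [hT, map_mul, map_bind₁]
    change τ g (τ g' (X i)) = _
    rw [← hT g' i]
    have h3 : ((τ g : PA k n →ₐ[k] PA k n) : PA k n →+* PA k n) =
        (bind₁ (fun j => MvPolynomial.map ι (T g j)) : PA k n →ₐ[k] PA k n).toRingHom := by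
      apply MvPolynomial.ringHom_ext
      · intro r
        change τ g (C r) = bind₁ _ (C r)
        rw [bind₁_C_right]
        exact (τ g).commutes r
      · intro j
        change τ g (X j) = bind₁ _ (X j)
        rw [bind₁_X_right, hT]
    exact DFunLike.congr_fun h3 _
  -- a finite residue field
  obtain ⟨𝔫, h𝔫⟩ := Ideal.exists_maximal R
  let F := R ⧸ 𝔫
  let iF : Field F := Ideal.Quotient.field 𝔫
  have hfin : Finite F := residue_finite R 𝔫
  have h2F : (2 : F) ≠ 0 := by
    have h3 : (2 : k)⁻¹ ∈ R := hC0 (Finset.mem_union_right _ (Finset.mem_singleton_self _))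
    have h4 : (2 : R) * ⟨(2 : k)⁻¹, h3⟩ = 1 := by
      apply Subtype.ext
      change (2 : k) * (2 : k)⁻¹ = 1
      exact mul_inv_cancel₀ h2
    have h5 := congrArg (Ideal.Quotient.mk 𝔫) h4
    rw [map_mul, map_one, map_ofNat] at h5
    intro h6
    rw [h6, zero_mul] at h5
    exact zero_ne_one h5
  let π : R →+* F := Ideal.Quotient.mk 𝔫
  -- the action of `G` on the points over `F`
  let act : G → (Fin n → F) → (Fin n → F) := fun g P i => eval₂ π P (T g⁻¹ i)
  have hact1 : ∀ P, act 1 P = P := by
    intro P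
    funext i
    simp only [act]
    rw [inv_one, hT1, eval₂_X]
  have hactmul : ∀ g g' P, act (g * g') P = act g (act g' P) := by
    intro g g' P
    funext i
    simp only [act]
    rw [mul_inv_rev, hTmul]
    have h3 : (eval₂Hom π P).comp (bind₁ (T g'⁻¹)).toRingHom =
        eval₂Hom π (fun j => eval₂ π P (T g'⁻¹ j)) := by
      apply MvPolynomial.ringHom_ext
      · intro r
        simp
      · intro j
        simp
    exact DFunLike.congr_fun h3 _
  let _ : MulAction G (Fin n → F) :=
    { smul := act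
      one_smul := hact1
      mul_smul := hactmul }
  have hodd : ¬ 2 ∣ Nat.card (Fin n → F) := by
    rw [Nat.card_pi, Finset.prod_const]
    intro h3
    exact odd_card h2F (Nat.prime_two.dvd_of_dvd_pow h3)
  obtain ⟨P, hP⟩ := hG.nonempty_fixed_point_of_prime_not_dvd_card (Fin n → F) hodd
  have hPfix : ∀ g i, eval₂ π P (T g i) = P i := by
    intro g i
    have h3 : act g⁻¹ P = P := hP g⁻¹
    have h4 := congrFun h3 i
    simp only [act, inv_inv] at h4
    exact h4
  have h3 := congrArg (eval₂Hom π P) hone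
  rw [map_sum, map_one] at h3
  apply zero_ne_one (α := F)
  rw [← h3]
  symm
  refine Finset.sum_eq_zero (fun gi _ => ?_)
  rw [map_mul, map_sub]
  simp only [coe_eval₂Hom]
  rw [hPfix, eval₂_X, sub_self, mul_zero]

/-- the torsion subgroup of exponent `2 ^ m` of the torus -/
noncomputable def tors (k : Type*) [Field k] (d m : ℕ) :
    (Fin d → rootsOfUnity (2 ^ m) k) →* (Fin d → kˣ) where
  toFun u i := (u i : kˣ)
  map_one' := rfl
  map_mul' _ _ := rfl

theorem isPGroup_tors (m : ℕ) : IsPGroup 2 (Fin d → rootsOfUnity (2 ^ m) k) := by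
  intro u
  refine ⟨m, ?_⟩
  funext i
  apply Subtype.ext
  exact (mem_rootsOfUnity _ _).1 (u i).2

/-- **Fixed points.** An algebraic action of a torus on affine space over an algebraically closed
field with `2 ≠ 0` has a fixed point. -/
theorem Rep.exists_fixed_point [IsAlgClosed k] (h2 : (2 : k) ≠ 0) {ρ : TAct k d n}
    {x : Fin n → LL k n d} (hx : Rep ρ x) :
    ∃ P : Fin n → k, ∀ t i, eval P (ρ t (X i)) = P i := by
  classical
  -- ideals of the fixed points of the torsion subgroups
  let I : ℕ → Ideal (PA k n) := fun m => fixIdeal (ρ.comp (tors k d m))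
  have hmono : Monotone I := by
    intro m m' hmm
    simp only [I, fixIdeal]
    rw [Ideal.span_le]
    rintro _ ⟨⟨u, i⟩, rfl⟩
    have hu : ∀ j, (u j : kˣ) ∈ rootsOfUnity (2 ^ m') k := by
      intro j
      exact rootsOfUnity_le_of_dvd (pow_dvd_pow 2 hmm) (u j).2
    refine Ideal.subset_span ⟨(fun j => ⟨(u j : kˣ), hu j⟩, i), rfl⟩
  obtain ⟨M, hM⟩ := monotone_stabilizes_iff_noetherian.2
    (inferInstance : IsNoetherian (PA k n) (PA k n)) ⟨I, hmono⟩
  have hne : I M ≠ ⊤ := by
    have : NeZero (2 ^ M) := ⟨pow_ne_zero _ two_ne_zero⟩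
    exact fixIdeal_ne_top h2 (isPGroup_tors M) _
  obtain ⟨𝔫, h𝔫, hle⟩ := Ideal.exists_le_maximal _ hne
  obtain ⟨P, hP⟩ := eq_vanishingIdeal_singleton_of_isMaximal (K := k) h𝔫
  have hfixT : ∀ m (u : Fin d → rootsOfUnity (2 ^ m) k) i,
      eval P (ρ (tors k d m u) (X i)) = P i := by
    intro m u i
    have h3 : ρ (tors k d m u) (X i) - X i ∈ I M := by
      have h4 : ρ (tors k d m u) (X i) - X i ∈ I m := Ideal.subset_span ⟨(u, i), rfl⟩
      rcases le_total m M with h5 | h5
      · exact hmono h5 h4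
      · have h6 : I M = I m := hM m h5
        rw [h6]; exact h4
    have h7 := hle h3
    rw [hP, mem_vanishingIdeal_singleton_iff] at h7
    rw [map_sub, aeval_X, sub_eq_zero] at h7
    rw [← h7]; rfl
  refine ⟨P, fun t i => ?_⟩
  -- the 2-power torsion subgroup
  let G : Subgroup (Fin d → kˣ) :=
    { carrier := {t | ∃ m, t ^ 2 ^ m = 1}
      one_mem' := ⟨0, one_pow _⟩
      mul_mem' := by
        rintro s t ⟨m, hm⟩ ⟨m', hm'⟩
        refine ⟨m + m', ?_⟩
        rw [mul_pow, pow_add, pow_mul s, hm, one_pow, mul_comm (2 ^ m), pow_mul t, hm', one_pow,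
          one_mul]
      inv_mem' := by
        rintro t ⟨m, hm⟩
        exact ⟨m, by rw [inv_pow, hm, inv_one]⟩ }
  have hG : ∀ t ∈ G, ∀ i, eval P (ρ t (X i)) = P i := by
    rintro t ⟨m, hm⟩ i
    have hu : ∀ j, t j ∈ rootsOfUnity (2 ^ m) k := by
      intro j
      rw [mem_rootsOfUnity]
      exact congrFun hm j
    exact hfixT m (fun j => ⟨t j, hu j⟩) i
  let c : (Fin d → ℤ) → (G →* k) := fun e => (chik e).comp G.subtype
  have hc : Function.Injective c := by
    intro e e' hee
    ext i
    by_contra hne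
    have h3 : e i - e' i ≠ 0 := sub_ne_zero.2 hne
    have : NeZero ((2 : ℕ) : k) := ⟨by exact_mod_cast h2⟩
    obtain ⟨ζ, hζ⟩ := HasEnoughRootsOfUnity.exists_primitiveRoot k (2 ^ (e i - e' i).natAbs)
    have hζ0 : ζ ≠ 0 := hζ.ne_zero (pow_ne_zero _ two_ne_zero)
    let z : kˣ := Units.mk0 ζ hζ0
    have hz : IsPrimitiveRoot z (2 ^ (e i - e' i).natAbs) := by
      rw [← IsPrimitiveRoot.coe_units_iff]
      exact hζ
    have hmem : Function.update (1 : Fin d → kˣ) i z ∈ G := by
      refine ⟨(e i - e' i).natAbs, ?_⟩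
      funext j
      rw [Pi.pow_apply, Pi.one_apply]
      by_cases hj : j = i
      · subst hj
        rw [Function.update_self]
        exact hz.pow_eq_one
      · rw [Function.update_of_ne hj, Pi.one_apply, one_pow]
    have h4 := DFunLike.congr_fun hee ⟨_, hmem⟩
    change chik (k := k) e (Function.update (1 : Fin d → kˣ) i z) =
      chik (k := k) e' (Function.update (1 : Fin d → kˣ) i z) at h4
    rw [chik_apply, chik_apply, chi_update_one, chi_update_one] at h4
    have h5 : z ^ (e i - e' i) = 1 := by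
      rw [zpow_sub, Units.ext h4, mul_inv_cancel]
    rw [hz.zpow_eq_one_iff_dvd] at h5
    have h6 := Int.le_of_dvd (abs_pos.2 h3) ((dvd_abs _ _).2 h5)
    rw [Int.abs_eq_natAbs] at h6
    have h7 : 2 ^ (e i - e' i).natAbs ≤ (e i - e' i).natAbs := by exact_mod_cast h6
    exact absurd h7 (not_le.2 Nat.lt_two_pow_self)
  -- the Laurent polynomial `ρ t (X i) (P)`
  have hsum : ∀ t, eval P (ρ t (X i)) =
      ((x i).coeff.mapRange (fun p : PA k n => eval P p) (map_zero _)).sum
        (fun e v => chik (k := k) e t • v) := by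
    intro t
    rw [hx, ev_apply, Finsupp.sum_mapRange_index (by simp), Finsupp.sum, Finsupp.sum, map_sum]
    refine Finset.sum_congr rfl (fun e _ => ?_)
    rw [smul_eval, smul_eq_mul]
  have h0 : (x i).coeff.mapRange (fun p : PA k n => eval P p) (map_zero _) -
      Finsupp.single 0 (P i) = 0 := by
    apply char_indep c hc
    intro g
    rw [Finsupp.sum_sub_index (by intros; rw [smul_sub]), Finsupp.sum_single_index (by simp)]
    have h8 := hG g.1 g.2 i
    rw [hsum] at h8
    have h9 : c 0 g = 1 := by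
      change chik (0 : Fin d → ℤ) g.1 = 1
      rw [chik_apply, chi_zero, Units.val_one]
    rw [h9, one_smul, sub_eq_zero]
    exact h8
  rw [hsum, sub_eq_zero.1 h0, Finsupp.sum_single_index (by simp), chik_apply, chi_zero,
    Units.val_one, one_smul]

end Pool.Agent.H974T
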