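import Pool.Agent.H974T.Norm
import Pool.Agent.H974T.Fix

/-!
# Diagonalization of the linear part of a torus action at a fixed point
-/

set_option autoImplicit false

open MvPolynomial

namespace Pool.Agent.H974T

variable {k : Type*} [Field k] {d n : ℕ}

theorem eval_apply_of_fix {ρ : TAct k d n} {P : Fin n → k}
    (hP : ∀ t i, eval P (ρ t (X i)) = P i) (t : Fin d → kˣ) (q : PA k n) :
    eval P (ρ t q) = eval P q := by
  have h1 : (eval P).comp ((ρ t : PA k n →ₐ[k] PA k n) : PA k n →+* PA k n) = eval P := by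
    apply MvPolynomial.ringHom_ext
    · intro r
      change eval P (ρ t (C r)) = _
      have : ρ t (C r) = C r := (ρ t).commutes r
      rw [this]
    · intro i
      change eval P (ρ t (X i)) = _
      rw [hP t i, eval_X]
  exact DFunLike.congr_fun h1 q

theorem apply_eq_aeval (ρ : TAct k d n) (t : Fin d → kˣ) (q : PA k n) :
    ρ t q = aeval (fun j => ρ t (X j)) q := by
  have h1 : (ρ t : PA k n →ₐ[k] PA k n) = aeval (fun j => ρ t (X j)) := by
    apply MvPolynomial.algHom_ext
    intro i
    simp
  exact DFunLike.congr_fun h1 q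

/-- the differential at the fixed point of a semi-invariant is an eigenvector -/
theorem IsWt.jacobian {ρ : TAct k d n} {P : Fin n → k}
    (hP : ∀ t i, eval P (ρ t (X i)) = P i) {e : Fin d → ℤ} {w : PA k n} (hw : IsWt ρ e w)
    (t : Fin d → kˣ) (i : Fin n) :
    ∑ l, eval P (pderiv i (ρ t (X l))) * eval P (pderiv l w) =
      chik (k := k) e t * eval P (pderiv i w) := by
  have h1 : pderiv i (ρ t w) = ∑ l, ρ t (pderiv l w) * pderiv i (ρ t (X l)) := by
    rw [apply_eq_aeval, pderiv_aeval]
    refine Finset.sum_congr rfl (fun l _ => ?_)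
    rw [← apply_eq_aeval]
  have h2 := congrArg (eval P) h1
  rw [hw t, Derivation.map_smul, smul_eval, map_sum] at h2
  rw [h2]
  refine Finset.sum_congr rfl (fun l _ => ?_)
  rw [map_mul, eval_apply_of_fix hP, mul_comm]

/-- **Diagonalization.** The linear part of an algebraic torus action at a fixed point is
diagonalizable. -/
theorem Rep.exists_normalAt [Infinite k] {ρ : TAct k d n} {x : Fin n → LL k n d} (hx : Rep ρ x)
    {P : Fin n → k} (hP : ∀ t i, eval P (ρ t (X i)) = P i) :
    ∃ (M N : Matrix (Fin n) (Fin n) k) (a : Fin n → Fin d → ℤ), M * N = 1 ∧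
      NormalAt ρ P M a := by
  classical
  -- the differentials at `P` of the weight components of the coordinates
  let ℓ : Fin n × (Fin d → ℤ) → (Fin n → k) := fun je i =>
    eval P (pderiv i ((x je.1).coeff je.2))
  have hspan : Submodule.span k (Set.range ℓ) = ⊤ := by
    rw [eq_top_iff, ← (Pi.basisFun k (Fin n)).span_eq, Submodule.span_le]
    rintro _ ⟨j, rfl⟩
    have h1 : (Pi.basisFun k (Fin n)) j = ∑ e ∈ (x j).coeff.support, ℓ (j, e) := by
      funext i
      rw [Finset.sum_apply, Pi.basisFun_apply]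
      simp only [ℓ]
      rw [← map_sum, ← map_sum]
      have h2 : ∑ e ∈ (x j).coeff.support, (x j).coeff e = X j := hx.sum_coeff j
      rw [h2, pderiv_X]
      by_cases hij : i = j
      · subst hij; simp
      · rw [Pi.single_eq_of_ne hij, Pi.single_eq_of_ne (Ne.symm hij), map_zero]
    rw [SetLike.mem_coe, h1]
    exact sum_mem (fun e _ => Submodule.subset_span ⟨(j, e), rfl⟩)
  obtain ⟨b, hb, hbs, hbl⟩ := exists_linearIndependent k (Set.range ℓ)
  let B : Module.Basis b k (Fin n → k) := Module.Basis.mk hbl (by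
    rw [Subtype.range_coe, hbs, hspan])
  let eqv : b ≃ Fin n := B.indexEquiv (Pi.basisFun k (Fin n))
  let B' : Module.Basis (Fin n) k (Fin n → k) := B.reindex eqv
  have hmem : ∀ j, ∃ je, ℓ je = B' j := by
    intro j
    have h1 : B' j = ((eqv.symm j : b) : Fin n → k) := by
      simp only [B', B, Module.Basis.reindex_apply, Module.Basis.mk_apply]
    rw [h1]
    exact hb (eqv.symm j).2
  choose je hje using hmem
  let M : Matrix (Fin n) (Fin n) k := (Pi.basisFun k (Fin n)).toMatrix B'
  let N : Matrix (Fin n) (Fin n) k := B'.toMatrix (Pi.basisFun k (Fin n))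
  have hMN : M * N = 1 := by
    simp only [M, N]
    rw [Module.Basis.toMatrix_mul_toMatrix_flip]
  have hM : ∀ i j, M i j = ℓ (je j) i := by
    intro i j
    simp only [M]
    rw [Module.Basis.toMatrix_apply, Pi.basisFun_repr, hje]
  refine ⟨M, N, fun j => (je j).2, hMN, hP, fun t => ?_⟩
  ext i j
  rw [Matrix.mul_apply, Matrix.mul_diagonal, hM]
  simp only [hM, Matrix.of_apply, ℓ]
  rw [(hx.isWt_coeff (je j).1 (je j).2).jacobian hP t i, mul_comm]

end Pool.Agent.H974T
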