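import Mathlib

/-!
# Bounded bases of the lattices defined by short relations
-/

set_option autoImplicit false

namespace Pool.Agent.H974T

/-- A basis of the kernel of an integer matrix, with a left inverse, when the kernel is contained
in the hyperplane of vectors of sum zero. -/
theorem exists_lattice_basis {n : ℕ} (hn : 0 < n) {α : Type} [Finite α]
    (f : (Fin n → ℤ) →ₗ[ℤ] (α → ℤ)) (hf : ∀ y, f y = 0 → ∑ i, y i = 0) :
    ∃ (d' : ℕ) (v : Fin d' → Fin n → ℤ) (π : Fin d' → Fin n → ℤ), d' < n ∧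
      (∀ j, f (v j) = 0) ∧ (∀ y, f y = 0 → y = ∑ j, (∑ i, π j i * y i) • v j) ∧
      (∀ j j', ∑ i, π j i * v j' i = if j = j' then 1 else 0) := by
  classical
  obtain ⟨m, ⟨B⟩⟩ := Submodule.nonempty_basis_of_pid (Pi.basisFun ℤ (Fin n)) (LinearMap.ker f)
  have hfree : Module.Free ℤ (LinearMap.range f) := by
    have : Fintype α := Fintype.ofFinite α
    obtain ⟨m', ⟨B'⟩⟩ := Submodule.nonempty_basis_of_pid (Pi.basisFun ℤ α) (LinearMap.range f)
    exact Module.Free.of_basis B'
  obtain ⟨g, hg⟩ := Module.projective_lifting_property f.rangeRestrict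
    (LinearMap.id : LinearMap.range f →ₗ[ℤ] LinearMap.range f) f.surjective_rangeRestrict
  -- the projection to the kernel
  have hgf : ∀ y, f (g (f.rangeRestrict y)) = f y := by
    intro y
    have h1 := LinearMap.congr_fun hg (f.rangeRestrict y)
    exact congrArg Subtype.val h1
  let pr : (Fin n → ℤ) →ₗ[ℤ] LinearMap.ker f :=
    LinearMap.codRestrict (LinearMap.ker f) (LinearMap.id - g ∘ₗ f.rangeRestrict) (by
      intro y
      rw [LinearMap.mem_ker, LinearMap.sub_apply, map_sub, LinearMap.comp_apply, hgf,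
        LinearMap.id_apply, sub_self])
  have hpr : ∀ y : LinearMap.ker f, pr y = y := by
    intro y
    apply Subtype.ext
    change (y : Fin n → ℤ) - g (f.rangeRestrict y) = y
    have h1 : f.rangeRestrict (y : Fin n → ℤ) = 0 := Subtype.ext y.2
    rw [h1, map_zero, sub_zero]
  let v : Fin m → Fin n → ℤ := fun j => B j
  let π : Fin m → Fin n → ℤ := fun j i => B.repr (pr (Pi.single i 1)) j
  have hπ : ∀ j y, ∑ i, π j i * y i = B.repr (pr y) j := by
    intro j y
    have h1 : y = ∑ i, y i • (Pi.single i (1 : ℤ) : Fin n → ℤ) := by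
      funext l
      rw [Finset.sum_apply, Finset.sum_eq_single l]
      · simp
      · intro i _ hi
        simp [Pi.single_eq_of_ne (Ne.symm hi)]
      · simp
    conv_rhs => rw [h1, map_sum, map_sum, Finsupp.finsetSum_apply]
    refine Finset.sum_congr rfl (fun i _ => ?_)
    rw [map_smul, map_smul, Finsupp.smul_apply, smul_eq_mul, mul_comm]
  have h3 : ∀ j, f (v j) = 0 := fun j => (B j).2
  have h4 : ∀ y, f y = 0 → y = ∑ j, (∑ i, π j i * y i) • v j := by
    intro y hy
    have h5 := B.sum_repr ⟨y, hy⟩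
    have h6 := congrArg Subtype.val h5
    simp only [Submodule.coe_sum, Submodule.coe_smul] at h6
    conv_lhs => rw [← h6]
    refine Finset.sum_congr rfl (fun j _ => ?_)
    rw [hπ, hpr ⟨y, hy⟩]
  have h5 : ∀ j j', ∑ i, π j i * v j' i = if j = j' then 1 else 0 := by
    intro j j'
    rw [hπ, hpr (B j'), B.repr_self, Finsupp.single_apply]
    by_cases h : j = j'
    · rw [if_pos h, if_pos h.symm]
    · rw [if_neg h, if_neg (Ne.symm h)]
  refine ⟨m, v, π, ?_, h3, h4, h5⟩
  -- the dimension
  by_contra hlt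
  push Not at hlt
  have hli : LinearIndependent ℤ v := by
    have h6 := B.linearIndependent
    exact h6.map' (LinearMap.ker f).subtype (Submodule.ker_subtype _)
  have hle : m ≤ n := by
    have h6 := hli.fintype_card_le_finrank
    simpa using h6
  have hmn : m = n := le_antisymm hle hlt
  subst hmn
  -- both products are one
  let V : Matrix (Fin m) (Fin m) ℤ := Matrix.of fun i j => v j i
  let Q : Matrix (Fin m) (Fin m) ℤ := Matrix.of π
  have h6 : Q * V = 1 := by
    ext j j'
    rw [Matrix.mul_apply, Matrix.one_apply]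
    exact h5 j j'
  have h7 : V * Q = 1 := mul_eq_one_comm.1 h6
  let i0 : Fin m := ⟨0, hn⟩
  have h8 : (Pi.single i0 1 : Fin m → ℤ) = ∑ j, Q j i0 • v j := by
    funext i
    have h9 := congrFun (congrFun h7 i) i0
    rw [Matrix.mul_apply, Matrix.one_apply] at h9
    rw [Finset.sum_apply]
    by_cases hi : i = i0
    · subst hi
      rw [if_pos rfl] at h9
      rw [Pi.single_eq_same, ← h9]
      refine Finset.sum_congr rfl (fun j _ => ?_)
      rw [Pi.smul_apply, smul_eq_mul, mul_comm]
      rfl
    · rw [Pi.single_eq_of_ne hi]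
      rw [if_neg hi] at h9
      rw [← h9]
      refine Finset.sum_congr rfl (fun j _ => ?_)
      rw [Pi.smul_apply, smul_eq_mul, mul_comm]
      rfl
  have h9 : f (Pi.single i0 1) = 0 := by
    rw [h8, map_sum]
    refine Finset.sum_eq_zero (fun j _ => ?_)
    rw [map_smul, h3, smul_zero]
  have h10 := hf _ h9
  rw [Finset.sum_pi_single'] at h10
  simp at h10

/-- The pairs of exponent vectors with entries at most `N`. -/
abbrev Pairs (n N : ℕ) : Type := (Fin n → Fin (N + 1)) × (Fin n → Fin (N + 1))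

/-- the linear map whose kernel is the lattice defined by a set of relations and the condition
that the sum is zero -/
noncomputable def relMap (n N : ℕ) (S : Set (Pairs n N)) [DecidablePred (· ∈ S)] :
    (Fin n → ℤ) →ₗ[ℤ] (Option (Pairs n N) → ℤ) where
  toFun y o := o.elim (∑ i, y i)
    (fun pq => if pq ∈ S then ∑ i, ((pq.1 i : ℤ) - (pq.2 i : ℤ)) * y i else 0)
  map_add' y z := by
    funext o
    rcases o with _ | pq
    · simp [Finset.sum_add_distrib]
    · simp only [Option.elim_some, Pi.add_apply]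
      split_ifs
      · rw [← Finset.sum_add_distrib]
        exact Finset.sum_congr rfl (fun i _ => by ring)
      · rfl
  map_smul' c y := by
    funext o
    rcases o with _ | pq
    · simp [Finset.mul_sum]
    · simp only [Option.elim_some, Pi.smul_apply, smul_eq_mul, RingHom.id_apply]
      split_ifs
      · rw [Finset.mul_sum]
        exact Finset.sum_congr rfl (fun i _ => by ring)
      · simp

/-- A uniform bound for bases of the lattices defined by short relations. -/
theorem exists_uniform_bound (n N : ℕ) (hn : 0 < n) : ∃ C : ℕ, ∀ (S : Set (Pairs n N)),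
    ∃ (d' : ℕ) (v : Fin d' → Fin n → ℤ) (π : Fin d' → Fin n → ℤ), d' < n ∧
      (∀ j i, |v j i| ≤ C) ∧ (∀ j, ∑ i, v j i = 0) ∧
      (∀ j, ∀ pq ∈ S, ∑ i, ((pq.1 i : ℤ) - (pq.2 i : ℤ)) * v j i = 0) ∧
      (∀ y : Fin n → ℤ, ∑ i, y i = 0 → (∀ pq ∈ S, ∑ i, ((pq.1 i : ℤ) - (pq.2 i : ℤ)) * y i = 0) →
        y = ∑ j, (∑ i, π j i * y i) • v j) ∧
      (∀ j j', ∑ i, π j i * v j' i = if j = j' then 1 else 0) := by
  classical
  have h1 : ∀ S : Set (Pairs n N), ∃ C : ℕ, ∃ (d' : ℕ) (v : Fin d' → Fin n → ℤ)
      (π : Fin d' → Fin n → ℤ), d' < n ∧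
      (∀ j i, |v j i| ≤ C) ∧ (∀ j, ∑ i, v j i = 0) ∧
      (∀ j, ∀ pq ∈ S, ∑ i, ((pq.1 i : ℤ) - (pq.2 i : ℤ)) * v j i = 0) ∧
      (∀ y : Fin n → ℤ, ∑ i, y i = 0 → (∀ pq ∈ S, ∑ i, ((pq.1 i : ℤ) - (pq.2 i : ℤ)) * y i = 0) →
        y = ∑ j, (∑ i, π j i * y i) • v j) ∧
      (∀ j j', ∑ i, π j i * v j' i = if j = j' then 1 else 0) := by
    intro S
    obtain ⟨d', v, π, hd, hv, hy, hπ⟩ := exists_lattice_basis hn (relMap n N S) (by
      intro y hy
      exact congrFun hy none)
    refine ⟨Finset.univ.sup (fun j => Finset.univ.sup (fun i => (v j i).natAbs)), d', v, π, hd,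
      ?_, ?_, ?_, ?_, hπ⟩
    · intro j i
      rw [Int.abs_eq_natAbs, Nat.cast_le]
      exact (Finset.le_sup (f := fun i => (v j i).natAbs) (Finset.mem_univ i)).trans
        (Finset.le_sup (f := fun j => Finset.univ.sup (fun i => (v j i).natAbs))
          (Finset.mem_univ j))
    · intro j
      exact congrFun (hv j) none
    · intro j pq hpq
      have h2 := congrFun (hv j) (some pq)
      change (if pq ∈ S then _ else _) = (0 : ℤ) at h2
      rwa [if_pos hpq] at h2
    · intro y hy0 hyS
      apply hy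
      funext o
      rcases o with _ | pq
      · exact hy0
      · change (if pq ∈ S then _ else _) = (0 : ℤ)
        split_ifs with h
        · exact hyS pq h
        · rfl
  choose C hC using h1
  have : Fintype (Set (Pairs n N)) := Fintype.ofFinite _
  refine ⟨Finset.univ.sup C, fun S => ?_⟩
  obtain ⟨d', v, π, hd, hb, h2, h3, h4, h5⟩ := hC S
  refine ⟨d', v, π, hd, fun j i => (hb j i).trans ?_, h2, h3, h4, h5⟩
  exact_mod_cast Finset.le_sup (f := C) (Finset.mem_univ S)

end Pool.Agent.H974T
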