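import Pool.Agent.H974T.Gen
import Pool.Agent.H974T.Diag
import Pool.Agent.H974T.Lat

/-!
# Every volume-preserving torus of bounded degree lies in one with bounded weights
-/

set_option autoImplicit false

open MvPolynomial

namespace Pool.Agent.H974T

variable {k : Type*} [Field k] {d d' n : ℕ}

/-- the Jacobian matrix at a point -/
noncomputable def jacAt (φ : PA k n ≃ₐ[k] PA k n) (P : Fin n → k) : Matrix (Fin n) (Fin n) k :=
  Matrix.of fun i j => eval P (pderiv i (φ (X j)))

theorem conj_affL (ρ : TAct k d n) (P : Fin n → k) (M : Matrix (Fin n) (Fin n) k)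
    (t : Fin d → kˣ) (j : Fin n) :
    ρ t (affL P M j) = ∑ i, C (M i j) * (ρ t (X i) - C (P i)) := by
  rw [affL, map_sum]
  refine Finset.sum_congr rfl (fun i _ => ?_)
  rw [map_mul, map_sub]
  have h1 : ∀ c, ρ t (C c) = C c := fun c => (ρ t).commutes c
  rw [h1, h1]

theorem conj_coeff_zero (ρ : TAct k d n) (P : Fin n → k) {M N : Matrix (Fin n) (Fin n) k}
    (hMN : M * N = 1) (t : Fin d → kˣ) (j : Fin n) :
    coeff 0 (conjAct (affEquiv P hMN) ρ t (X j)) =
      ∑ i, M i j * (eval P (ρ t (X i)) - P i) := by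
  change constantCoeff _ = _
  rw [← eval_zero, conjAct_apply', affEquiv_apply, affEquiv_symm_apply, aeval_X, eval_zero_affK,
    conj_affL, map_sum]
  refine Finset.sum_congr rfl (fun i _ => ?_)
  rw [map_mul, map_sub, eval_C, eval_C]

theorem conj_coeff_single (ρ : TAct k d n) (P : Fin n → k) {M N : Matrix (Fin n) (Fin n) k}
    (hMN : M * N = 1) (t : Fin d → kˣ) (i j : Fin n) :
    coeff (Finsupp.single i 1) (conjAct (affEquiv P hMN) ρ t (X j)) =
      (N * (jacAt (ρ t) P * M)) i j := by
  rw [coeff_single_eq, conjAct_apply', affEquiv_apply, affEquiv_symm_apply, aeval_X,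
    pderiv_aeval, map_sum, Matrix.mul_apply]
  refine Finset.sum_congr rfl (fun l _ => ?_)
  rw [map_mul, eval_zero_affK, pderiv_affK, eval_C, mul_comm, conj_affL, Matrix.mul_apply,
    map_sum, map_sum]
  congr 1
  refine Finset.sum_congr rfl (fun m _ => ?_)
  rw [pderiv_C_mul, map_sub, pderiv_C, sub_zero, jacAt, Matrix.of_apply, map_mul, eval_C,
    mul_comm]

/-- converse of `NormalAt.normal` -/
theorem normalAt_of_conj {ρ : TAct k d n} {P : Fin n → k} {M N : Matrix (Fin n) (Fin n) k}
    (hMN : M * N = 1) {a : Fin n → Fin d → ℤ} (h : Normal (conjAct (affEquiv P hMN) ρ) a) :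
    NormalAt ρ P M a := by
  classical
  constructor
  · intro t i
    have h1 : ∀ j, ∑ i, (eval P (ρ t (X i)) - P i) * M i j = 0 := by
      intro j
      rw [← h.const t j, conj_coeff_zero]
      exact Finset.sum_congr rfl (fun i _ => mul_comm _ _)
    have h2 : Matrix.vecMul (fun i => eval P (ρ t (X i)) - P i) M = 0 := by
      funext j
      exact h1 j
    have h3 : (fun i => eval P (ρ t (X i)) - P i) = 0 := by
      have h4 := congrArg (fun w => Matrix.vecMul w N) h2
      simp only [Matrix.vecMul_vecMul, hMN, Matrix.vecMul_one, Matrix.zero_vecMul] at h4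
      exact h4
    exact sub_eq_zero.1 (congrFun h3 i)
  · intro t
    have h1 : N * (jacAt (ρ t) P * M) = Matrix.diagonal (fun j => chik (k := k) (a j) t) := by
      ext i j
      rw [← conj_coeff_single ρ P hMN, h.lin, Matrix.diagonal_apply]
      by_cases hij : i = j
      · rw [if_pos hij, if_pos hij.symm, hij]
      · rw [if_neg hij, if_neg (Ne.symm hij)]
    change jacAt (ρ t) P * M = _
    rw [← h1, ← Matrix.mul_assoc, hMN, Matrix.one_mul]

/-- the Jacobian matrix of a composition -/
theorem jac_mul (φ ψ : PA k n ≃ₐ[k] PA k n) :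
    (Matrix.of fun i j : Fin n => pderiv i ((φ * ψ) (X j))) =
      (Matrix.of fun i j : Fin n => pderiv i (φ (X j))) *
        ((Matrix.of fun i j : Fin n => pderiv i (ψ (X j))).map φ) := by
  ext i j
  have h1 : ∀ q : PA k n, φ q = aeval (fun j => φ (X j)) q := by
    intro q
    have h2 : (φ : PA k n →ₐ[k] PA k n) = aeval (fun j => φ (X j)) := by
      apply MvPolynomial.algHom_ext
      intro i
      simp
    exact DFunLike.congr_fun h2 q
  have h2 : pderiv i (φ (ψ (X j))) = ∑ l, φ (pderiv l (ψ (X j))) * pderiv i (φ (X l)) := by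
    rw [h1, pderiv_aeval]
    refine Finset.sum_congr rfl (fun l _ => ?_)
    rw [← h1]
  rw [Matrix.mul_apply]
  change coeff _ (pderiv i (φ (ψ (X j)))) = coeff _ (∑ l, pderiv i (φ (X l)) *
    φ (pderiv l (ψ (X j))))
  rw [h2]
  congr 1
  exact Finset.sum_congr rfl (fun l _ => mul_comm _ _)

/-- the Jacobian determinant of an automorphism is a constant, equal to its value at any point -/
theorem jac_det (φ : PA k n ≃ₐ[k] PA k n) (P : Fin n → k) :
    (Matrix.of fun i j : Fin n => pderiv i (φ (X j))).det = C ((jacAt φ P).det) := by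
  classical
  have h1 := congrArg Matrix.det (jac_mul φ φ⁻¹)
  rw [Matrix.det_mul, mul_inv_cancel] at h1
  have h2 : (Matrix.of fun i j : Fin n =>
      pderiv i ((1 : PA k n ≃ₐ[k] PA k n) (X j))) = 1 := by
    ext i j
    rw [Matrix.of_apply]
    change coeff _ (pderiv i (X j)) = _
    rw [pderiv_X, Matrix.one_apply]
    by_cases hij : i = j
    · subst hij; simp
    · rw [if_neg hij, Pi.single_eq_of_ne (Ne.symm hij)]
  rw [h2, Matrix.det_one] at h1
  have h3 : IsUnit (Matrix.of fun i j : Fin n => pderiv i (φ (X j))).det :=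
    IsUnit.of_mul_eq_one _ h1.symm
  obtain ⟨c, -, hc⟩ := MvPolynomial.isUnit_iff_eq_C_of_isReduced.1 h3
  rw [hc]
  congr 1
  have h4 := congrArg (eval P) hc
  rw [RingHom.map_det, eval_C] at h4
  rw [← h4]
  rfl

theorem totalDegree_conj_symm {ρ : TAct k d n} {D : ℕ}
    (hD : ∀ t j, (ρ t (X j)).totalDegree ≤ D)
    (P : Fin n → k) {M N : Matrix (Fin n) (Fin n) k} (hMN : M * N = 1) (t : Fin d → kˣ)
    (j : Fin n) : (conjAct (affEquiv P hMN).symm ρ t (X j)).totalDegree ≤ D := by
  rw [conjAct_apply', affEquiv_symm_apply, AlgEquiv.symm_symm, affEquiv_apply, aeval_X]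
  refine (totalDegree_aeval_le _ (totalDegree_affL P M) _).trans ?_
  have h1 : ∀ c, ρ t (C c) = C c := fun c => (ρ t).commutes c
  rw [affK, map_add, map_sum, h1]
  refine (totalDegree_add _ _).trans (max_le ?_ ?_)
  · rw [totalDegree_C]; exact Nat.zero_le _
  · refine totalDegree_finsetSum_le (fun i _ => ?_)
    rw [map_mul, h1]
    refine (totalDegree_mul _ _).trans ?_
    rw [totalDegree_C, zero_add]
    exact hD t i

theorem conj_conj_symm (α : PA k n ≃ₐ[k] PA k n) (ρ : TAct k d n) :
    conjAct α (conjAct α.symm ρ) = ρ := by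
  ext t : 1
  rw [conjAct_apply, conjAct_apply]
  change α * (α⁻¹ * ρ t * α⁻¹⁻¹) * α⁻¹ = ρ t
  group

theorem conj_eq (α : PA k n ≃ₐ[k] PA k n) {ρ : TAct k d n} {ρ' : TAct k d' n}
    {t : Fin d → kˣ} {s : Fin d' → kˣ} (h : conjAct α ρ t = ρ' s) :
    ρ t = conjAct α.symm ρ' s := by
  rw [conjAct_apply, ← h, conjAct_apply]
  change ρ t = α⁻¹ * (α * ρ t * α⁻¹) * α⁻¹⁻¹
  group

/-- an element acting trivially has trivial weights -/
theorem NormalAt.chi_eq_one {ρ : TAct k d n} {P : Fin n → k} {M N : Matrix (Fin n) (Fin n) k}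
    (hMN : M * N = 1) {a : Fin n → Fin d → ℤ} (h : NormalAt ρ P M a) {s : Fin d → kˣ}
    (hs : ρ s = 1) (i : Fin n) : chi (a i) s = 1 := by
  classical
  have h1 := h.lin s
  have h2 : (Matrix.of fun i j => eval P (pderiv i (ρ s (X j)))) = 1 := by
    ext i j
    rw [Matrix.of_apply, hs]
    change eval P (pderiv i (X j)) = _
    rw [pderiv_X, Matrix.one_apply]
    by_cases hij : i = j
    · subst hij; simp
    · rw [if_neg hij, Pi.single_eq_of_ne (Ne.symm hij), map_zero]
  rw [h2, Matrix.one_mul] at h1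
  have h3 := congrArg (fun Z => N * Z) h1
  simp only [← Matrix.mul_assoc] at h3
  rw [mul_eq_one_comm.1 hMN, Matrix.one_mul] at h3
  have h4 := congrFun (congrFun h3 i) i
  rw [Matrix.one_apply_eq, Matrix.diagonal_apply_eq, chik_apply] at h4
  exact Units.ext h4.symm

/-- **Bounded weights.** -/
theorem exists_bounded (n D : ℕ) (hn : 0 < n) : ∃ C : ℕ, ∀ (k : Type) [Field k] [IsAlgClosed k]
    (_ : (2 : k) ≠ 0) (d : ℕ) (ρ : TAct k d n) (x : Fin n → LL k n d) (_ : Rep ρ x)
    (_ : ∀ t : Fin d → kˣ, (Matrix.of fun i j : Fin n => pderiv i (ρ t (X j))).det = 1)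
    (_ : ∀ t j, (ρ t (X j)).totalDegree ≤ D),
    ∃ (d' : ℕ) (ρ' : TAct k d' n) (x' : Fin n → LL k n d') (c : Fin d' → Fin d → ℤ)
      (P : Fin n → k) (M : Matrix (Fin n) (Fin n) k) (b : Fin n → Fin d' → ℤ),
      d' < n ∧ Rep ρ' x' ∧
      (∀ t : Fin d' → kˣ, (Matrix.of fun i j : Fin n => pderiv i (ρ' t (X j))).det = 1) ∧
      (∀ t j, (ρ' t (X j)).totalDegree ≤ D) ∧ Function.Injective ρ' ∧
      (∀ t, ρ t = ρ' (fun j => chi (c j) t)) ∧ M.det ≠ 0 ∧ NormalAt ρ' P M b ∧
      ∀ i j, |b i j| ≤ C := by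
  classical
  obtain ⟨C, hC⟩ := exists_uniform_bound n (D ^ 2) hn
  refine ⟨C, ?_⟩
  intro k _ _ h2 d ρ x hx hvol hdeg
  have hinf : Infinite k := IsAlgClosed.instInfinite
  obtain ⟨P, hP⟩ := hx.exists_fixed_point h2
  obtain ⟨M, N, a, hMN, hnorm⟩ := hx.exists_normalAt hP
  have hM : M.det ≠ 0 := by
    intro h0
    have h1 := congrArg Matrix.det hMN
    rw [Matrix.det_mul, h0, zero_mul, Matrix.det_one] at h1
    exact zero_ne_one h1
  have hsum := hnorm.sum_eq_zero hM hvol
  -- the normalized action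
  have hn1 := hnorm.normal hMN
  have hx1 := hx.conj (affEquiv P hMN)
  have hdeg1 := totalDegree_conj hdeg P hMN
  -- the short relations
  let S : Set (Pairs n (D ^ 2)) := {pq | ∑ i, ((pq.1 i : ℤ) - (pq.2 i : ℤ)) • a i = 0}
  obtain ⟨d', v, π, hd, hb, hv0, hvS, hy, hπ⟩ := hC S
  let b : Fin n → Fin d' → ℤ := fun i j => v j i
  have hSR : ShortRel (D ^ 2) a b := by
    intro p q hp hq hpq
    have hpi : ∀ i, p i < D ^ 2 + 1 := by
      intro i
      rw [degree_eq_sum'] at hp
      have := (Finset.single_le_sum (f := fun i => p i) (fun j _ => Nat.zero_le _)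
        (Finset.mem_univ i)).trans hp
      omega
    have hqi : ∀ i, q i < D ^ 2 + 1 := by
      intro i
      rw [degree_eq_sum'] at hq
      have := (Finset.single_le_sum (f := fun i => q i) (fun j _ => Nat.zero_le _)
        (Finset.mem_univ i)).trans hq
      omega
    let pq : Pairs n (D ^ 2) := (fun i => ⟨p i, hpi i⟩, fun i => ⟨q i, hqi i⟩)
    have hmem : pq ∈ S := by
      change ∑ i, ((p i : ℤ) - (q i : ℤ)) • a i = 0
      have h3 : ∑ i, ((p i : ℤ) - (q i : ℤ)) • a i = aw a p - aw a q := by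
        rw [aw, aw, ← Finset.sum_sub_distrib]
        refine Finset.sum_congr rfl (fun i _ => ?_)
        rw [sub_smul, natCast_zsmul, natCast_zsmul]
      rw [h3, hpq, sub_self]
    funext j
    have h3 := hvS j pq hmem
    have h4 : ∀ r : Fin n →₀ ℕ, aw b r j = ∑ i, (r i : ℤ) * v j i := by
      intro r
      rw [aw, Finset.sum_apply]
      refine Finset.sum_congr rfl (fun i _ => ?_)
      rw [Pi.smul_apply, nsmul_eq_mul]
    rw [h4, h4, ← sub_eq_zero, ← Finset.sum_sub_distrib, ← h3]
    refine Finset.sum_congr rfl (fun i _ => ?_)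
    rw [← sub_mul]
  obtain ⟨ρ1, hρ1, -, hdeg1'⟩ := exists_extension hx1 hn1 hdeg1 hSR
  have hn1' : Normal ρ1 b := normal_ext hx1 hn1 hdeg1 hSR hρ1
  -- back to the old coordinates
  let ρ' : TAct k d' n := conjAct (affEquiv P hMN).symm ρ1
  have hnorm' : NormalAt ρ' P M b := by
    apply normalAt_of_conj hMN
    simp only [ρ']
    rw [conj_conj_symm]
    exact hn1'
  -- the homomorphism of tori
  let c : Fin d' → Fin d → ℤ := fun j => ∑ i, π j i • a i
  have hac : ∀ i, ∑ j, v j i • c j = a i := by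
    intro i
    funext l
    have h3 := hy (fun i => a i l) (by
        have := congrFun hsum l
        rwa [Finset.sum_apply] at this) (by
        intro pq hpq
        have h4 : ∑ i, ((pq.1 i : ℤ) - (pq.2 i : ℤ)) • a i = 0 := hpq
        have h5 := congrFun h4 l
        rw [Finset.sum_apply] at h5
        exact h5)
    have h4 := congrFun h3 i
    rw [Finset.sum_apply] at h4 ⊢
    rw [h4]
    refine Finset.sum_congr rfl (fun j _ => ?_)
    simp only [c, Pi.smul_apply, Finset.sum_apply, smul_eq_mul]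
    rw [mul_comm]
  have hchi : ∀ t i, chi (b i) (fun j => chi (c j) t) = chi (k := k) (a i) t := by
    intro t i
    rw [← hac i, chi_sum, chi_apply]
    refine Finset.prod_congr rfl (fun j _ => ?_)
    rw [chi_zsmul]
  have hcomp : ∀ t, ρ t = ρ' (fun j => chi (c j) t) := by
    intro t
    apply conj_eq
    exact ext_comp hx1 hn1 hdeg1 hSR hρ1 t _ (hchi t)
  have hbsum : ∑ i, b i = 0 := by
    funext j
    rw [Finset.sum_apply]
    exact hv0 j
  have hvol' : ∀ t : Fin d' → kˣ,
      (Matrix.of fun i j : Fin n => pderiv i (ρ' t (X j))).det = 1 := by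
    intro t
    rw [jac_det (ρ' t) P]
    have h3 := congrArg Matrix.det (hnorm'.lin t)
    rw [Matrix.det_mul, Matrix.det_mul, Matrix.det_diagonal] at h3
    have h4 : (∏ i, chik (k := k) (b i) t) = 1 := by
      have h5 : chik (k := k) (∑ i, b i) t = 1 := by
        rw [hbsum, chik_apply, chi_zero, Units.val_one]
      rw [← h5, chik_apply, chi_sum, Units.coe_prod]
      rfl
    rw [h4, mul_one] at h3
    have h5 : (jacAt (ρ' t) P).det = 1 := by
      have h6 : (jacAt (ρ' t) P).det * M.det = 1 * M.det := by rw [one_mul]; exact h3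
      exact mul_right_cancel₀ hM h6
    rw [h5, C_1]
  have hinj : Function.Injective ρ' := by
    rw [injective_iff_map_eq_one]
    intro s hs
    have h3 := fun i => hnorm'.chi_eq_one hMN hs i
    funext j
    have h4 : (Pi.single j 1 : Fin d' → ℤ) = ∑ i, π j i • b i := by
      funext j'
      rw [Finset.sum_apply]
      have h5 := hπ j j'
      simp only [Pi.smul_apply, smul_eq_mul, b]
      rw [h5]
      by_cases hjj : j = j'
      · subst hjj; simp
      · rw [if_neg hjj, Pi.single_eq_of_ne (Ne.symm hjj)]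
    have h5 : chi (Pi.single j 1 : Fin d' → ℤ) s = s j := by
      rw [chi_apply, Finset.prod_eq_single j]
      · rw [Pi.single_eq_same, zpow_one]
      · intro i _ hi
        rw [Pi.single_eq_of_ne hi, zpow_zero]
      · simp
    rw [Pi.one_apply, ← h5, h4, chi_sum]
    refine Finset.prod_eq_one (fun i _ => ?_)
    rw [chi_zsmul, h3, one_zpow]
  exact ⟨d', ρ', _, c, P, M, b, hd, hρ1.conj _, hvol',
    totalDegree_conj_symm hdeg1' P hMN, hinj, hcomp, hM, hnorm', fun i j => hb j i⟩

end Pool.Agent.H974T
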