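import Pool.Agent.H974T.Act

/-!
# Torus actions of bounded degree: short relations between the weights and extension of the torus
-/

set_option autoImplicit false

open MvPolynomial

namespace Pool.Agent.H974T

variable {k : Type*} [Field k] {d n : ℕ}

/-- the action fixes the origin and its linear part there is diagonal with weights `a` -/
structure Normal (ρ : TAct k d n) (a : Fin n → Fin d → ℤ) : Prop where
  const : ∀ t i, coeff 0 (ρ t (X i)) = 0
  lin : ∀ t i j, coeff (Finsupp.single j 1) (ρ t (X i)) = if i = j then chik (a i) t else 0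

/-- the weight of a monomial -/
def aw (a : Fin n → Fin d → ℤ) (β : Fin n →₀ ℕ) : Fin d → ℤ := ∑ i, β i • a i

theorem aw_zero (a : Fin n → Fin d → ℤ) : aw a 0 = 0 := by simp [aw]

theorem aw_add (a : Fin n → Fin d → ℤ) (β γ : Fin n →₀ ℕ) : aw a (β + γ) = aw a β + aw a γ := by
  simp [aw, add_smul, Finset.sum_add_distrib]

theorem aw_single (a : Fin n → Fin d → ℤ) (i : Fin n) : aw a (Finsupp.single i 1) = a i := by
  classical
  unfold aw
  rw [Finset.sum_eq_single i]
  · simp
  · intro j _ hj
    simp [Ne.symm hj]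
  · simp

theorem degree_eq_one_iff' (β : Fin n →₀ ℕ) (h : β.degree = 1) : ∃ i, β = Finsupp.single i 1 := by
  classical
  have h0 : β ≠ 0 := by
    rintro rfl
    simp at h
  obtain ⟨i, hi⟩ : ∃ i, β i ≠ 0 := by
    by_contra hcon
    push Not at hcon
    exact h0 (Finsupp.ext hcon)
  refine ⟨i, ?_⟩
  have h2 : Finsupp.single i 1 ≤ β := by
    intro j
    rw [Finsupp.single_apply]
    split_ifs with hj
    · subst hj; omega
    · exact Nat.zero_le _
  obtain ⟨γ, rfl⟩ := exists_add_of_le h2
  rw [map_add, Finsupp.degree_single] at h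
  have h3 : γ.degree = 0 := by omega
  rw [Finsupp.degree_eq_zero_iff] at h3
  rw [h3, add_zero]

theorem Normal.sub_mem {ρ : TAct k d n} {a : Fin n → Fin d → ℤ} (h : Normal ρ a) (t : Fin d → kˣ)
    (i : Fin n) : ρ t (X i) - chik (k := k) (a i) t • X i ∈ idealOfVars (Fin n) k ^ 2 := by
  classical
  rw [mem_pow_idealOfVars_iff']
  intro β hβ
  rw [coeff_sub, coeff_smul, coeff_X]
  have h1 : β.degree = 0 ∨ β.degree = 1 := by omega
  rcases h1 with h1 | h1
  · rw [Finsupp.degree_eq_zero_iff] at h1
    subst h1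
    rw [h.const, if_neg]
    · simp
    · intro h2
      have := congrArg Finsupp.degree h2
      simp at this
  · obtain ⟨j, rfl⟩ := degree_eq_one_iff' β h1
    rw [h.lin]
    by_cases hij : i = j
    · subst hij; simp
    · rw [if_neg hij, if_neg]
      · simp
      · intro h2
        exact hij (Finsupp.single_left_injective one_ne_zero h2)

/-- the diagonal linear map attached to the weights -/
noncomputable def diagHom (a : Fin n → Fin d → ℤ) (t : Fin d → kˣ) : PA k n →ₐ[k] PA k n :=
  aeval (fun i => chik (k := k) (a i) t • (X i : PA k n))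

theorem diagHom_monomial (a : Fin n → Fin d → ℤ) (t : Fin d → kˣ) (β : Fin n →₀ ℕ) (c : k) :
    diagHom a t (monomial β c) = chik (k := k) (aw a β) t • monomial β c := by
  unfold diagHom
  rw [aeval_monomial, Finsupp.prod_fintype _ _ (by simp)]
  simp only [smul_pow]
  rw [Finset.prod_smul]
  have h1 : (∏ i, (chik (a i)) t ^ β i : k) = chik (aw a β) t := by
    unfold aw
    rw [chik_apply, chi_sum, Units.coe_prod]
    refine Finset.prod_congr rfl (fun i _ => ?_)
    rw [chi_nsmul, Units.val_pow_eq_pow_val, chik_apply]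
  rw [h1, monomial_eq, Finsupp.prod_fintype _ _ (by simp), mul_smul_comm]
  rfl

theorem coeff_diagHom (a : Fin n → Fin d → ℤ) (t : Fin d → kˣ) (β : Fin n →₀ ℕ) (p : PA k n) :
    coeff β (diagHom a t p) = chik (k := k) (aw a β) t * coeff β p := by
  classical
  induction p using MvPolynomial.induction_on' with
  | monomial γ c =>
    rw [diagHom_monomial, coeff_smul, coeff_monomial, smul_eq_mul]
    split_ifs with h
    · rw [h]
    · simp
  | add p q hp hq => rw [map_add, coeff_add, hp, hq, coeff_add, mul_add]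

theorem diagHom_mem (a : Fin n → Fin d → ℤ) (t : Fin d → kˣ) (N : ℕ) (p : PA k n)
    (hp : p ∈ idealOfVars (Fin n) k ^ N) : diagHom a t p ∈ idealOfVars (Fin n) k ^ N := by
  rw [mem_pow_idealOfVars_iff'] at hp ⊢
  intro β hβ
  rw [coeff_diagHom, hp β hβ, mul_zero]

theorem Normal.monomial_sub_mem {ρ : TAct k d n} {a : Fin n → Fin d → ℤ} (h : Normal ρ a)
    (t : Fin d → kˣ) (β : Fin n →₀ ℕ) :
    ρ t (monomial β 1) ∈ idealOfVars (Fin n) k ^ β.degree ∧
    ρ t (monomial β 1) - diagHom a t (monomial β 1) ∈ idealOfVars (Fin n) k ^ (β.degree + 1) := by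
  classical
  set 𝔪 := idealOfVars (Fin n) k with h𝔪
  induction hN : β.degree generalizing β with
  | zero =>
    rw [Finsupp.degree_eq_zero_iff] at hN
    subst hN
    have h1 : (monomial 0 (1 : k) : PA k n) = 1 := rfl
    rw [h1, map_one, map_one, sub_self]
    simp
  | succ N ih =>
    have h0 : β ≠ 0 := by
      rintro rfl
      simp at hN
    obtain ⟨i, hi⟩ : ∃ i, β i ≠ 0 := by
      by_contra hcon
      push Not at hcon
      exact h0 (Finsupp.ext hcon)
    have h2 : Finsupp.single i 1 ≤ β := by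
      intro j
      rw [Finsupp.single_apply]
      split_ifs with hj
      · subst hj; omega
      · exact Nat.zero_le _
    obtain ⟨γ, rfl⟩ := exists_add_of_le h2
    rw [map_add, Finsupp.degree_single] at hN
    have h3 : γ.degree = N := by omega
    obtain ⟨h4, h5⟩ := ih γ h3
    have h6 : (monomial (Finsupp.single i 1 + γ) (1 : k) : PA k n) = X i * monomial γ 1 := by
      rw [X, monomial_mul, one_mul]
    have h7 : ρ t (X i) ∈ 𝔪 := by
      have e1 := h.sub_mem t i
      have e2 : chik (k := k) (a i) t • (X i : PA k n) ∈ 𝔪 := by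
        rw [smul_eq_C_mul]
        exact Ideal.mul_mem_left _ _ (Ideal.subset_span ⟨i, rfl⟩)
      have e3 : ρ t (X i) - chik (k := k) (a i) t • X i ∈ 𝔪 := Ideal.pow_le_self (by norm_num) e1
      have := add_mem e3 e2
      simpa using this
    rw [h6, map_mul, map_mul]
    constructor
    · rw [pow_succ']
      exact Ideal.mul_mem_mul h7 h4
    · have h8 : diagHom a t (X i) = chik (k := k) (a i) t • (X i : PA k n) := by
        simp [diagHom]
      have h9 : ρ t (X i) * ρ t (monomial γ 1) - diagHom a t (X i) * diagHom a t (monomial γ 1) =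
          (ρ t (X i) - chik (k := k) (a i) t • X i) * ρ t (monomial γ 1) +
          (chik (k := k) (a i) t • X i) * (ρ t (monomial γ 1) - diagHom a t (monomial γ 1)) := by
        rw [h8]; ring
      rw [h9]
      refine add_mem ?_ ?_
      · have e1 : 𝔪 ^ (N + 1 + 1) = 𝔪 ^ 2 * 𝔪 ^ N := by rw [← pow_add]; congr 1; omega
        rw [e1]
        exact Ideal.mul_mem_mul (h.sub_mem t i) h4
      · rw [pow_succ']
        refine Ideal.mul_mem_mul ?_ h5
        rw [smul_eq_C_mul]
        exact Ideal.mul_mem_left _ _ (Ideal.subset_span ⟨i, rfl⟩)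

theorem Normal.apply_sub_mem {ρ : TAct k d n} {a : Fin n → Fin d → ℤ} (h : Normal ρ a)
    (t : Fin d → kˣ) (N : ℕ) (p : PA k n) (hp : p ∈ idealOfVars (Fin n) k ^ N) :
    ρ t p - diagHom a t p ∈ idealOfVars (Fin n) k ^ (N + 1) := by
  classical
  rw [mem_pow_idealOfVars_iff] at hp
  have hs : ρ t p - diagHom a t p = ∑ β ∈ p.support,
      (ρ t (monomial β (coeff β p)) - diagHom a t (monomial β (coeff β p))) := by
    conv_lhs => rw [p.as_sum]
    rw [map_sum, map_sum, ← Finset.sum_sub_distrib]
  rw [hs]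
  refine sum_mem (fun β hβ => ?_)
  have h1 : (monomial β (coeff β p) : PA k n) = C (coeff β p) * monomial β 1 := by
    rw [C_mul_monomial, mul_one]
  rw [h1, map_mul, map_mul]
  have h2 : ρ t (C (coeff β p)) = C (coeff β p) := (ρ t).commutes _
  have h3 : diagHom a t (C (coeff β p)) = C (coeff β p) := (diagHom a t).commutes _
  rw [h2, h3, ← mul_sub]
  exact Ideal.mul_mem_left _ _ (Ideal.pow_le_pow_right (by have := hp β hβ; omega)
    (h.monomial_sub_mem t β).2)

theorem Normal.apply_mem {ρ : TAct k d n} {a : Fin n → Fin d → ℤ} (h : Normal ρ a)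
    (t : Fin d → kˣ) (N : ℕ) (p : PA k n) (hp : p ∈ idealOfVars (Fin n) k ^ N) :
    ρ t p ∈ idealOfVars (Fin n) k ^ N := by
  have h1 := Ideal.pow_le_pow_right (Nat.le_succ N) (h.apply_sub_mem t N p hp)
  have h2 := add_mem h1 (diagHom_mem a t N p hp)
  simpa using h2

/-- the weight of a nonzero semi-invariant is the weight of a monomial of it -/
theorem Normal.exists_weight [Infinite k] {ρ : TAct k d n} {a : Fin n → Fin d → ℤ}
    (h : Normal ρ a) {e : Fin d → ℤ} {w : PA k n} (hw : IsWt ρ e w) (h0 : w ≠ 0) :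
    ∃ β ∈ w.support, aw a β = e ∧ w ∈ idealOfVars (Fin n) k ^ β.degree := by
  classical
  -- the order of `w`
  obtain ⟨β, hβ, hmin⟩ := Finset.exists_min_image w.support Finsupp.degree
    (MvPolynomial.support_nonempty.2 h0)
  have h1 : w ∈ idealOfVars (Fin n) k ^ β.degree := by
    rw [mem_pow_idealOfVars_iff]
    exact hmin
  refine ⟨β, hβ, ?_, h1⟩
  apply chik_injective (k := k)
  refine DFunLike.ext _ _ (fun t => ?_)
  have h2 := h.apply_sub_mem t _ w h1
  rw [mem_pow_idealOfVars_iff'] at h2
  have h3 := h2 β (Nat.lt_succ_self _)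
  rw [hw t, coeff_sub, coeff_smul, coeff_diagHom, smul_eq_mul, ← sub_mul] at h3
  rcases mul_eq_zero.1 h3 with h4 | h4
  · exact (sub_eq_zero.1 h4).symm
  · exact absurd h4 (mem_support_iff.1 hβ)

theorem degree_le_totalDegree {p : PA k n} {β : Fin n →₀ ℕ} (h : β ∈ p.support) :
    β.degree ≤ p.totalDegree := by
  exact le_totalDegree h

theorem totalDegree_le_of {p : PA k n} {D : ℕ} (h : ∀ β ∈ p.support, β.degree ≤ D) :
    p.totalDegree ≤ D := by
  refine Finset.sup_le (fun β hβ => ?_)
  exact h β hβ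

theorem Rep.coeff_eq_zero [Infinite k] {ρ : TAct k d n} {x : Fin n → LL k n d} (h : Rep ρ x)
    (i : Fin n) (β : Fin n →₀ ℕ) (h0 : ∀ t, coeff β (ρ t (X i)) = 0) (e : Fin d → ℤ) :
    coeff β ((x i).coeff e) = 0 := by
  have h1 : (x i).coeff.mapRange (fun p : PA k n => coeff β p) (coeff_zero β) = 0 := by
    apply laurent_eq_zero (k := k)
    intro t
    rw [Finsupp.sum_mapRange_index (by simp), ← h0 t, h, ev_apply, Finsupp.sum, Finsupp.sum,
      coeff_sum]
    refine Finset.sum_congr rfl (fun e _ => ?_)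
    rw [coeff_smul]
  have h2 := DFunLike.congr_fun h1 e
  rw [Finsupp.mapRange_apply] at h2
  exact h2

theorem Rep.totalDegree_coeff [Infinite k] {ρ : TAct k d n} {x : Fin n → LL k n d} (h : Rep ρ x)
    {D : ℕ} (hD : ∀ t j, (ρ t (X j)).totalDegree ≤ D) (i : Fin n) (e : Fin d → ℤ) :
    ((x i).coeff e).totalDegree ≤ D := by
  refine totalDegree_le_of (fun β hβ => ?_)
  by_contra hcon
  push Not at hcon
  refine mem_support_iff.1 hβ (h.coeff_eq_zero i β (fun t => ?_) e)
  by_contra hne
  have := (degree_le_totalDegree (mem_support_iff.2 hne)).trans (hD t i)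
  omega

theorem Rep.coeff_zero_coeff [Infinite k] {ρ : TAct k d n} {x : Fin n → LL k n d} (h : Rep ρ x)
    {a : Fin n → Fin d → ℤ} (hn : Normal ρ a) (i : Fin n) (e : Fin d → ℤ) :
    coeff 0 ((x i).coeff e) = 0 :=
  h.coeff_eq_zero i 0 (fun t => hn.const t i) e

theorem Rep.coeff_single_coeff [Infinite k] {ρ : TAct k d n} {x : Fin n → LL k n d} (h : Rep ρ x)
    {a : Fin n → Fin d → ℤ} (hn : Normal ρ a) (i j : Fin n) (e : Fin d → ℤ) :
    coeff (Finsupp.single j 1) ((x i).coeff e) = if i = j ∧ e = a i then 1 else 0 := by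
  classical
  have h1 : (x i).coeff.mapRange (fun p : PA k n => coeff (Finsupp.single j 1) p)
      (coeff_zero _) - (Finsupp.single (a i) (if i = j then (1 : k) else 0)) = 0 := by
    apply laurent_eq_zero (k := k)
    intro t
    rw [Finsupp.sum_sub_index (by intros; rw [smul_sub]), Finsupp.sum_single_index (by simp),
      Finsupp.sum_mapRange_index (by simp)]
    have h2 := hn.lin t i j
    rw [h, ev_apply, Finsupp.sum, coeff_sum] at h2
    simp only [coeff_smul] at h2
    rw [Finsupp.sum, h2]
    split_ifs <;> simp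
  have h2 := DFunLike.congr_fun h1 e
  rw [Finsupp.sub_apply, Finsupp.mapRange_apply, Finsupp.zero_apply, Finsupp.single_apply,
    sub_eq_zero] at h2
  rw [h2]
  by_cases h4 : a i = e
  · rw [if_pos h4]
    by_cases h3 : i = j
    · rw [if_pos h3, if_pos ⟨h3, h4.symm⟩]
    · rw [if_neg h3, if_neg (fun h5 => h3 h5.1)]
  · rw [if_neg h4, if_neg (fun h5 => h4 h5.2.symm)]

end Pool.Agent.H974T
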