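import Pool.Agent.H974T.Ext

/-!
# Extension of a torus action of bounded degree to a larger torus

If `b` satisfies all the short relations between the weights `a` of an action of degree at most
`D`, then there is an action of a torus with the weights `b`, by automorphisms of degree at most
`D`, with the same semi-invariants.
-/

set_option autoImplicit false

open MvPolynomial

namespace Pool.Agent.H974T

variable {k : Type*} [Field k] {d d' n : ℕ}

/-- The family `b` satisfies all relations `∑ p_i a_i = ∑ q_i a_i`, `|p|, |q| ≤ N`, of the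
family `a`. -/
def ShortRel (N : ℕ) (a : Fin n → Fin d → ℤ) (b : Fin n → Fin d' → ℤ) : Prop :=
  ∀ p q : Fin n →₀ ℕ, p.degree ≤ N → q.degree ≤ N → aw a p = aw a q → aw b p = aw b q

open Classical in
/-- transfer of weights -/
noncomputable def tau (N : ℕ) (a : Fin n → Fin d → ℤ) (b : Fin n → Fin d' → ℤ) (e : Fin d → ℤ) :
    Fin d' → ℤ :=
  if h : ∃ p : Fin n →₀ ℕ, p.degree ≤ N ∧ aw a p = e then aw b h.choose else 0

theorem tau_aw {N : ℕ} {a : Fin n → Fin d → ℤ} {b : Fin n → Fin d' → ℤ} (h : ShortRel N a b)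
    (p : Fin n →₀ ℕ) (hp : p.degree ≤ N) : tau N a b (aw a p) = aw b p := by
  have h1 : ∃ q : Fin n →₀ ℕ, q.degree ≤ N ∧ aw a q = aw a p := ⟨p, hp, rfl⟩
  rw [tau, dif_pos h1]
  exact h _ _ h1.choose_spec.1 hp h1.choose_spec.2

/-- the exponents of `u` are weights of monomials of degree at most `N` -/
def Supp (a : Fin n → Fin d → ℤ) (N : ℕ) (u : LL k n d) : Prop :=
  ∀ e, u.coeff e ≠ 0 → ∃ p : Fin n →₀ ℕ, p.degree ≤ N ∧ aw a p = e

theorem Supp.mono {a : Fin n → Fin d → ℤ} {N M : ℕ} {u : LL k n d} (h : Supp a N u)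
    (hNM : N ≤ M) : Supp a M u := fun e he => by
  obtain ⟨p, hp, h1⟩ := h e he
  exact ⟨p, hp.trans hNM, h1⟩

theorem mul_eq_sum (u v : LL k n d) : u * v = ∑ a ∈ u.coeff.support, ∑ b ∈ v.coeff.support,
      AddMonoidAlgebra.single (a + b) (u.coeff a * v.coeff b) := by
  classical
  conv_lhs => rw [← AddMonoidAlgebra.sum_coeff_single u, ← AddMonoidAlgebra.sum_coeff_single v]
  rw [Finsupp.sum, Finsupp.sum, Finset.sum_mul_sum]
  simp [AddMonoidAlgebra.single_mul_single]

theorem Supp.mul {a : Fin n → Fin d → ℤ} {N M : ℕ} {u v : LL k n d} (hu : Supp a N u)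
    (hv : Supp a M v) : Supp a (N + M) (u * v) := by
  classical
  intro e he
  rw [mul_eq_sum, AddMonoidAlgebra.coeff_sum, Finsupp.finsetSum_apply] at he
  obtain ⟨e1, h1, he1⟩ := Finset.exists_ne_zero_of_sum_ne_zero he
  rw [AddMonoidAlgebra.coeff_sum, Finsupp.finsetSum_apply] at he1
  obtain ⟨e2, h2, he2⟩ := Finset.exists_ne_zero_of_sum_ne_zero he1
  rw [AddMonoidAlgebra.coeff_single, Finsupp.single_apply] at he2
  split_ifs at he2 with h3
  · obtain ⟨p, hp, h4⟩ := hu e1 (Finsupp.mem_support_iff.1 h1)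
    obtain ⟨q, hq, h5⟩ := hv e2 (Finsupp.mem_support_iff.1 h2)
    refine ⟨p + q, ?_, ?_⟩
    · rw [map_add]; omega
    · rw [aw_add, h4, h5, h3]
  · exact absurd rfl he2

theorem Supp.one {a : Fin n → Fin d → ℤ} : Supp a 0 (1 : LL k n d) := by
  classical
  intro e he
  rw [AddMonoidAlgebra.one_def, AddMonoidAlgebra.coeff_single, Finsupp.single_apply] at he
  split_ifs at he with h
  · exact ⟨0, by simp, by rw [aw_zero, h]⟩
  · exact absurd rfl he

theorem mapDomain_mul_of_supp {N M L : ℕ} {a : Fin n → Fin d → ℤ} {b : Fin n → Fin d' → ℤ}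
    (h : ShortRel L a b) (hL : N + M ≤ L) {u v : LL k n d} (hu : Supp a N u) (hv : Supp a M v) :
    AddMonoidAlgebra.mapDomain (tau L a b) (u * v) =
      AddMonoidAlgebra.mapDomain (tau L a b) u * AddMonoidAlgebra.mapDomain (tau L a b) v := by
  classical
  have hmap : ∀ w : LL k n d, AddMonoidAlgebra.mapDomain (tau L a b) w =
      ∑ e ∈ w.coeff.support, AddMonoidAlgebra.single (tau L a b e) (w.coeff e) := by
    intro w
    conv_lhs => rw [← AddMonoidAlgebra.sum_coeff_single w]
    rw [AddMonoidAlgebra.mapDomain_sum, Finsupp.sum]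
    simp [AddMonoidAlgebra.mapDomain_single]
  have hadd : ∀ {ι : Type} (s : Finset ι) (f : ι → LL k n d),
      AddMonoidAlgebra.mapDomain (tau L a b) (∑ i ∈ s, f i) =
        ∑ i ∈ s, AddMonoidAlgebra.mapDomain (tau L a b) (f i) := by
    intro ι s f
    induction s using Finset.induction_on with
    | empty => simp
    | insert i s hi ih => rw [Finset.sum_insert hi, Finset.sum_insert hi,
        AddMonoidAlgebra.mapDomain_add, ih]
  rw [mul_eq_sum, hadd, hmap u, hmap v, Finset.sum_mul_sum]
  refine Finset.sum_congr rfl (fun e1 h1 => ?_)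
  rw [hadd]
  refine Finset.sum_congr rfl (fun e2 h2 => ?_)
  rw [AddMonoidAlgebra.mapDomain_single, AddMonoidAlgebra.single_mul_single]
  obtain ⟨p, hp, h4⟩ := hu e1 (Finsupp.mem_support_iff.1 h1)
  obtain ⟨q, hq, h5⟩ := hv e2 (Finsupp.mem_support_iff.1 h2)
  rw [← h4, ← h5, ← aw_add, tau_aw h, tau_aw h, tau_aw h, aw_add]
  · omega
  · omega
  · rw [map_add]; omega

/-- transfer of a representation -/
noncomputable def ext (L : ℕ) (a : Fin n → Fin d → ℤ) (b : Fin n → Fin d' → ℤ)
    (x : Fin n → LL k n d) (i : Fin n) : LL k n d' :=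
  AddMonoidAlgebra.mapDomain (tau L a b) (x i)

theorem aeval_monomial_supp {D : ℕ} {a : Fin n → Fin d → ℤ} {b : Fin n → Fin d' → ℤ} {L : ℕ}
    (h : ShortRel L a b) {x : Fin n → LL k n d} (hx : ∀ i, Supp a D (x i))
    (β : Fin n →₀ ℕ) (hβ : β.degree * D ≤ L) :
    Supp a (β.degree * D) (aeval x (monomial β (1 : k))) ∧
    aeval (ext L a b x) (monomial β (1 : k)) =
      AddMonoidAlgebra.mapDomain (tau L a b) (aeval x (monomial β (1 : k))) := by
  classical
  induction hN : β.degree generalizing β with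
  | zero =>
    rw [Finsupp.degree_eq_zero_iff] at hN
    subst hN
    have h1 : (monomial 0 (1 : k) : PA k n) = 1 := rfl
    rw [h1, map_one, map_one]
    refine ⟨by simpa using Supp.one, ?_⟩
    have h2 := tau_aw h (0 : Fin n →₀ ℕ) (by simp)
    rw [aw_zero, aw_zero] at h2
    rw [show (1 : LL k n d) = AddMonoidAlgebra.single 0 1 from AddMonoidAlgebra.one_def,
      AddMonoidAlgebra.mapDomain_single, h2]
    rfl
  | succ N ih =>
    have h0 : β ≠ 0 := by
      rintro rfl
      simp at hN
    obtain ⟨i, hi⟩ : ∃ i, β i ≠ 0 := by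
      by_contra hcon
      push Not at hcon
      exact h0 (Finsupp.ext hcon)
    have h2 : Finsupp.single i 1 ≤ β := by
      intro j
      rw [Finsupp.single_apply]
      split_ifs with hj
      · subst hj; omega
      · exact Nat.zero_le _
    obtain ⟨γ, rfl⟩ := exists_add_of_le h2
    rw [map_add, Finsupp.degree_single] at hN hβ
    have h3 : γ.degree = N := by omega
    have hle : N * D + D ≤ L := by
      have : (1 + γ.degree) * D = N * D + D := by rw [h3]; ring
      omega
    obtain ⟨h4, h5⟩ := ih γ (by rw [h3]; omega) h3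
    have h6 : (monomial (Finsupp.single i 1 + γ) (1 : k) : PA k n) = monomial γ 1 * X i := by
      rw [X, monomial_mul, one_mul, add_comm]
    rw [h6, map_mul, map_mul, aeval_X, aeval_X]
    constructor
    · have := h4.mul (hx i)
      rwa [show (N + 1) * D = N * D + D by ring]
    · rw [h5, ext, ← mapDomain_mul_of_supp h hle h4 (hx i)]

theorem aeval_ext {D : ℕ} {a : Fin n → Fin d → ℤ} {b : Fin n → Fin d' → ℤ} {L : ℕ}
    (h : ShortRel L a b) {x : Fin n → LL k n d} (hx : ∀ i, Supp a D (x i))
    (p : PA k n) (hp : ∀ β ∈ p.support, β.degree * D ≤ L) :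
    aeval (ext L a b x) p = AddMonoidAlgebra.mapDomain (tau L a b) (aeval x p) := by
  classical
  have hadd : ∀ {ι : Type} (s : Finset ι) (f : ι → LL k n d),
      AddMonoidAlgebra.mapDomain (tau L a b) (∑ i ∈ s, f i) =
        ∑ i ∈ s, AddMonoidAlgebra.mapDomain (tau L a b) (f i) := by
    intro ι s f
    induction s using Finset.induction_on with
    | empty => simp
    | insert i s hi ih => rw [Finset.sum_insert hi, Finset.sum_insert hi,
        AddMonoidAlgebra.mapDomain_add, ih]
  have hsmul : ∀ (c : k) (u : LL k n d), AddMonoidAlgebra.mapDomain (tau L a b) (c • u) =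
      c • AddMonoidAlgebra.mapDomain (tau L a b) u := by
    intro c u
    apply AddMonoidAlgebra.coeff_injective
    change Finsupp.mapDomain (tau L a b) (c • u.coeff) = c • Finsupp.mapDomain (tau L a b) u.coeff
    rw [Finsupp.mapDomain_smul]
  have h1 : p = ∑ β ∈ p.support, coeff β p • monomial β (1 : k) := by
    conv_lhs => rw [p.as_sum]
    refine Finset.sum_congr rfl (fun β _ => ?_)
    rw [smul_monomial, smul_eq_mul, mul_one]
  conv_lhs => rw [h1]
  conv_rhs => rw [h1]
  rw [map_sum, map_sum, hadd]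
  refine Finset.sum_congr rfl (fun β hβ => ?_)
  rw [map_smul, map_smul, hsmul, (aeval_monomial_supp h hx β (hp β hβ)).2]

/-- an action from a multiplicative family of algebra homomorphisms -/
noncomputable def mkAct (R : (Fin d → kˣ) → (PA k n →ₐ[k] PA k n)) (h1 : R 1 = AlgHom.id k _)
    (hmul : ∀ s s', R (s * s') = (R s).comp (R s')) : TAct k d n where
  toFun s := AlgEquiv.ofAlgHom (R s) (R s⁻¹)
    (by rw [← hmul, mul_inv_cancel, h1]) (by rw [← hmul, inv_mul_cancel, h1])
  map_one' := by
    ext1 i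
    change R 1 i = i
    rw [h1]; rfl
  map_mul' s s' := by
    ext1 i
    change R (s * s') i = R s (R s' i)
    rw [hmul]; rfl

theorem mkAct_apply (R : (Fin d → kˣ) → (PA k n →ₐ[k] PA k n)) (h1 : R 1 = AlgHom.id k _)
    (hmul : ∀ s s', R (s * s') = (R s).comp (R s')) (s : Fin d → kˣ) (p : PA k n) :
    mkAct R h1 hmul s p = R s p := rfl

theorem ev_mapDomain (s : Fin d' → kˣ) (f : (Fin d → ℤ) → (Fin d' → ℤ)) (u : LL k n d) :
    ev n s (AddMonoidAlgebra.mapDomain f u) =
      u.coeff.sum (fun e v => chik (k := k) (f e) s • v) := by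
  rw [ev_apply]
  change (Finsupp.mapDomain f u.coeff).sum _ = _
  rw [Finsupp.sum_mapDomain_index (by simp) (by intros; rw [smul_add])]

/-- **Extension theorem.** Let `ρ` be an action of degree at most `D` which fixes the origin, with
diagonal linear part with weights `a`. If `b` satisfies the short relations between the weights
`a`, then there is an action of degree at most `D` with the weights `b`, given by the same
homogeneous components. -/
theorem exists_extension [Infinite k] {D : ℕ} {ρ : TAct k d n} {x : Fin n → LL k n d}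
    (hx : Rep ρ x) {a : Fin n → Fin d → ℤ} (hn : Normal ρ a)
    (hD : ∀ t j, (ρ t (X j)).totalDegree ≤ D) {b : Fin n → Fin d' → ℤ}
    (h : ShortRel (D ^ 2) a b) :
    ∃ ρ' : TAct k d' n, Rep ρ' (ext (D ^ 2) a b x) ∧
      (∀ i e, IsWt ρ' (tau (D ^ 2) a b e) ((x i).coeff e)) ∧
      (∀ s j, (ρ' s (X j)).totalDegree ≤ D) := by
  classical
  have hdeg := fun i e => hx.totalDegree_coeff hD i e
  have hsupp : ∀ i, Supp a D (x i) := by
    intro i e he
    obtain ⟨β, hβ, h1, -⟩ := hn.exists_weight (hx.isWt_coeff i e) he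
    exact ⟨β, (degree_le_totalDegree hβ).trans (hdeg i e), h1⟩
  -- the algebra homomorphisms
  let R : (Fin d' → kˣ) → (PA k n →ₐ[k] PA k n) := fun s =>
    (ev n s).comp (aeval (ext (D ^ 2) a b x))
  have hRX : ∀ s i, R s (X i) = (x i).coeff.sum
      (fun e v => chik (k := k) (tau (D ^ 2) a b e) s • v) := by
    intro s i
    simp only [R, AlgHom.comp_apply, aeval_X]
    exact ev_mapDomain s _ _
  have hRw : ∀ s i e, R s ((x i).coeff e) =
      chik (k := k) (tau (D ^ 2) a b e) s • (x i).coeff e := by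
    intro s i e
    simp only [R, AlgHom.comp_apply]
    rw [aeval_ext h hsupp, hx.wt (hx.isWt_coeff i e), AddMonoidAlgebra.mapDomain_single, ev_single]
    intro β hβ
    have h1 := (degree_le_totalDegree hβ).trans (hdeg i e)
    calc β.degree * D ≤ D * D := Nat.mul_le_mul_right D h1
      _ = D ^ 2 := by ring
  have hR1 : R 1 = AlgHom.id k _ := by
    apply MvPolynomial.algHom_ext
    intro i
    rw [hRX, AlgHom.id_apply, ← hx.sum_coeff i]
    refine Finset.sum_congr rfl (fun e _ => ?_)
    simp
  have hRmul : ∀ s s', R (s * s') = (R s).comp (R s') := by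
    intro s s'
    apply MvPolynomial.algHom_ext
    intro i
    have h2 : R s (R s' (X i)) = R (s * s') (X i) := by
      rw [hRX, hRX, Finsupp.sum, Finsupp.sum, map_sum]
      refine Finset.sum_congr rfl (fun e _ => ?_)
      rw [map_smul, hRw, map_mul, smul_smul, mul_comm]
    exact h2.symm
  refine ⟨mkAct R hR1 hRmul, fun s i => ?_, fun i e s => ?_, fun s j => ?_⟩
  · rw [mkAct_apply]
    simp only [R, AlgHom.comp_apply, aeval_X]
  · rw [mkAct_apply, hRw]
  · rw [mkAct_apply, hRX]
    refine totalDegree_le_of (fun β hβ => ?_)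
    by_contra hcon
    push Not at hcon
    rw [mem_support_iff, Finsupp.sum, coeff_sum] at hβ
    obtain ⟨e, -, he⟩ := Finset.exists_ne_zero_of_sum_ne_zero hβ
    rw [coeff_smul] at he
    have h1 : β ∈ ((x j).coeff e).support := by
      rw [mem_support_iff]
      intro h0
      apply he
      rw [h0, smul_zero]
    have := (degree_le_totalDegree h1).trans (hdeg j e)
    omega

end Pool.Agent.H974T
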