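import Pool.Agent.H974T.Diag

/-!
# Torus actions whose nonlinear terms have degrees between `s + 1` and `2 s`
-/

set_option autoImplicit false

open MvPolynomial

namespace Pool.Agent.H974T

variable {k : Type*} [Field k] {d n : ℕ}

/-- if two substitutions agree up to order `s + 1` then they agree up to order `N + s` on
polynomials of order `N` -/
theorem sub_mem_pow (f g : PA k n →ₐ[k] PA k n) (s : ℕ)
    (hg : ∀ i, g (X i) ∈ idealOfVars (Fin n) k)
    (hfg : ∀ i, f (X i) - g (X i) ∈ idealOfVars (Fin n) k ^ (s + 1)) (N : ℕ)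
    (p : PA k n) (hp : p ∈ idealOfVars (Fin n) k ^ N) :
    f p - g p ∈ idealOfVars (Fin n) k ^ (N + s) := by
  classical
  set 𝔪 := idealOfVars (Fin n) k with h𝔪
  have hf : ∀ i, f (X i) ∈ 𝔪 := by
    intro i
    have h1 : f (X i) - g (X i) ∈ 𝔪 := Ideal.pow_le_self (Nat.succ_ne_zero s) (hfg i)
    have h2 := add_mem h1 (hg i)
    simpa using h2
  have hmon : ∀ N (β : Fin n →₀ ℕ), β.degree = N → f (monomial β 1) ∈ 𝔪 ^ N ∧
      g (monomial β 1) ∈ 𝔪 ^ N ∧ f (monomial β 1) - g (monomial β 1) ∈ 𝔪 ^ (N + s) := by
    intro N
    induction N with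
    | zero =>
      intro β hβ
      rw [Finsupp.degree_eq_zero_iff] at hβ
      subst hβ
      have h1 : (monomial 0 (1 : k) : PA k n) = 1 := rfl
      rw [h1, map_one, map_one, sub_self]
      simp
    | succ N ih =>
      intro β hN
      have h0 : β ≠ 0 := by
        rintro rfl
        simp at hN
      obtain ⟨i, hi⟩ : ∃ i, β i ≠ 0 := by
        by_contra hcon
        push Not at hcon
        exact h0 (Finsupp.ext hcon)
      have h2 : Finsupp.single i 1 ≤ β := by
        intro j
        rw [Finsupp.single_apply]
        split_ifs with hj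
        · subst hj; omega
        · exact Nat.zero_le _
      obtain ⟨γ, rfl⟩ := exists_add_of_le h2
      rw [map_add, Finsupp.degree_single] at hN
      have h3 : γ.degree = N := by omega
      obtain ⟨h4, h5, h6⟩ := ih γ h3
      have h7 : (monomial (Finsupp.single i 1 + γ) (1 : k) : PA k n) = X i * monomial γ 1 := by
        rw [X, monomial_mul, one_mul]
      rw [h7, map_mul, map_mul]
      refine ⟨?_, ?_, ?_⟩
      · rw [pow_succ']
        exact Ideal.mul_mem_mul (hf i) h4
      · rw [pow_succ']
        exact Ideal.mul_mem_mul (hg i) h5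
      · have h9 : f (X i) * f (monomial γ 1) - g (X i) * g (monomial γ 1) =
            (f (X i) - g (X i)) * f (monomial γ 1) +
            g (X i) * (f (monomial γ 1) - g (monomial γ 1)) := by
          ring
        rw [h9]
        refine add_mem ?_ ?_
        · have e1 : N + 1 + s = (s + 1) + N := by omega
          rw [e1, pow_add]
          exact Ideal.mul_mem_mul (hfg i) h4
        · have e1 : N + 1 + s = 1 + (N + s) := by omega
          rw [e1, pow_add, pow_one]
          exact Ideal.mul_mem_mul (hg i) h6
  rw [mem_pow_idealOfVars_iff] at hp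
  have hs : f p - g p = ∑ β ∈ p.support,
      (f (monomial β (coeff β p)) - g (monomial β (coeff β p))) := by
    conv_lhs => rw [p.as_sum]
    rw [map_sum, map_sum, ← Finset.sum_sub_distrib]
  rw [hs]
  refine sum_mem (fun β hβ => ?_)
  have h1 : (monomial β (coeff β p) : PA k n) = C (coeff β p) * monomial β 1 := by
    rw [C_mul_monomial, mul_one]
  rw [h1, map_mul, map_mul, algHom_C, algHom_C, ← mul_sub]
  exact Ideal.mul_mem_left _ _ (Ideal.pow_le_pow_right (by have := hp β hβ; omega)
    (hmon _ β rfl).2.2)

/-- all monomials have degree between `s + 1` and `2 s` -/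
def Mid (s : ℕ) (p : PA k n) : Prop := ∀ β ∈ p.support, s + 1 ≤ β.degree ∧ β.degree ≤ 2 * s

/-- the substitution `X_i ↦ X_i + V_i` -/
noncomputable def thet (V : Fin n → PA k n) : PA k n →ₐ[k] PA k n := aeval (fun i => X i + V i)

theorem thet_X (V : Fin n → PA k n) (i : Fin n) : thet V (X i) = X i + V i := by
  rw [thet, aeval_X]

theorem thet_zero : thet (0 : Fin n → PA k n) = AlgHom.id k _ := by
  apply MvPolynomial.algHom_ext
  intro i
  rw [thet_X]; simp

theorem thet_comp (V V' : Fin n → PA k n) (h : ∀ i, thet V (V' i) = V' i) :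
    (thet V).comp (thet V') = thet (V + V') := by
  apply MvPolynomial.algHom_ext
  intro i
  rw [AlgHom.comp_apply, thet_X, thet_X, map_add, thet_X, h, Pi.add_apply, add_assoc]

/-- if `Q(X + m V) = Q(X)` for all natural numbers `m` then `Q(X + c V) = Q(X)` for all `c` -/
theorem thet_smul [CharZero k] (V : Fin n → PA k n) (Q : PA k n)
    (h : ∀ m : ℕ, thet (m • V) Q = Q) (c : k) : thet (c • V) Q = Q := by
  classical
  let Θ : PA k n →ₐ[k] Polynomial (PA k n) :=
    aeval (fun i => Polynomial.C (X i) + Polynomial.C (V i) * Polynomial.X)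
  have hΘ : ∀ c : k, ∀ p : PA k n, Polynomial.eval (C c) (Θ p) = thet (c • V) p := by
    intro c p
    have h1 : (Polynomial.evalRingHom (C c : PA k n)).comp Θ.toRingHom =
        (thet (c • V)).toRingHom := by
      apply MvPolynomial.ringHom_ext
      · intro r
        change Polynomial.eval (C c) (Θ (C r)) = thet (c • V) (C r)
        rw [algHom_C, algHom_C]
        simp [Polynomial.algebraMap_apply]
      · intro i
        change Polynomial.eval (C c) (Θ (X i)) = thet (c • V) (X i)
        simp only [Θ]
        rw [aeval_X, thet_X]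
        simp only [Polynomial.eval_add, Polynomial.eval_mul, Polynomial.eval_C,
          Polynomial.eval_X, Pi.smul_apply, smul_eq_C_mul]
        ring
    exact DFunLike.congr_fun h1 p
  have h0 : Θ Q - Polynomial.C Q = 0 := by
    apply Polynomial.eq_zero_of_infinite_isRoot
    apply Set.infinite_of_injective_forall_mem (f := fun m : ℕ => (C (m : k) : PA k n))
    · intro m m' hmm
      have h1 := C_injective (Fin n) k hmm
      exact_mod_cast h1
    · intro m
      change Polynomial.IsRoot _ _
      rw [Polynomial.IsRoot, Polynomial.eval_sub, Polynomial.eval_C, hΘ, sub_eq_zero]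
      have h2 := h m
      have h3 : ((m : k) • V) = m • V := by
        funext i
        rw [Pi.smul_apply, Pi.smul_apply, Nat.cast_smul_eq_nsmul]
      rw [h3, h2]
  rw [← hΘ, sub_eq_zero.1 h0, Polynomial.eval_C]

/-- **Gap theorem, normalized form.** -/
theorem diagWith_of_gap [IsAlgClosed k] [CharZero k] {ρ : TAct k d n}
    {x : Fin n → LL k n d} (hx : Rep ρ x) {a : Fin n → Fin d → ℤ} (hn : Normal ρ a) (s : ℕ)
    (hgap : ∀ t i, ∀ β ∈ (ρ t (X i)).support, β.degree ≤ 1 ∨
      (s + 1 ≤ β.degree ∧ β.degree ≤ 2 * s)) : DiagWith ρ a := by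
  classical
  have hinf : Infinite k := IsAlgClosed.instInfinite
  -- the support of the components
  have hsupp : ∀ i e, ∀ β ∈ ((x i).coeff e).support, β.degree = 1 ∨
      (s + 1 ≤ β.degree ∧ β.degree ≤ 2 * s) := by
    intro i e β hβ
    by_contra hcon
    push Not at hcon
    refine mem_support_iff.1 hβ (hx.coeff_eq_zero i β (fun t => ?_) e)
    by_contra hne
    rcases hgap t i β (mem_support_iff.2 hne) with h1 | h1
    · have h2 : β.degree = 0 := by
        have := hcon.1
        omega
      rw [Finsupp.degree_eq_zero_iff] at h2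
      subst h2
      exact hne (hn.const t i)
    · exact absurd h1.2 (not_le.2 (hcon.2 h1.1))
  have hmid : ∀ i e, e ≠ a i → Mid s ((x i).coeff e) := by
    intro i e he β hβ
    rcases hsupp i e β hβ with h1 | h1
    · exfalso
      obtain ⟨j, rfl⟩ := degree_eq_one_iff' β h1
      have h2 := hx.coeff_single_coeff hn i j e
      rw [if_neg (fun h3 => he h3.2)] at h2
      exact mem_support_iff.1 hβ h2
    · exact h1
  -- `Q` is a semi-invariant of the linear part
  have hsub : ∀ t i, ρ t (X i) - diagHom a t (X i) ∈ idealOfVars (Fin n) k ^ (s + 1) := by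
    intro t i
    rw [mem_pow_idealOfVars_iff']
    intro β hβ
    rw [coeff_sub, coeff_diagHom, coeff_X]
    by_cases h1 : β.degree = 0
    · rw [Finsupp.degree_eq_zero_iff] at h1
      subst h1
      rw [hn.const, if_neg]
      · simp
      · intro h2
        have := congrArg Finsupp.degree h2
        simp at this
    · by_cases h2 : β.degree = 1
      · obtain ⟨j, rfl⟩ := degree_eq_one_iff' β h2
        rw [hn.lin]
        by_cases hij : i = j
        · subst hij
          simp [aw_single]
        · rw [if_neg hij, if_neg]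
          · simp
          · intro h3
            exact hij (Finsupp.single_left_injective one_ne_zero h3)
      · have h3 : coeff β (ρ t (X i)) = 0 := by
          by_contra hne
          rcases hgap t i β (mem_support_iff.2 hne) with h4 | h4
          · omega
          · omega
        rw [h3, if_neg]
        · simp
        · intro h4
          apply h2
          rw [← h4, Finsupp.degree_single]
  have hdiag : ∀ i e, e ≠ a i → ∀ t, diagHom a t ((x i).coeff e) =
      chik (k := k) e t • (x i).coeff e := by
    intro i e he t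
    have h1 := hmid i e he
    by_cases hs : s = 0
    · have h2 : (x i).coeff e = 0 := by
        rw [← support_eq_empty, Finset.eq_empty_iff_forall_notMem]
        intro β hβ
        have := h1 β hβ
        omega
      rw [h2, map_zero, smul_zero]
    have h2 : (x i).coeff e ∈ idealOfVars (Fin n) k ^ (s + 1) := by
      rw [mem_pow_idealOfVars_iff]
      intro β hβ
      exact (h1 β hβ).1
    have h3 := sub_mem_pow (ρ t : PA k n →ₐ[k] PA k n) (diagHom a t) s
      (fun i => by
        rw [diagHom, aeval_X, smul_eq_C_mul]
        exact Ideal.mul_mem_left _ _ (Ideal.subset_span ⟨i, rfl⟩))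
      (fun i => hsub t i) (s + 1) _ h2
    have h4 : ρ t ((x i).coeff e) - diagHom a t ((x i).coeff e) ∈
      idealOfVars (Fin n) k ^ (s + 1 + s) := h3
    rw [hx.isWt_coeff i e t, mem_pow_idealOfVars_iff'] at h4
    symm
    rw [← sub_eq_zero]
    ext β
    rw [coeff_zero]
    by_cases h5 : β.degree < s + 1 + s
    · exact h4 β h5
    · have h6 : coeff β ((x i).coeff e) = 0 := by
        by_contra hne
        have := (h1 β (mem_support_iff.2 hne)).2
        omega
      rw [coeff_sub, coeff_smul, coeff_diagHom, h6]
      simp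
  -- the space of the nonlinear components
  let Qs : Set (PA k n) := {Q | ∃ i e, e ≠ a i ∧ Q = (x i).coeff e}
  let L0 : Submodule k (PA k n) := Submodule.span k Qs
  have hfixL : ∀ V : Fin n → PA k n, (∀ Q ∈ Qs, thet V Q = Q) → ∀ Q ∈ L0, thet V Q = Q := by
    intro V hV Q hQ
    induction hQ using Submodule.span_induction with
    | mem Q hQ => exact hV Q hQ
    | zero => exact map_zero _
    | add p q _ _ hp hq => rw [map_add, hp, hq]
    | smul c p _ hp => rw [map_smul, hp]
  let S : Submodule k (Fin n → PA k n) :=
    { carrier := {V | (∀ i, V i ∈ L0) ∧ ∀ Q ∈ Qs, thet V Q = Q}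
      zero_mem' := by
        refine ⟨fun i => zero_mem _, fun Q _ => ?_⟩
        rw [thet_zero]; rfl
      add_mem' := by
        rintro V V' ⟨h1, h2⟩ ⟨h3, h4⟩
        refine ⟨fun i => add_mem (h1 i) (h3 i), fun Q hQ => ?_⟩
        rw [← thet_comp V V' (fun i => hfixL V h2 _ (h3 i)), AlgHom.comp_apply, h4 Q hQ, h2 Q hQ]
      smul_mem' := by
        rintro c V ⟨h1, h2⟩
        refine ⟨fun i => L0.smul_mem c (h1 i), fun Q hQ => ?_⟩
        apply thet_smul
        intro m
        have h3 : ∀ m : ℕ, (∀ i, (m • V) i ∈ L0) ∧ ∀ Q ∈ Qs, thet (m • V) Q = Q := by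
          intro m
          induction m with
          | zero =>
            rw [zero_smul]
            refine ⟨fun i => zero_mem _, fun Q _ => ?_⟩
            rw [thet_zero]; rfl
          | succ m ih =>
            rw [succ_nsmul]
            refine ⟨fun i => add_mem (ih.1 i) (h1 i), fun Q hQ => ?_⟩
            rw [← thet_comp (m • V) V (fun i => hfixL _ ih.2 _ (h1 i)), AlgHom.comp_apply,
              h2 Q hQ, ih.2 Q hQ]
        exact (h3 m).2 Q hQ }
  -- the nonlinear part of the weight `a i` component of `X i`
  let q : Fin n → PA k n := fun i => (x i).coeff (a i) - X i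
  have hq : ∀ i, q i = - ∑ e ∈ (x i).coeff.support.erase (a i), (x i).coeff e := by
    intro i
    have h1 := hx.sum_coeff i
    have h2 : a i ∈ (x i).coeff.support := by
      rw [Finsupp.mem_support_iff]
      intro h0
      have h3 := hx.coeff_single_coeff hn i i (a i)
      rw [h0, coeff_zero, if_pos ⟨rfl, rfl⟩] at h3
      exact zero_ne_one h3
    rw [Finsupp.sum, ← Finset.add_sum_erase _ _ h2] at h1
    simp only [q]
    linear_combination h1
  -- the vectors `K t`
  let K : (Fin d → kˣ) → Fin n → PA k n := fun t i => diagHom a t⁻¹ (ρ t (X i)) - X i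
  have hchi : ∀ (e : Fin d → ℤ) (t : Fin d → kˣ), chik (k := k) e t * chik (k := k) e t⁻¹ = 1 := by
    intro e t
    rw [← map_mul, mul_inv_cancel, map_one]
  have hK : ∀ t i, K t i = - q i - ∑ e ∈ (x i).coeff.support.erase (a i),
      chik (k := k) (a i - e) t • (x i).coeff e := by
    intro t i
    have h2 : a i ∈ (x i).coeff.support := by
      rw [Finsupp.mem_support_iff]
      intro h0
      have h3 := hx.coeff_single_coeff hn i i (a i)
      rw [h0, coeff_zero, if_pos ⟨rfl, rfl⟩] at h3
      exact zero_ne_one h3
    simp only [K]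
    rw [hx, ev_apply, Finsupp.sum, map_sum, ← Finset.add_sum_erase _ _ h2]
    have h3 : ∀ e ∈ (x i).coeff.support.erase (a i),
        diagHom a t⁻¹ (chik (k := k) e t • (x i).coeff e) = (x i).coeff e := by
      intro e he
      rw [map_smul, hdiag i e (Finset.ne_of_mem_erase he), smul_smul, hchi, one_smul]
    rw [Finset.sum_congr rfl h3, map_smul]
    have h4 : (x i).coeff (a i) = X i + q i := by simp only [q]; ring
    have h5 : diagHom a t⁻¹ (q i) = - ∑ e ∈ (x i).coeff.support.erase (a i),
        chik (k := k) e t⁻¹ • (x i).coeff e := by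
      rw [hq, map_neg, map_sum]
      congr 1
      refine Finset.sum_congr rfl (fun e he => ?_)
      rw [hdiag i e (Finset.ne_of_mem_erase he)]
    have h6 : diagHom a t⁻¹ (X i) = chik (k := k) (a i) t⁻¹ • (X i : PA k n) := by
      rw [diagHom, aeval_X]
    rw [h4, map_add, h6, h5, smul_add, smul_smul, hchi, one_smul, smul_neg, Finset.smul_sum]
    have h7 : ∑ e ∈ (x i).coeff.support.erase (a i),
        chik (k := k) (a i) t • chik (k := k) e t⁻¹ • (x i).coeff e =
        ∑ e ∈ (x i).coeff.support.erase (a i), chik (k := k) (a i - e) t • (x i).coeff e := by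
      refine Finset.sum_congr rfl (fun e _ => ?_)
      rw [smul_smul, chik_apply (a i - e), chi_sub, Units.val_mul, ← map_inv]
      rfl
    rw [h7, hq]
    ring
  have hKS : ∀ t, K t ∈ S := by
    intro t
    refine ⟨fun i => ?_, ?_⟩
    · rw [hK, hq, neg_neg]
      refine sub_mem (sum_mem (fun e he => ?_)) (sum_mem (fun e he => ?_))
      · exact Submodule.subset_span ⟨i, e, Finset.ne_of_mem_erase he, rfl⟩
      · exact Submodule.smul_mem _ _
          (Submodule.subset_span ⟨i, e, Finset.ne_of_mem_erase he, rfl⟩)
    · rintro _ ⟨i, e, he, rfl⟩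
      have h1 : thet (K t) = (diagHom a t⁻¹).comp (ρ t : PA k n →ₐ[k] PA k n) := by
        apply MvPolynomial.algHom_ext
        intro j
        rw [thet_X]
        simp only [K, AlgHom.comp_apply]
        change X j + (diagHom a t⁻¹ (ρ t (X j)) - X j) = diagHom a t⁻¹ (ρ t (X j))
        ring
      rw [h1, AlgHom.comp_apply]
      change diagHom a t⁻¹ (ρ t ((x i).coeff e)) = _
      rw [hx.isWt_coeff i e t, map_smul, hdiag i e he, smul_smul, hchi, one_smul]
  -- the vector `q` is in `S`
  have hqS : q ∈ S := by
    let W : Type _ := (Fin n → PA k n) ⧸ S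
    let Z : (Fin d → ℤ) →₀ W := Finsupp.single 0 (Submodule.Quotient.mk (-q)) -
      ∑ i, ∑ e ∈ (x i).coeff.support.erase (a i),
        Finsupp.single (a i - e) (Submodule.Quotient.mk (Pi.single i ((x i).coeff e)))
    have hZ : Z = 0 := by
      apply laurent_eq_zero (k := k)
      intro t
      have h1 : (Submodule.Quotient.mk (K t) : W) = 0 := by
        rw [Submodule.Quotient.mk_eq_zero]
        exact hKS t
      have h2 : K t = -q - ∑ i, ∑ e ∈ (x i).coeff.support.erase (a i),
          chik (k := k) (a i - e) t • (Pi.single i ((x i).coeff e) : Fin n → PA k n) := by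
        funext j
        rw [hK, Pi.sub_apply, Pi.neg_apply, Finset.sum_apply]
        congr 1
        rw [Finset.sum_eq_single j]
        · rw [Finset.sum_apply]
          refine Finset.sum_congr rfl (fun e _ => ?_)
          rw [Pi.smul_apply, Pi.single_eq_same]
        · intro i _ hij
          rw [Finset.sum_apply]
          refine Finset.sum_eq_zero (fun e _ => ?_)
          rw [Pi.smul_apply, Pi.single_eq_of_ne (Ne.symm hij), smul_zero]
        · simp
      have h3 : Z.sum (fun e v => chik (k := k) e t • v) = Submodule.Quotient.mk (K t) := by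
        simp only [Z]
        rw [Finsupp.sum_sub_index (by intros; rw [smul_sub]), Finsupp.sum_single_index (by simp),
          ← Finsupp.sum_finsetSum_index (by simp) (by intros; rw [smul_add]), h2,
          Submodule.Quotient.mk_sub]
        congr 1
        · rw [chik_apply, chi_zero, Units.val_one, one_smul]
        · rw [← Submodule.mkQ_apply, map_sum]
          refine Finset.sum_congr rfl (fun i _ => ?_)
          rw [← Finsupp.sum_finsetSum_index (by simp) (by intros; rw [smul_add]), map_sum]
          refine Finset.sum_congr rfl (fun e _ => ?_)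
          rw [Finsupp.sum_single_index (by simp), map_smul]
          rfl
      rw [h3, h1]
    have h0 := DFunLike.congr_fun hZ 0
    simp only [Z, Finsupp.sub_apply, Finsupp.single_eq_same, Finsupp.zero_apply,
      Finsupp.finsetSum_apply] at h0
    have h4 : ∑ i, ∑ e ∈ (x i).coeff.support.erase (a i),
        (Finsupp.single (a i - e)
          (Submodule.Quotient.mk (Pi.single i ((x i).coeff e)) : W)) 0 = 0 := by
      refine Finset.sum_eq_zero (fun i _ => Finset.sum_eq_zero (fun e he => ?_))
      rw [Finsupp.single_eq_of_ne]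
      intro h5
      exact Finset.ne_of_mem_erase he (sub_eq_zero.1 h5.symm).symm
    rw [h4, sub_zero, Submodule.Quotient.mk_eq_zero] at h0
    have h5 := S.neg_mem h0
    rwa [neg_neg] at h5
  -- the automorphism
  have hnegS : -q ∈ S := S.neg_mem hqS
  let ψ : PA k n ≃ₐ[k] PA k n := AlgEquiv.ofAlgHom (thet q) (thet (-q))
    (by
      rw [thet_comp q (-q) (fun i => hfixL q hqS.2 _ (hnegS.1 i)), add_neg_cancel, thet_zero])
    (by
      rw [thet_comp (-q) q (fun i => hfixL (-q) hnegS.2 _ (hqS.1 i)), neg_add_cancel, thet_zero])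
  refine diagWith_of_generators (fun i => (x i).coeff (a i)) (fun i => hx.isWt_coeff i (a i))
    ⟨ψ, fun i => ?_⟩
  change thet q (X i) = _
  rw [thet_X]
  simp only [q]
  ring

end Pool.Agent.H974T
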