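import Pool.Agent.H974T.Gap

/-!
# Torus actions of degree at most two, and with a gap in the degrees
-/

set_option autoImplicit false

open MvPolynomial

namespace Pool.Agent.H974T

variable {k : Type*} [Field k] {d n : ℕ}

/-- translation by `P` -/
noncomputable def trans (P : Fin n → k) : PA k n →ₐ[k] PA k n := aeval (fun l => X l + C (P l))

/-- the linear substitution with matrix `N` -/
noncomputable def linS (N : Matrix (Fin n) (Fin n) k) : PA k n →ₐ[k] PA k n :=
  aeval (fun l => ∑ i, C (N i l) * X i)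

theorem affK_eq (P : Fin n → k) (N : Matrix (Fin n) (Fin n) k) (p : PA k n) :
    aeval (affK P N) p = linS N (trans P p) := by
  have h1 : (aeval (affK P N) : PA k n →ₐ[k] PA k n) = (linS N).comp (trans P) := by
    apply MvPolynomial.algHom_ext
    intro i
    rw [AlgHom.comp_apply, trans, linS, aeval_X, aeval_X, map_add, aeval_X, algHom_C,
      algebraMap_eq, affK, add_comm]
  exact DFunLike.congr_fun h1 p

theorem linS_support (N : Matrix (Fin n) (Fin n) k) (g : PA k n) (β : Fin n →₀ ℕ)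
    (hβ : β ∈ (linS N g).support) : ∃ γ ∈ g.support, γ.degree = β.degree := by
  classical
  have h1 : linS N g = ∑ γ ∈ g.support, linS N (monomial γ (coeff γ g)) := by
    conv_lhs => rw [g.as_sum, map_sum]
  rw [h1, mem_support_iff, coeff_sum] at hβ
  obtain ⟨γ, hγ, h2⟩ := Finset.exists_ne_zero_of_sum_ne_zero hβ
  refine ⟨γ, hγ, ?_⟩
  have h3 : (linS N (monomial γ (coeff γ g))).IsHomogeneous γ.degree := by
    rw [linS, aeval_monomial, Finsupp.prod_fintype _ _ (by simp), algebraMap_eq]
    have h4 : ∀ l, ((∑ i, C (N i l) * X i : PA k n) ^ γ l).IsHomogeneous (γ l) := by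
      intro l
      have h5 : (∑ i, C (N i l) * X i : PA k n).IsHomogeneous 1 := by
        apply IsHomogeneous.sum
        intro i _
        have h6 := (isHomogeneous_C (Fin n) (N i l)).mul (isHomogeneous_X k i)
        rwa [zero_add] at h6
      have h7 := h5.pow (γ l)
      rwa [one_mul] at h7
    have h8 := IsHomogeneous.prod Finset.univ (fun l => (∑ i, C (N i l) * X i : PA k n) ^ γ l)
      (fun l => γ l) (fun l _ => h4 l)
    have h9 := (isHomogeneous_C (Fin n) (coeff γ g)).mul h8
    rw [zero_add, ← Finsupp.degree_eq_sum] at h9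
    exact h9
  have h4 := h3 h2
  rw [← h4, Finsupp.degree_eq_weight_one]
  rfl

theorem trans_eq_aff (P : Fin n → k) (M : Matrix (Fin n) (Fin n) k) (ρ : TAct k d n)
    (t : Fin d → kˣ) (j : Fin n) :
    trans P (ρ t (affL P M j)) = ∑ i, C (M i j) * (trans P (ρ t (X i)) - C (P i)) := by
  rw [affL, map_sum, map_sum]
  refine Finset.sum_congr rfl (fun i _ => ?_)
  have h1 : ∀ c, ρ t (C c) = C c := fun c => (ρ t).commutes c
  rw [map_mul, map_sub, h1, h1, map_mul, map_sub, algHom_C, algHom_C]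
  rfl

/-- the gap property is inherited by the normalized action -/
theorem gap_conj {ρ : TAct k d n} {P : Fin n → k} {M N : Matrix (Fin n) (Fin n) k}
    (hMN : M * N = 1) (s : ℕ)
    (hgap : ∀ t i, ∀ β ∈ (trans P (ρ t (X i))).support, β.degree ≤ 1 ∨
      (s + 1 ≤ β.degree ∧ β.degree ≤ 2 * s)) (t : Fin d → kˣ) (j : Fin n) (β : Fin n →₀ ℕ)
    (hβ : β ∈ (conjAct (affEquiv P hMN) ρ t (X j)).support) :
    β.degree ≤ 1 ∨ (s + 1 ≤ β.degree ∧ β.degree ≤ 2 * s) := by
  classical
  have h1 : conjAct (affEquiv P hMN) ρ t (X j) =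
      linS N (trans P (ρ t (affL P M j))) := by
    rw [conjAct_apply', affEquiv_apply, affEquiv_symm_apply, aeval_X, affK_eq]
  rw [h1] at hβ
  obtain ⟨γ, hγ, h2⟩ := linS_support N _ β hβ
  rw [← h2]
  rw [trans_eq_aff, mem_support_iff, coeff_sum] at hγ
  obtain ⟨i, -, h3⟩ := Finset.exists_ne_zero_of_sum_ne_zero hγ
  rw [coeff_C_mul, coeff_sub, coeff_C] at h3
  by_cases h4 : 0 = γ
  · left
    rw [← h4]; simp
  · rw [if_neg h4, sub_zero] at h3
    exact hgap t i γ (mem_support_iff.2 (right_ne_zero_of_mul h3))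

theorem trans_totalDegree (P : Fin n → k) (p : PA k n) :
    (trans P p).totalDegree ≤ p.totalDegree := by
  refine totalDegree_aeval_le _ (fun i => ?_) p
  refine (totalDegree_add _ _).trans ?_
  rw [totalDegree_C, totalDegree_X]
  simp

/-- **Gap theorem.** -/
theorem exists_diagWith_of_gap [IsAlgClosed k] [CharZero k] {ρ : TAct k d n}
    {x : Fin n → LL k n d} (hx : Rep ρ x) {P : Fin n → k}
    (hP : ∀ t i, eval P (ρ t (X i)) = P i) (s : ℕ)
    (hgap : ∀ t i, ∀ β ∈ (trans P (ρ t (X i))).support, β.degree ≤ 1 ∨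
      (s + 1 ≤ β.degree ∧ β.degree ≤ 2 * s)) : ∃ a, DiagWith ρ a := by
  have hinf : Infinite k := IsAlgClosed.instInfinite
  obtain ⟨M, N, a, hMN, hnorm⟩ := hx.exists_normalAt hP
  refine ⟨a, DiagWith.of_conj (affEquiv P hMN) ?_⟩
  exact diagWith_of_gap (hx.conj _) (hnorm.normal hMN) s (gap_conj hMN s hgap)

/-- **Torus actions of degree at most two are diagonalizable.** -/
theorem exists_diagWith_of_quadratic [IsAlgClosed k] [CharZero k] {ρ : TAct k d n}
    {x : Fin n → LL k n d} (hx : Rep ρ x)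
    (hdeg : ∀ t j, (ρ t (X j)).totalDegree ≤ 2) : ∃ a, DiagWith ρ a := by
  obtain ⟨P, hP⟩ := hx.exists_fixed_point (by exact_mod_cast (two_ne_zero : (2 : ℕ) ≠ 0))
  refine exists_diagWith_of_gap hx hP 1 (fun t i β hβ => ?_)
  have h1 := ((degree_le_totalDegree hβ).trans (trans_totalDegree P _)).trans (hdeg t i)
  omega

end Pool.Agent.H974T
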