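import Pool.Agent.H974T.Ext2

/-!
# Affine changes of coordinates
-/

set_option autoImplicit false

open MvPolynomial

namespace Pool.Agent.H974T

variable {k : Type*} [Field k] {d n : ℕ}

/-- conjugation of an action by an automorphism -/
noncomputable def conjAct (α : PA k n ≃ₐ[k] PA k n) (ρ : TAct k d n) : TAct k d n :=
  (MulAut.conj α).toMonoidHom.comp ρ

theorem conjAct_apply (α : PA k n ≃ₐ[k] PA k n) (ρ : TAct k d n) (t : Fin d → kˣ) :
    conjAct α ρ t = α * ρ t * α⁻¹ := rfl

theorem conjAct_apply' (α : PA k n ≃ₐ[k] PA k n) (ρ : TAct k d n) (t : Fin d → kˣ) (p : PA k n) :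
    conjAct α ρ t p = α (ρ t (α.symm p)) := rfl

/-- coefficientwise action of an automorphism on Laurent polynomials -/
noncomputable def mapLL (α : PA k n ≃ₐ[k] PA k n) (u : LL k n d) : LL k n d :=
  ∑ e ∈ u.coeff.support, AddMonoidAlgebra.single e (α (u.coeff e))

theorem ev_mapLL (α : PA k n ≃ₐ[k] PA k n) (u : LL k n d) (t : Fin d → kˣ) :
    ev n t (mapLL α u) = α (ev n t u) := by
  rw [mapLL, map_sum, ev_apply, Finsupp.sum, map_sum]
  refine Finset.sum_congr rfl (fun e _ => ?_)
  rw [ev_single, map_smul]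

theorem Rep.conj {ρ : TAct k d n} {x : Fin n → LL k n d} (h : Rep ρ x)
    (α : PA k n ≃ₐ[k] PA k n) :
    Rep (conjAct α ρ) (fun i => mapLL α (aeval x (α.symm (X i)))) := by
  intro t i
  rw [conjAct_apply', ev_mapLL, ← h.apply]

/-- linearizability: some automorphism conjugates the action to a linear one -/
def Linearizable (ρ : TAct k d n) : Prop :=
  ∃ φ : PA k n ≃ₐ[k] PA k n, ∀ (t : Fin d → kˣ) (j : Fin n),
    ((φ * ρ t * φ⁻¹) (X j)).IsHomogeneous 1

theorem Linearizable.of_conj {ρ : TAct k d n} (α : PA k n ≃ₐ[k] PA k n)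
    (h : Linearizable (conjAct α ρ)) : Linearizable ρ := by
  obtain ⟨φ, hφ⟩ := h
  refine ⟨φ * α, fun t j => ?_⟩
  have h1 := hφ t j
  rw [conjAct_apply] at h1
  have h2 : φ * α * ρ t * (φ * α)⁻¹ = φ * (α * ρ t * α⁻¹) * φ⁻¹ := by group
  rw [h2]
  exact h1

/-- some automorphism conjugates the action to the diagonal one with weights `a` -/
def DiagWith (ρ : TAct k d n) (a : Fin n → Fin d → ℤ) : Prop :=
  ∃ φ : PA k n ≃ₐ[k] PA k n, ∀ (t : Fin d → kˣ) (j : Fin n),
    (φ * ρ t * φ⁻¹) (X j) = chik (k := k) (a j) t • (X j : PA k n)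

theorem DiagWith.of_conj {ρ : TAct k d n} {a : Fin n → Fin d → ℤ} (α : PA k n ≃ₐ[k] PA k n)
    (h : DiagWith (conjAct α ρ) a) : DiagWith ρ a := by
  obtain ⟨φ, hφ⟩ := h
  refine ⟨φ * α, fun t j => ?_⟩
  have h1 := hφ t j
  rw [conjAct_apply] at h1
  have h2 : φ * α * ρ t * (φ * α)⁻¹ = φ * (α * ρ t * α⁻¹) * φ⁻¹ := by group
  rw [h2]
  exact h1

theorem DiagWith.linearizable {ρ : TAct k d n} {a : Fin n → Fin d → ℤ}
    (h : DiagWith ρ a) : Linearizable ρ := by
  obtain ⟨φ, hφ⟩ := h
  refine ⟨φ, fun t j => ?_⟩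
  rw [hφ, smul_eq_C_mul]
  have h2 := (isHomogeneous_C (Fin n) (chik (k := k) (a j) t)).mul (isHomogeneous_X k j)
  rwa [zero_add] at h2

/-- homogeneous generators give a linearization -/
theorem diagWith_of_generators {ρ : TAct k d n} {a : Fin n → Fin d → ℤ} (y : Fin n → PA k n)
    (hy : ∀ i, IsWt ρ (a i) (y i))
    (hex : ∃ ψ : PA k n ≃ₐ[k] PA k n, ∀ i, ψ (X i) = y i) : DiagWith ρ a := by
  obtain ⟨ψ, hψ⟩ := hex
  refine ⟨ψ⁻¹, fun t j => ?_⟩
  have h1 : (ψ⁻¹ * ρ t * ψ⁻¹⁻¹) (X j) = ψ.symm (ρ t (ψ (X j))) := by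
    rw [inv_inv]; rfl
  rw [h1, hψ, hy j t, map_smul, ← hψ j, AlgEquiv.symm_apply_apply]

theorem totalDegree_aeval_le (L : Fin n → PA k n) (hL : ∀ i, (L i).totalDegree ≤ 1)
    (p : PA k n) : (aeval L p).totalDegree ≤ p.totalDegree := by
  classical
  conv_lhs => rw [p.as_sum]
  rw [map_sum]
  refine totalDegree_finsetSum_le (fun β hβ => ?_)
  rw [aeval_monomial, Finsupp.prod_fintype _ _ (by simp)]
  refine (totalDegree_mul _ _).trans ?_
  rw [algebraMap_eq, totalDegree_C, zero_add]
  refine (totalDegree_finsetProd _ _).trans ?_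
  refine le_trans ?_ (degree_le_totalDegree hβ)
  rw [Finsupp.degree_eq_sum]
  refine Finset.sum_le_sum (fun i _ => ?_)
  refine (totalDegree_pow _ _).trans ?_
  calc β i * (L i).totalDegree ≤ β i * 1 := Nat.mul_le_mul_left _ (hL i)
    _ = β i := mul_one _

/-- chain rule for the partial derivatives -/
theorem pderiv_aeval (K : Fin n → PA k n) (i : Fin n) (q : PA k n) :
    pderiv i (aeval K q) = ∑ l, aeval K (pderiv l q) * pderiv i (K l) := by
  classical
  induction q using MvPolynomial.induction_on with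
  | C a => simp
  | add p q hp hq =>
    rw [map_add, map_add, hp, hq, ← Finset.sum_add_distrib]
    refine Finset.sum_congr rfl (fun l _ => ?_)
    rw [map_add, map_add, add_mul]
  | mul_X p j hp =>
    have h1 : ∀ l, aeval K (pderiv l (p * X j)) * pderiv i (K l) =
        (aeval K p * aeval K (Pi.single (M := fun _ => PA k n) l 1 j)) * pderiv i (K l) +
        K j * (aeval K (pderiv l p) * pderiv i (K l)) := by
      intro l
      rw [pderiv_mul, pderiv_X, map_add, map_mul, map_mul, aeval_X]
      ring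
    have h2 : ∀ l, aeval K (Pi.single (M := fun _ => PA k n) l 1 j) =
        if l = j then (1 : PA k n) else 0 := by
      intro l
      by_cases hlj : l = j
      · subst hlj; simp
      · rw [if_neg hlj, Pi.single_eq_of_ne (Ne.symm hlj), map_zero]
    rw [map_mul, aeval_X, pderiv_mul, hp, Finset.sum_congr rfl (fun l _ => h1 l),
      Finset.sum_add_distrib, ← Finset.mul_sum]
    simp only [h2]
    have h3 : ∑ l, aeval K p * (if l = j then (1 : PA k n) else 0) * pderiv i (K l) =
        aeval K p * pderiv i (K j) := by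
      rw [Finset.sum_eq_single j]
      · simp
      · intro l _ hl
        simp [hl]
      · simp
    rw [h3]
    ring

theorem coeff_single_eq (p : PA k n) (j : Fin n) :
    coeff (Finsupp.single j 1) p = eval 0 (pderiv j p) := by
  rw [eval_zero]
  change _ = coeff 0 (pderiv j p)
  rw [coeff_pderiv]
  simp

/-- the affine coordinates `∑ M_ij (X_i - P_i)` -/
noncomputable def affL (P : Fin n → k) (M : Matrix (Fin n) (Fin n) k) (j : Fin n) : PA k n :=
  ∑ i, C (M i j) * (X i - C (P i))

/-- the inverse coordinates -/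
noncomputable def affK (P : Fin n → k) (N : Matrix (Fin n) (Fin n) k) (l : Fin n) : PA k n :=
  C (P l) + ∑ i, C (N i l) * X i

theorem aeval_affL_affK (P : Fin n → k) {M N : Matrix (Fin n) (Fin n) k} (h : M * N = 1)
    (l : Fin n) : aeval (affL P M) (affK P N l) = X l := by
  classical
  simp only [affK, affL, map_add, map_sum, map_mul, aeval_X, algHom_C, algebraMap_eq]
  have h1 : ∑ i, C (N i l) * ∑ m, C (M m i) * (X m - C (P m)) =
      ∑ m, (C ((M * N) m l) * (X m - C (P m)) : PA k n) := by
    simp only [Finset.mul_sum, Matrix.mul_apply, map_sum, Finset.sum_mul]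
    rw [Finset.sum_comm]
    refine Finset.sum_congr rfl (fun m _ => Finset.sum_congr rfl (fun i _ => ?_))
    rw [C_mul]; ring
  rw [h1, h, Finset.sum_eq_single l]
  · simp
  · intro m _ hm
    rw [Matrix.one_apply_ne hm]; simp
  · simp

theorem aeval_affK_affL (P : Fin n → k) {M N : Matrix (Fin n) (Fin n) k} (h : N * M = 1)
    (j : Fin n) : aeval (affK P N) (affL P M j) = X j := by
  classical
  simp only [affK, affL, map_sub, map_sum, map_mul, aeval_X, algHom_C, algebraMap_eq]
  have h1 : ∑ i, C (M i j) * (C (P i) + ∑ m, C (N m i) * X m - C (P i)) =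
      ∑ m, (C ((N * M) m j) * X m : PA k n) := by
    simp only [add_sub_cancel_left, Finset.mul_sum, Matrix.mul_apply, map_sum, Finset.sum_mul]
    rw [Finset.sum_comm]
    refine Finset.sum_congr rfl (fun m _ => Finset.sum_congr rfl (fun i _ => ?_))
    rw [C_mul]; ring
  rw [h1, h, Finset.sum_eq_single j]
  · simp
  · intro m _ hm
    rw [Matrix.one_apply_ne hm]; simp
  · simp

/-- affine automorphism; it sends `X_l` to `P_l + ∑ N_il X_i` -/
noncomputable def affEquiv (P : Fin n → k) {M N : Matrix (Fin n) (Fin n) k} (h : M * N = 1) :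
    PA k n ≃ₐ[k] PA k n :=
  AlgEquiv.ofAlgHom (aeval (affK P N)) (aeval (affL P M))
    (by
      apply MvPolynomial.algHom_ext
      intro i
      rw [AlgHom.comp_apply, aeval_X, aeval_affK_affL P (mul_eq_one_comm.1 h)]
      rfl)
    (by
      apply MvPolynomial.algHom_ext
      intro i
      rw [AlgHom.comp_apply, aeval_X, aeval_affL_affK P h]
      rfl)

theorem affEquiv_apply (P : Fin n → k) {M N : Matrix (Fin n) (Fin n) k} (h : M * N = 1)
    (p : PA k n) : affEquiv P h p = aeval (affK P N) p := rfl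

theorem affEquiv_symm_apply (P : Fin n → k) {M N : Matrix (Fin n) (Fin n) k} (h : M * N = 1)
    (p : PA k n) : (affEquiv P h).symm p = aeval (affL P M) p := rfl

theorem totalDegree_affL (P : Fin n → k) (M : Matrix (Fin n) (Fin n) k) (j : Fin n) :
    (affL P M j).totalDegree ≤ 1 := by
  refine totalDegree_finsetSum_le (fun i _ => ?_)
  refine (totalDegree_mul _ _).trans ?_
  rw [totalDegree_C, zero_add]
  refine (totalDegree_sub_C_le _ _).trans ?_
  rw [totalDegree_X]

theorem totalDegree_affK (P : Fin n → k) (N : Matrix (Fin n) (Fin n) k) (j : Fin n) :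
    (affK P N j).totalDegree ≤ 1 := by
  refine (totalDegree_add _ _).trans ?_
  rw [totalDegree_C]
  refine max_le (Nat.zero_le _) ?_
  refine totalDegree_finsetSum_le (fun i _ => ?_)
  refine (totalDegree_mul _ _).trans ?_
  rw [totalDegree_C, zero_add, totalDegree_X]

theorem eval_zero_affK (P : Fin n → k) (N : Matrix (Fin n) (Fin n) k) (p : PA k n) :
    eval 0 (aeval (affK P N) p) = eval P p := by
  have h1 : (eval (0 : Fin n → k)).comp (aeval (affK P N) : PA k n →ₐ[k] PA k n).toRingHom =
      eval P := by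
    apply MvPolynomial.ringHom_ext
    · intro r; simp
    · intro i; simp [affK]
  exact DFunLike.congr_fun h1 p

theorem pderiv_affK (P : Fin n → k) (N : Matrix (Fin n) (Fin n) k) (i l : Fin n) :
    pderiv i (affK P N l) = C (N i l) := by
  classical
  rw [affK, map_add, pderiv_C, zero_add, map_sum, Finset.sum_eq_single i]
  · rw [pderiv_C_mul, pderiv_X_self, mul_one]
  · intro j _ hj
    rw [pderiv_C_mul, pderiv_X_of_ne hj, mul_zero]
  · simp

/-- the action fixes `P` and in the basis `M` its linear part at `P` is diagonal with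
weights `a` -/
structure NormalAt (ρ : TAct k d n) (P : Fin n → k) (M : Matrix (Fin n) (Fin n) k)
    (a : Fin n → Fin d → ℤ) : Prop where
  fix : ∀ t i, eval P (ρ t (X i)) = P i
  lin : ∀ t, (Matrix.of fun i j => eval P (pderiv i (ρ t (X j)))) * M =
    M * Matrix.diagonal (fun j => chik (k := k) (a j) t)

theorem NormalAt.normal {ρ : TAct k d n} {P : Fin n → k} {M N : Matrix (Fin n) (Fin n) k}
    {a : Fin n → Fin d → ℤ} (h : NormalAt ρ P M a) (hMN : M * N = 1) :
    Normal (conjAct (affEquiv P hMN) ρ) a := by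
  classical
  have hL : ∀ t j, ρ t (affL P M j) = ∑ i, C (M i j) * (ρ t (X i) - C (P i)) := by
    intro t j
    rw [affL, map_sum]
    refine Finset.sum_congr rfl (fun i _ => ?_)
    rw [map_mul, map_sub]
    have h1 : ∀ c, ρ t (C c) = C c := fun c => (ρ t).commutes c
    rw [h1, h1]
  have hval : ∀ t j, conjAct (affEquiv P hMN) ρ t (X j) =
      aeval (affK P N) (ρ t (affL P M j)) := by
    intro t j
    rw [conjAct_apply', affEquiv_apply, affEquiv_symm_apply, aeval_X]
  constructor
  · intro t j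
    change constantCoeff _ = 0
    rw [← eval_zero, hval, eval_zero_affK, hL, map_sum]
    refine Finset.sum_eq_zero (fun i _ => ?_)
    rw [map_mul, map_sub, h.fix, eval_C, eval_C, sub_self, mul_zero]
  · intro t j i
    rw [coeff_single_eq, hval, pderiv_aeval, map_sum]
    have h1 : ∀ l, eval 0 (aeval (affK P N) (pderiv l (ρ t (affL P M j))) *
        pderiv i (affK P N l)) = N i l * (M * Matrix.diagonal
          (fun j => chik (k := k) (a j) t)) l j := by
      intro l
      rw [map_mul, eval_zero_affK, pderiv_affK, eval_C, mul_comm, ← h.lin t, hL,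
        Matrix.mul_apply, map_sum, map_sum]
      congr 1
      refine Finset.sum_congr rfl (fun m _ => ?_)
      rw [pderiv_C_mul, map_sub, pderiv_C, sub_zero, Matrix.of_apply, map_mul, eval_C, mul_comm]
    rw [Finset.sum_congr rfl (fun l _ => h1 l), ← Matrix.mul_apply, ← Matrix.mul_assoc,
      mul_eq_one_comm.1 hMN, Matrix.one_mul, Matrix.diagonal_apply]
    by_cases hij : i = j
    · rw [if_pos hij, if_pos hij.symm, hij]
    · rw [if_neg hij, if_neg (Ne.symm hij)]

theorem totalDegree_conj {ρ : TAct k d n} {D : ℕ} (hD : ∀ t j, (ρ t (X j)).totalDegree ≤ D)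
    (P : Fin n → k) {M N : Matrix (Fin n) (Fin n) k} (hMN : M * N = 1) (t : Fin d → kˣ)
    (j : Fin n) : (conjAct (affEquiv P hMN) ρ t (X j)).totalDegree ≤ D := by
  rw [conjAct_apply', affEquiv_apply, affEquiv_symm_apply, aeval_X]
  refine (totalDegree_aeval_le _ (totalDegree_affK P N) _).trans ?_
  rw [affL, map_sum]
  refine totalDegree_finsetSum_le (fun i _ => ?_)
  rw [map_mul, map_sub]
  have h1 : ∀ c, ρ t (C c) = C c := fun c => (ρ t).commutes c
  rw [h1, h1]
  refine (totalDegree_mul _ _).trans ?_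
  rw [totalDegree_C, zero_add]
  exact (totalDegree_sub_C_le _ _).trans (hD t i)

end Pool.Agent.H974T
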