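import Pool.Agent.H974T.BB2
import Pool.Agent.H974T.Norm

/-!
# Torus actions of bounded degree with generic weights
-/

set_option autoImplicit false

open MvPolynomial

namespace Pool.Agent.H974T

variable {k : Type*} [Field k] {d d' n : ℕ}

theorem NormalAt.sum_eq_zero [Infinite k] {ρ : TAct k d n} {P : Fin n → k}
    {M : Matrix (Fin n) (Fin n) k} {a : Fin n → Fin d → ℤ} (h : NormalAt ρ P M a)
    (hM : M.det ≠ 0)
    (hdet : ∀ t : Fin d → kˣ, (Matrix.of fun i j : Fin n => pderiv i (ρ t (X j))).det = 1) :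
    ∑ i, a i = 0 := by
  classical
  apply chik_injective (k := k)
  refine DFunLike.ext _ _ (fun t => ?_)
  have h1 := congrArg Matrix.det (h.lin t)
  rw [Matrix.det_mul, Matrix.det_mul, Matrix.det_diagonal] at h1
  have h2 : (Matrix.of fun i j => eval P (pderiv i (ρ t (X j)))).det = 1 := by
    have h3 := congrArg (eval P) (hdet t)
    rw [RingHom.map_det, map_one] at h3
    exact h3
  rw [h2, mul_comm] at h1
  have h3 := mul_left_cancel₀ hM h1
  rw [chik_apply, chik_apply, chi_sum, chi_zero, Units.coe_prod, Units.val_one]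
  exact h3.symm

theorem Normal.one_le_degree {ρ : TAct k d n} {D : ℕ}
    (hD : ∀ t j, (ρ t (X j)).totalDegree ≤ D) (i : Fin n) : 1 ≤ D := by
  have h1 := hD 1 i
  rw [map_one] at h1
  have h2 : ((1 : PA k n ≃ₐ[k] PA k n) (X i)) = X i := rfl
  rw [h2, totalDegree_X] at h1
  exact h1

/-- the extended action is normal, with the new weights -/
theorem normal_ext [Infinite k] {D : ℕ} {ρ : TAct k d n} {x : Fin n → LL k n d}
    (hx : Rep ρ x) {a : Fin n → Fin d → ℤ} (hn : Normal ρ a)
    (hD : ∀ t j, (ρ t (X j)).totalDegree ≤ D) {b : Fin n → Fin d' → ℤ}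
    (h : ShortRel (D ^ 2) a b) {ρ' : TAct k d' n} (hρ' : Rep ρ' (ext (D ^ 2) a b x)) :
    Normal ρ' b := by
  classical
  have hτ : ∀ i, tau (D ^ 2) a b (a i) = b i := by
    intro i
    have h1 := tau_aw h (Finsupp.single i 1) (by
      rw [Finsupp.degree_single]
      exact Nat.one_le_pow _ _ (Normal.one_le_degree hD i))
    rwa [aw_single, aw_single] at h1
  constructor
  · intro s i
    rw [hρ', ext, ev_mapDomain, Finsupp.sum, coeff_sum]
    refine Finset.sum_eq_zero (fun e _ => ?_)
    rw [coeff_smul, hx.coeff_zero_coeff hn, smul_zero]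
  · intro s i j
    rw [hρ', ext, ev_mapDomain, Finsupp.sum, coeff_sum]
    by_cases hij : i = j
    · subst hij
      rw [if_pos rfl, Finset.sum_eq_single (a i)]
      · rw [coeff_smul, hx.coeff_single_coeff hn, if_pos ⟨rfl, rfl⟩, smul_eq_mul, mul_one, hτ]
      · intro e _ he
        rw [coeff_smul, hx.coeff_single_coeff hn, if_neg (fun h0 => he h0.2), smul_zero]
      · intro h0
        rw [Finsupp.notMem_support_iff] at h0
        have h1 := hx.coeff_single_coeff hn i i (a i)
        rw [h0, coeff_zero, if_pos ⟨rfl, rfl⟩] at h1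
        exact absurd h1 zero_ne_one
    · rw [if_neg hij]
      refine Finset.sum_eq_zero (fun e _ => ?_)
      rw [coeff_smul, hx.coeff_single_coeff hn, if_neg (fun h0 => hij h0.1), smul_zero]

/-- the original action is the restriction of the extended one -/
theorem ext_comp [Infinite k] {D : ℕ} {ρ : TAct k d n} {x : Fin n → LL k n d}
    (hx : Rep ρ x) {a : Fin n → Fin d → ℤ} (hn : Normal ρ a)
    (hD : ∀ t j, (ρ t (X j)).totalDegree ≤ D) {b : Fin n → Fin d' → ℤ}
    (h : ShortRel (D ^ 2) a b) {ρ' : TAct k d' n} (hρ' : Rep ρ' (ext (D ^ 2) a b x))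
    (t : Fin d → kˣ) (s : Fin d' → kˣ) (hts : ∀ i, chi (b i) s = chi (a i) t) :
    ρ t = ρ' s := by
  classical
  have haw : ∀ p : Fin n →₀ ℕ, chi (aw b p) s = chi (aw a p) t := by
    intro p
    rw [aw, aw, chi_sum, chi_sum]
    refine Finset.prod_congr rfl (fun i _ => ?_)
    rw [chi_nsmul, chi_nsmul, hts i]
  have hX : ∀ i, ρ t (X i) = ρ' s (X i) := by
    intro i
    rw [hx, hρ', ext, ev_mapDomain, ev_apply]
    refine Finset.sum_congr rfl (fun e he => ?_)
    obtain ⟨β, hβ, h1, -⟩ := hn.exists_weight (hx.isWt_coeff i e)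
      (Finsupp.mem_support_iff.1 he)
    have h2 : β.degree ≤ D ^ 2 := by
      have h3 := (degree_le_totalDegree hβ).trans (hx.totalDegree_coeff hD i e)
      refine h3.trans ?_
      rw [pow_two]
      exact Nat.le_mul_self D
    subst h1
    beta_reduce
    rw [tau_aw h β h2, chik_apply, chik_apply, haw]
  have h3 : (ρ t : PA k n →ₐ[k] PA k n) = (ρ' s : PA k n →ₐ[k] PA k n) :=
    MvPolynomial.algHom_ext (fun i => hX i)
  ext1 p
  exact DFunLike.congr_fun h3 p

/-- the weights with `b_1 + ... + b_n = 0` as their only relation -/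
def genW (n : ℕ) (i : Fin n) (j : Fin n) : ℤ := (if i = j then (n : ℤ) else 0) - 1

theorem aw_genW (p : Fin n →₀ ℕ) (j : Fin n) :
    aw (genW n) p j = (n : ℤ) * p j - ∑ i, (p i : ℤ) := by
  classical
  have h1 : ∀ i, (p i • genW n i) j = (if i = j then (n : ℤ) * p i else 0) - p i := by
    intro i
    rw [Pi.smul_apply, nsmul_eq_mul, genW]
    split_ifs <;> ring
  rw [aw, Finset.sum_apply, Finset.sum_congr rfl (fun i _ => h1 i), Finset.sum_sub_distrib]
  simp

theorem onlyOne_genW (hn : 0 < n) : OnlyOne (genW n) := by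
  intro p q hpq
  have h1 : ∀ j, (n : ℤ) * p j - ∑ i, (p i : ℤ) = (n : ℤ) * q j - ∑ i, (q i : ℤ) := by
    intro j
    rw [← aw_genW, ← aw_genW, hpq]
  have hn' : (n : ℤ) ≠ 0 := by exact_mod_cast hn.ne'
  let j0 : Fin n := ⟨0, hn⟩
  have h2 : ∀ j, (p j : ℤ) - q j = (p j0 : ℤ) - q j0 := by
    intro j
    have h3 : (n : ℤ) * ((p j : ℤ) - q j) = (n : ℤ) * ((p j0 : ℤ) - q j0) := by
      linear_combination h1 j - h1 j0
    exact mul_left_cancel₀ hn' h3
  rcases le_total (q j0) (p j0) with h4 | h4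
  · refine ⟨p j0 - q j0, Or.inl (fun i => ?_)⟩
    have := h2 i
    omega
  · refine ⟨q j0 - p j0, Or.inr (fun i => ?_)⟩
    have := h2 i
    omega

/-- **Generic weights, normalized form.** -/
theorem diagWith_of_generic [IsAlgClosed k] {D : ℕ} {ρ : TAct k d n}
    {x : Fin n → LL k n d} (hx : Rep ρ x) {a : Fin n → Fin d → ℤ} (hn : Normal ρ a)
    (hD : ∀ t j, (ρ t (X j)).totalDegree ≤ D) (hsum : ∑ i, a i = 0)
    (hshort : ∀ p q : Fin n →₀ ℕ, p.degree ≤ D ^ 2 → q.degree ≤ D ^ 2 → aw a p = aw a q →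
      ∃ m : ℤ, ∀ i, (p i : ℤ) - q i = m) : DiagWith ρ a := by
  classical
  have : Infinite k := IsAlgClosed.instInfinite
  rcases Nat.eq_zero_or_pos n with h0 | hpos
  · subst h0
    exact ⟨1, fun t j => j.elim0⟩
  -- extension to the big torus
  have hSR : ShortRel (D ^ 2) a (genW n) := by
    intro p q hp hq hpq
    obtain ⟨m, hm⟩ := hshort p q hp hq hpq
    funext j
    rw [aw_genW, aw_genW]
    have h1 : ∑ i, (p i : ℤ) - ∑ i, (q i : ℤ) = n * m := by
      rw [← Finset.sum_sub_distrib, Finset.sum_congr rfl (fun i _ => hm i)]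
      simp
    linear_combination (n : ℤ) * hm j - h1
  obtain ⟨ρ', hρ', -, -⟩ := exists_extension hx hn hD hSR
  have hn' : Normal ρ' (genW n) := normal_ext hx hn hD hSR hρ'
  obtain ⟨y, hy, hgen⟩ := exists_generators hρ' hn' (onlyOne_genW hpos)
  refine diagWith_of_generators (a := a) y ?_ (exists_algEquiv y hgen)
  intro i t
  obtain ⟨u, hu⟩ := exists_root_torus t hpos
  have hw : ∀ i, chi (genW n i) (fun j => chi (a j) u) = chi (a i) t := by
    intro i
    have h1 : chi (genW n i) (fun j => chi (a j) u) = chi (∑ j, genW n i j • a j) u := by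
      rw [chi_sum, chi_apply]
      refine Finset.prod_congr rfl (fun j _ => ?_)
      rw [chi_zsmul]
    have h2 : ∑ j, genW n i j • a j = n • a i := by
      simp only [genW, sub_smul, one_smul]
      rw [Finset.sum_sub_distrib, hsum, sub_zero, Finset.sum_eq_single i]
      · rw [if_pos rfl, natCast_zsmul]
      · intro j _ hj
        rw [if_neg (Ne.symm hj), zero_smul]
      · simp
    rw [h1, h2, chi_nsmul, ← map_pow, hu]
  rw [ext_comp hx hn hD hSR hρ' t (fun j => chi (a j) u) hw, hy i, chik_apply, chik_apply, hw]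

end Pool.Agent.H974T
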