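import Mathlib

/-!
Basic facts on the monomial basis of the Grassmann algebra.
-/

namespace H974T.Gr

open Finset

variable {F : Type*} [Field F] {n : ℕ}

/-- The Grassmann algebra on `n` generators. -/
abbrev Grass (F : Type*) [Field F] (n : ℕ) : Type _ := ExteriorAlgebra F (Fin n → F)

/-- The monomial basis of the Grassmann algebra. -/
noncomputable def bas (F : Type*) [Field F] (n : ℕ) :
    Module.Basis (Finset (Fin n)) F (Grass F n) :=
  (Pi.basisFun F (Fin n)).ExteriorAlgebra

/-- The monomial `e_s`. -/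
noncomputable def E (F : Type*) [Field F] {n : ℕ} (s : Finset (Fin n)) : Grass F n := bas F n s

theorem E_mul_not_disj {s t : Finset (Fin n)} (h : ¬ Disjoint s t) : E F s * E F t = 0 := by
  have := ExteriorAlgebra.basis_mul_of_not_disjoint (R := F) (Pi.basisFun F (Fin n))
    (Set.powersetCard.ofCard (s := s) rfl) (Set.powersetCard.ofCard (s := t) rfl) h
  exact this

theorem E_mul_disj {s t : Finset (Fin n)} (h : Disjoint s t) :
    ∃ c : F, (c = 1 ∨ c = -1) ∧ E F s * E F t = c • E F (s ∪ t) := by
  have := ExteriorAlgebra.basis_mul_of_disjoint (R := F) (Pi.basisFun F (Fin n))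
    (Set.powersetCard.ofCard (s := s) rfl) (Set.powersetCard.ofCard (s := t) rfl) h
  have h2 : ((Set.powersetCard.disjUnion (s := Set.powersetCard.ofCard (s := s) rfl)
    (t := Set.powersetCard.ofCard (s := t) rfl) h : Set.powersetCard (Fin n) _) : Finset (Fin n))
      = s ∪ t := by
    exact Set.powersetCard.coe_disjUnion.trans (Finset.disjUnion_eq_union s t h)
  rw [h2] at this
  rcases Int.units_eq_one_or (Set.powersetCard.permOfDisjoint
    (s := Set.powersetCard.ofCard (s := s) rfl)
    (t := Set.powersetCard.ofCard (s := t) rfl) h).sign with h3 | h3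
  · refine ⟨1, Or.inl rfl, ?_⟩
    rw [h3] at this
    simpa [E, bas] using this
  · refine ⟨-1, Or.inr rfl, ?_⟩
    rw [h3] at this
    simpa [E, bas] using this

theorem E_empty : E F (∅ : Finset (Fin n)) = 1 := by
  have := ExteriorAlgebra.basis_apply_ofCard (R := F) (Pi.basisFun F (Fin n))
    (s := (∅ : Finset (Fin n))) (n := 0) rfl
  unfold E bas
  rw [this]
  simp [ExteriorAlgebra.ιMulti_family, ExteriorAlgebra.ιMulti_apply]

theorem E_mem_pow (s : Finset (Fin n)) :
    E F s ∈ (LinearMap.range (ExteriorAlgebra.ι F (M := Fin n → F))) ^ s.card := by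
  have := ExteriorAlgebra.basis_apply_ofCard (R := F) (Pi.basisFun F (Fin n))
    (s := s) (n := s.card) rfl
  unfold E bas
  rw [this]
  exact ExteriorAlgebra.ιMulti_range F s.card ⟨_, rfl⟩

theorem comm_ι {k : ℕ} {x : Grass F n}
    (hx : x ∈ (LinearMap.range (ExteriorAlgebra.ι F (M := Fin n → F))) ^ k) (v : Fin n → F) :
    x * ExteriorAlgebra.ι F v = (-1 : F) ^ k • (ExteriorAlgebra.ι F v * x) := by
  induction hx using Submodule.pow_induction_on_left' with
  | algebraMap r => simp [Algebra.commutes]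
  | add x y i hx hy ihx ihy => rw [add_mul, mul_add, smul_add, ihx, ihy]
  | mem_mul m hm i x hx ih =>
    obtain ⟨u, rfl⟩ := hm
    rw [mul_assoc, ih, mul_smul_comm, ← mul_assoc, ← mul_assoc]
    have h2 : ExteriorAlgebra.ι F u * ExteriorAlgebra.ι F v
        = - (ExteriorAlgebra.ι F v * ExteriorAlgebra.ι F u) :=
      eq_neg_of_add_eq_zero_left (ExteriorAlgebra.ι_add_mul_swap u v)
    rw [h2, pow_succ, mul_neg_one, neg_smul, neg_mul, smul_neg]

theorem comm_pow {k l : ℕ} {x y : Grass F n}
    (hx : x ∈ (LinearMap.range (ExteriorAlgebra.ι F (M := Fin n → F))) ^ k)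
    (hy : y ∈ (LinearMap.range (ExteriorAlgebra.ι F (M := Fin n → F))) ^ l) :
    x * y = (-1 : F) ^ (k * l) • (y * x) := by
  induction hy using Submodule.pow_induction_on_left' with
  | algebraMap r => simp [Algebra.commutes]
  | add a b i ha hb iha ihb => rw [mul_add, add_mul, smul_add, iha, ihb]
  | mem_mul m hm i a ha ih =>
    obtain ⟨u, rfl⟩ := hm
    rw [← mul_assoc, comm_ι hx, smul_mul_assoc, mul_assoc, ih, mul_smul_comm, smul_smul, mul_assoc,
      ← pow_add]
    congr 2
    rw [Nat.succ_eq_add_one]; ring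

theorem E_comm (s t : Finset (Fin n)) :
    E F s * E F t = (-1 : F) ^ (s.card * t.card) • (E F t * E F s) :=
  comm_pow (E_mem_pow s) (E_mem_pow t)

end H974T.Gr
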