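import Pool.Agent.H974T.Gr1

/-!
Filtration and parity on the Grassmann algebra.
-/

namespace H974T.Gr

open Finset

variable {F : Type*} [Field F] {n : ℕ}

/-- Span of the monomials of degree at least `k` and parity `p`. -/
noncomputable def S (F : Type*) [Field F] (n k : ℕ) (p : ZMod 2) : Submodule F (Grass F n) :=
  Submodule.span F (E F '' {s | k ≤ s.card ∧ (s.card : ZMod 2) = p})

/-- Span of the monomials of degree at least `k`. -/
noncomputable def Fil (F : Type*) [Field F] (n k : ℕ) : Submodule F (Grass F n) :=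
  S F n k 0 ⊔ S F n k 1

theorem E_mem_S {s : Finset (Fin n)} {k : ℕ} {p : ZMod 2} (h : k ≤ s.card)
    (h2 : (s.card : ZMod 2) = p) : E F s ∈ S F n k p :=
  Submodule.subset_span ⟨s, ⟨h, h2⟩, rfl⟩

theorem E_mem_Fil {s : Finset (Fin n)} {k : ℕ} (h : k ≤ s.card) : E F s ∈ Fil F n k := by
  have h2 : ∀ p : ZMod 2, p = 0 ∨ p = 1 := by decide
  rcases h2 (s.card : ZMod 2) with h3 | h3
  · exact (le_sup_left : S F n k 0 ≤ Fil F n k) (E_mem_S h h3)
  · exact (le_sup_right : S F n k 1 ≤ Fil F n k) (E_mem_S h h3)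

theorem S_le_Fil {k : ℕ} (p : ZMod 2) : S F n k p ≤ Fil F n k := by
  unfold S
  rw [Submodule.span_le]
  rintro _ ⟨s, ⟨h, -⟩, rfl⟩
  exact E_mem_Fil h

theorem S_mono {k l : ℕ} (h : k ≤ l) (p : ZMod 2) : S F n l p ≤ S F n k p := by
  apply Submodule.span_mono
  apply Set.image_mono
  rintro s ⟨h1, h2⟩
  exact ⟨h.trans h1, h2⟩

theorem Fil_mono {k l : ℕ} (h : k ≤ l) : Fil F n l ≤ Fil F n k :=
  sup_le_sup (S_mono h 0) (S_mono h 1)

theorem S_bump {k : ℕ} {p : ZMod 2} (h : (k : ZMod 2) ≠ p) : S F n k p ≤ S F n (k + 1) p := by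
  unfold S
  rw [Submodule.span_le]
  rintro _ ⟨s, ⟨h1, h2⟩, rfl⟩
  refine E_mem_S ?_ h2
  rcases Nat.lt_or_ge k s.card with h3 | h3
  · exact h3
  · exfalso
    have : k = s.card := le_antisymm h1 h3
    subst this
    exact h h2

theorem S_mul {k l : ℕ} {p q : ZMod 2} {x y : Grass F n} (hx : x ∈ S F n k p)
    (hy : y ∈ S F n l q) : x * y ∈ S F n (k + l) (p + q) := by
  unfold S at hx
  induction hx using Submodule.span_induction with
  | zero => simp
  | add a b _ _ iha ihb => rw [add_mul]; exact add_mem iha ihb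
  | smul c a _ ih => rw [smul_mul_assoc]; exact Submodule.smul_mem _ _ ih
  | mem a ha =>
    obtain ⟨s, ⟨h1, h2⟩, rfl⟩ := ha
    unfold S at hy
    induction hy using Submodule.span_induction with
    | zero => simp
    | add a b _ _ iha ihb => rw [mul_add]; exact add_mem iha ihb
    | smul c a _ ih => rw [mul_smul_comm]; exact Submodule.smul_mem _ _ ih
    | mem a ha =>
      obtain ⟨t, ⟨h3, h4⟩, rfl⟩ := ha
      by_cases hd : Disjoint s t
      · obtain ⟨c, -, hc⟩ := E_mul_disj (F := F) hd
        rw [hc]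
        apply Submodule.smul_mem
        apply E_mem_S
        · rw [card_union_of_disjoint hd]; omega
        · rw [card_union_of_disjoint hd, Nat.cast_add, h2, h4]
      · rw [E_mul_not_disj hd]; exact zero_mem _

theorem Fil_mul {k l : ℕ} {x y : Grass F n} (hx : x ∈ Fil F n k) (hy : y ∈ Fil F n l) :
    x * y ∈ Fil F n (k + l) := by
  obtain ⟨x0, hx0, x1, hx1, rfl⟩ := Submodule.mem_sup.1 hx
  obtain ⟨y0, hy0, y1, hy1, rfl⟩ := Submodule.mem_sup.1 hy
  rw [add_mul, mul_add, mul_add]
  exact add_mem (add_mem (S_le_Fil _ (S_mul hx0 hy0)) (S_le_Fil _ (S_mul hx0 hy1)))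
    (add_mem (S_le_Fil _ (S_mul hx1 hy0)) (S_le_Fil _ (S_mul hx1 hy1)))

theorem S_eq_bot {k : ℕ} (h : n < k) (p : ZMod 2) : S F n k p = ⊥ := by
  unfold S
  rw [Submodule.span_eq_bot]
  rintro _ ⟨s, ⟨h1, -⟩, rfl⟩
  exfalso
  have := card_le_univ s
  rw [Fintype.card_fin] at this
  omega

theorem Fil_eq_bot {k : ℕ} (h : n < k) : Fil F n k = ⊥ := by
  unfold Fil
  rw [S_eq_bot h, S_eq_bot h, sup_idem]

theorem Fil_zero {k : ℕ} (h : n < k) {x : Grass F n} (hx : x ∈ Fil F n k) : x = 0 := by
  rw [Fil_eq_bot h] at hx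
  simpa using hx

theorem mem_Fil_zero (x : Grass F n) : x ∈ Fil F n 0 := by
  have : Submodule.span F (Set.range (bas F n)) ≤ Fil F n 0 := by
    rw [Submodule.span_le]
    rintro _ ⟨s, rfl⟩
    exact E_mem_Fil (Nat.zero_le _)
  exact this (by rw [(bas F n).span_eq]; trivial)

theorem decomp {k : ℕ} {x : Grass F n} (hx : x ∈ Fil F n k) :
    ∃ x0 ∈ S F n k 0, ∃ x1 ∈ S F n k 1, x = x0 + x1 := by
  obtain ⟨x0, hx0, x1, hx1, h⟩ := Submodule.mem_sup.1 hx
  exact ⟨x0, hx0, x1, hx1, h.symm⟩

theorem const (x : Grass F n) : ∃ c : F, ∃ y ∈ Fil F n 1, x = c • 1 + y := by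
  have h : x ∈ Submodule.span F (Set.range (bas F n)) := by
    rw [(bas F n).span_eq]; trivial
  induction h using Submodule.span_induction with
  | zero => exact ⟨0, 0, zero_mem _, by simp⟩
  | add a b _ _ iha ihb =>
    obtain ⟨c, y, hy, rfl⟩ := iha
    obtain ⟨d, z, hz, rfl⟩ := ihb
    exact ⟨c + d, y + z, add_mem hy hz, by rw [add_smul]; abel⟩
  | smul r a _ ih =>
    obtain ⟨c, y, hy, rfl⟩ := ih
    exact ⟨r * c, r • y, Submodule.smul_mem _ _ hy, by rw [smul_add, smul_smul]⟩
  | mem a ha =>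
    obtain ⟨s, rfl⟩ := ha
    by_cases hs : s = ∅
    · subst hs
      refine ⟨1, 0, zero_mem _, ?_⟩
      have := E_empty (F := F) (n := n)
      unfold E at this
      rw [this]; simp
    · refine ⟨0, bas F n s, E_mem_Fil (F := F) (s := s) ?_, by simp⟩
      have := Finset.card_pos.2 (Finset.nonempty_iff_ne_empty.2 hs)
      omega

theorem top_eq {x : Grass F n} (hx : x ∈ Fil F n n) : ∃ c : F, x = c • E F univ := by
  have : Fil F n n ≤ Submodule.span F {E F (univ : Finset (Fin n))} := by
    unfold Fil S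
    rw [sup_le_iff, Submodule.span_le, Submodule.span_le]
    have key : ∀ s : Finset (Fin n), n ≤ s.card → s = univ := by
      intro s hs
      apply Finset.eq_univ_of_card
      rw [Fintype.card_fin]
      have := card_le_univ s
      rw [Fintype.card_fin] at this
      omega
    constructor
    · rintro _ ⟨s, ⟨h1, -⟩, rfl⟩
      rw [key s h1]; exact Submodule.subset_span rfl
    · rintro _ ⟨s, ⟨h1, -⟩, rfl⟩
      rw [key s h1]; exact Submodule.subset_span rfl
  obtain ⟨c, hc⟩ := Submodule.mem_span_singleton.1 (this hx)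
  exact ⟨c, hc.symm⟩

theorem even_comm {x : Grass F n} (hx : x ∈ S F n 0 0) (y : Grass F n) : x * y = y * x := by
  have hy : y ∈ Submodule.span F (Set.range (bas F n)) := by
    rw [(bas F n).span_eq]; trivial
  unfold S at hx
  induction hx using Submodule.span_induction with
  | zero => simp
  | add a b _ _ iha ihb => rw [add_mul, mul_add, iha, ihb]
  | smul c a _ ih => rw [smul_mul_assoc, mul_smul_comm, ih]
  | mem a ha =>
    obtain ⟨s, ⟨-, h2⟩, rfl⟩ := ha
    induction hy using Submodule.span_induction with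
    | zero => simp
    | add a b _ _ iha ihb => rw [add_mul, mul_add, iha, ihb]
    | smul c a _ ih => rw [smul_mul_assoc, mul_smul_comm, ih]
    | mem a ha =>
      obtain ⟨t, rfl⟩ := ha
      have := E_comm (F := F) s t
      have h3 : Even (s.card * t.card) :=
        ((ZMod.natCast_eq_zero_iff_even).1 h2).mul_right _
      rw [h3.neg_one_pow, one_smul] at this
      exact this

theorem odd_anticomm {x y : Grass F n} (hx : x ∈ S F n 0 1) (hy : y ∈ S F n 0 1) :
    x * y = - (y * x) := by
  unfold S at hx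
  induction hx using Submodule.span_induction with
  | zero => simp
  | add a b _ _ iha ihb => rw [add_mul, mul_add, iha, ihb]; abel
  | smul c a _ ih => rw [smul_mul_assoc, mul_smul_comm, ih, smul_neg]
  | mem a ha =>
    obtain ⟨s, ⟨-, h2⟩, rfl⟩ := ha
    unfold S at hy
    induction hy using Submodule.span_induction with
    | zero => simp
    | add a b _ _ iha ihb => rw [add_mul, mul_add, iha, ihb]; abel
    | smul c a _ ih => rw [smul_mul_assoc, mul_smul_comm, ih, smul_neg]
    | mem a ha =>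
      obtain ⟨t, ⟨-, h4⟩, rfl⟩ := ha
      have := E_comm (F := F) s t
      have h3 : Odd (s.card * t.card) :=
        ((ZMod.natCast_eq_one_iff_odd).1 h2).mul ((ZMod.natCast_eq_one_iff_odd).1 h4)
      rw [h3.neg_one_pow, neg_one_smul] at this
      exact this

theorem one_ne : (1 : Grass F n) ≠ 0 := by
  rw [← E_empty (F := F)]
  exact (bas F n).ne_zero _

/-- Every nonzero element has a multiple equal to the top monomial. -/
theorem frob {v : Grass F n} (hv : v ≠ 0) : ∃ z : Grass F n, v * z = E F univ := by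
  classical
  -- choose a monomial of minimal degree in the support
  have hne : ((bas F n).repr v).support.Nonempty := by
    rw [Finsupp.support_nonempty_iff]
    intro h
    exact hv ((bas F n).repr.map_eq_zero_iff.1 h)
  obtain ⟨s, hs, hmin⟩ := Finset.exists_min_image _ Finset.card hne
  have hexp : v = ∑ t ∈ ((bas F n).repr v).support, ((bas F n).repr v) t • E F t := by
    conv_lhs => rw [← (bas F n).linearCombination_repr v]
    rfl
  have hd : Disjoint s sᶜ := disjoint_compl_right
  obtain ⟨c, hc, hcc⟩ := E_mul_disj (F := F) hd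
  have hc0 : c ≠ 0 := by rcases hc with rfl | rfl <;> simp
  have hcoef : ((bas F n).repr v) s ≠ 0 := Finsupp.mem_support_iff.1 hs
  have hprod : v * E F sᶜ = (((bas F n).repr v) s * c) • E F univ := by
    conv_lhs => rw [hexp]
    rw [Finset.sum_mul, Finset.sum_eq_single s]
    · rw [smul_mul_assoc, hcc, smul_smul, Finset.union_compl]
    · intro t ht hts
      rw [smul_mul_assoc, E_mul_not_disj, smul_zero]
      intro hdis
      apply hts
      have h1 : t ⊆ s := by
        intro i hi
        by_contra hi2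
        exact (Finset.disjoint_left.1 hdis hi) (Finset.mem_compl.2 hi2)
      exact Finset.eq_of_subset_of_card_le h1 (hmin t ht)
    · intro h; exact absurd hs h
  refine ⟨(((bas F n).repr v) s * c)⁻¹ • E F sᶜ, ?_⟩
  rw [mul_smul_comm, hprod, smul_smul, inv_mul_cancel₀ (mul_ne_zero hcoef hc0), one_smul]

theorem Fil_pow {x : Grass F n} (hx : x ∈ Fil F n 1) (k : ℕ) : x ^ k ∈ Fil F n k := by
  induction k with
  | zero => exact mem_Fil_zero _
  | succ k ih => rw [pow_succ]; exact Fil_mul ih hx

end H974T.Gr
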