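import Pool.Agent.H974T.Gr2

/-!
Rota-Baxter operators of weight zero on Grassmann algebras: the upper bound.
-/

namespace H974T.Gr

open Finset

/-- `R` is a Rota-Baxter operator of weight `0` on the associative algebra `A`. -/
def IsRB {F A : Type*} [Field F] [Ring A] [Algebra F A] (R : A →ₗ[F] A) : Prop :=
  ∀ x y : A, R x * R y = R (R x * y + x * R y)

section general

variable {F : Type*} [Field F] {V : Type*} [AddCommGroup V] [Module F V]

/-- If `T R - R T = R^2` then `ad(T)^k (R) = k! R^{k+1}`, expanded. -/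
theorem ad_sum (T R : Module.End F V) (h : T * R - R * T = R * R) (k : ℕ) :
    ∑ m ∈ range (k + 1), ((-1 : F) ^ (k - m) * (k.choose m : F)) •
      (T ^ m * R * T ^ (k - m)) = (k.factorial : F) • R ^ (k + 1) := by
  -- the derivation ad T
  have hpow : ∀ j : ℕ, T * R ^ j - R ^ j * T = (j : F) • R ^ (j + 1) := by
    intro j
    induction j with
    | zero => simp
    | succ j ih =>
      have e : T * R ^ (j + 1) - R ^ (j + 1) * T
          = (T * R ^ j - R ^ j * T) * R + R ^ j * (T * R - R * T) := by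
        rw [pow_succ]; noncomm_ring
      rw [e, ih, h, smul_mul_assoc, ← pow_succ, Nat.cast_succ, add_smul, one_smul,
        pow_succ R (j + 1), pow_succ R j, mul_assoc]
  set L := LinearMap.mulLeft F T with hL
  set M := LinearMap.mulRight F T with hM
  have hcomm : Commute L (-M) := (LinearMap.commute_mulLeft_right (R := F) T T).neg_right
  have h1 : ∀ k : ℕ, ((L + -M) ^ k) R = (k.factorial : F) • R ^ (k + 1) := by
    intro k
    induction k with
    | zero => simp
    | succ k ih =>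
      rw [pow_succ', Module.End.mul_apply, ih, map_smul, LinearMap.add_apply, LinearMap.neg_apply,
        hL, hM, LinearMap.mulLeft_apply, LinearMap.mulRight_apply, ← sub_eq_add_neg, hpow,
        smul_smul, Nat.factorial_succ, Nat.cast_mul]
      congr 1
      push_cast; ring
  rw [← h1 k, hcomm.add_pow, LinearMap.sum_apply]
  apply Finset.sum_congr rfl
  intro m hm
  have e1 : (L ^ m * (-M) ^ (k - m) * ((k.choose m : ℕ) : Module.End F (Module.End F V))) R
      = (L ^ m) (((-M) ^ (k - m)) (((k.choose m : ℕ) : F) • R)) := by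
    rw [Module.End.mul_apply, Module.End.mul_apply]
    congr 2
    simp [Nat.cast_smul_eq_nsmul]
  rw [e1, map_smul, map_smul, neg_pow M, hL, hM, LinearMap.pow_mulLeft, LinearMap.pow_mulRight]
  have e2 : (((-1 : Module.End F (Module.End F V)) ^ (k - m)
      * LinearMap.mulRight F (T ^ (k - m))) R) = (-1 : F) ^ (k - m) • (R * T ^ (k - m)) := by
    rw [Module.End.mul_apply, LinearMap.mulRight_apply]
    rcases Nat.even_or_odd (k - m) with he | ho
    · rw [he.neg_one_pow (α := F), he.neg_one_pow (α := Module.End F (Module.End F V))]; simp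
    · rw [ho.neg_one_pow (α := F), ho.neg_one_pow (α := Module.End F (Module.End F V))]; simp
  rw [e2, map_smul, LinearMap.mulLeft_apply, smul_smul, mul_comm, mul_assoc]

variable [CharZero F]

theorem ad_vanish (T R : Module.End F V) (h : T * R - R * T = R * R) (k : ℕ) (x : V)
    (hz : ∀ m ≤ k, (T ^ m) (R ((T ^ (k - m)) x)) = 0) : (R ^ (k + 1)) x = 0 := by
  have h1 := congrArg (fun X : Module.End F V => X x) (ad_sum T R h k)
  simp only [LinearMap.sum_apply, LinearMap.smul_apply, Module.End.mul_apply] at h1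
  rw [Finset.sum_eq_zero] at h1
  · have h2 : ((k.factorial : ℕ) : F) ≠ 0 := Nat.cast_ne_zero.2 (Nat.factorial_ne_zero k)
    rcases smul_eq_zero.1 h1.symm with h3 | h3
    · exact absurd h3 h2
    · exact h3
  · intro m hm
    rw [hz m (Nat.lt_succ_iff.1 (Finset.mem_range.1 hm)), smul_zero]

theorem ad_single (T R : Module.End F V) (h : T * R - R * T = R * R) (k m0 : ℕ) (hm0 : m0 ≤ k)
    (x : V) (hz : ∀ m ≤ k, m ≠ m0 → (T ^ m) (R ((T ^ (k - m)) x)) = 0) :
    ((-1 : F) ^ (k - m0) * (k.choose m0 : F)) • (T ^ m0) (R ((T ^ (k - m0)) x))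
      = (k.factorial : F) • (R ^ (k + 1)) x := by
  have h1 := congrArg (fun X : Module.End F V => X x) (ad_sum T R h k)
  simp only [LinearMap.sum_apply, LinearMap.smul_apply, Module.End.mul_apply] at h1
  rw [Finset.sum_eq_single m0] at h1
  · exact h1
  · intro m hm hmm
    rw [hz m (Nat.lt_succ_iff.1 (Finset.mem_range.1 hm)) hmm, smul_zero]
  · intro h2
    exact absurd (Finset.mem_range.2 (Nat.lt_succ_of_le hm0)) h2

end general

section algebra

variable {F A : Type*} [Field F] [Ring A] [Algebra F A] {R : A →ₗ[F] A}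

theorem IsRB.right (hR : IsRB R) :
    LinearMap.mulRight F (R 1) * R - R * LinearMap.mulRight F (R 1) = R * R := by
  ext x
  rw [LinearMap.sub_apply, Module.End.mul_apply, Module.End.mul_apply, Module.End.mul_apply,
    LinearMap.mulRight_apply, LinearMap.mulRight_apply, hR x 1, mul_one, map_add]
  abel

theorem IsRB.left (hR : IsRB R) :
    LinearMap.mulLeft F (R 1) * R - R * LinearMap.mulLeft F (R 1) = R * R := by
  ext x
  rw [LinearMap.sub_apply, Module.End.mul_apply, Module.End.mul_apply, Module.End.mul_apply,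
    LinearMap.mulLeft_apply, LinearMap.mulLeft_apply, hR 1 x, one_mul, map_add]
  abel

theorem IsRB.pow [CharZero F] (hR : IsRB R) (k : ℕ) :
    R ((R 1) ^ k) = ((k + 1 : ℕ) : F)⁻¹ • (R 1) ^ (k + 1) := by
  induction k with
  | zero => simp
  | succ k ih =>
    have h1 := hR ((R 1) ^ k) 1
    rw [mul_one, ih, smul_mul_assoc, ← pow_succ, ← pow_succ, map_add, map_smul] at h1
    have hk1 : ((k + 1 : ℕ) : F) ≠ 0 := Nat.cast_ne_zero.2 (Nat.succ_ne_zero _)
    have hk2 : ((k + 1 + 1 : ℕ) : F) ≠ 0 := Nat.cast_ne_zero.2 (Nat.succ_ne_zero _)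
    have h2 : (R 1) ^ (k + 1 + 1) = ((k + 1 + 1 : ℕ) : F) • R ((R 1) ^ (k + 1)) := by
      have h3 := congrArg (fun z => ((k + 1 : ℕ) : F) • z) h1
      simp only [smul_add, smul_smul, mul_inv_cancel₀ hk1, one_smul] at h3
      rw [h3]
      conv_rhs => rw [Nat.cast_succ, add_smul, one_smul]
      abel
    rw [h2, smul_smul, inv_mul_cancel₀ hk2, one_smul]

end algebra

variable {F : Type*} [Field F] [CharZero F] {n : ℕ} {R : Grass F n →ₗ[F] Grass F n}

theorem isUnit_one_sub {y : Grass F n} (hy : y ∈ Fil F n 1) : IsUnit (1 - y) := by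
  apply IsNilpotent.isUnit_one_sub
  exact ⟨n + 1, Fil_zero (Nat.lt_succ_self n) (Fil_pow hy (n + 1))⟩

theorem IsRB.range (hR : IsRB R) (x : Grass F n) : R x ∈ Fil F n 1 := by
  obtain ⟨c, y, hy, hxy⟩ := const (R x)
  by_cases hc : c = 0
  · rw [hxy, hc, zero_smul, zero_add]; exact hy
  exfalso
  -- w = 1 - u / c nilpotent
  set u := R x with hu
  set w : Grass F n := 1 - c⁻¹ • u with hw
  have hwnil : w ^ (n + 1) = 0 := by
    apply Fil_zero (Nat.lt_succ_self n) (Fil_pow _ (n + 1))
    have : w = (-c⁻¹) • y := by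
      rw [hw, hxy, smul_add, smul_smul, inv_mul_cancel₀ hc, one_smul, neg_smul]; abel
    rw [this]
    exact Submodule.smul_mem _ _ hy
  have hmul : ∀ a b : Grass F n, a ∈ LinearMap.range R → b ∈ LinearMap.range R →
      a * b ∈ LinearMap.range R := by
    rintro _ _ ⟨a, rfl⟩ ⟨b, rfl⟩
    exact ⟨_, (hR a b).symm⟩
  have hur : c⁻¹ • u ∈ LinearMap.range R := Submodule.smul_mem _ _ ⟨x, rfl⟩
  have hpow : ∀ k : ℕ, 1 - w ^ k ∈ LinearMap.range R := by
    intro k
    induction k with
    | zero => simp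
    | succ k ih =>
      have e : 1 - w ^ (k + 1) = (1 - w ^ k) + (c⁻¹ • u - (1 - w ^ k) * (c⁻¹ • u)) := by
        rw [pow_succ]
        have : w ^ k * w = w ^ k - w ^ k * (c⁻¹ • u) := by
          conv_lhs => rw [show w = 1 - c⁻¹ • u from hw]
          rw [mul_sub, mul_one]
        rw [this, sub_mul, one_mul]; abel
      rw [e]
      exact add_mem ih (sub_mem hur (hmul _ _ ih hur))
  have h1 := hpow (n + 1)
  rw [hwnil, sub_zero] at h1
  obtain ⟨z, hz⟩ := h1
  have h2 := hR z z
  rw [hz, one_mul, mul_one, one_mul, map_add, hz] at h2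
  have h3 : (1 : Grass F n) = 0 := by
    have := congrArg (fun t => t - (1 : Grass F n)) h2
    simpa using this.symm
  exact one_ne h3

theorem IsRB.top_gen {F A : Type*} [Field F] [Ring A] [Algebra F A] {R : A →ₗ[F] A}
    (hR : IsRB R) {x z : A} (hxz : R x * z = x) (h2 : x * R z = 0) : R x * (1 - R z) = 0 := by
  have h1 := hR x z
  rw [hxz, h2, add_zero] at h1
  rw [mul_sub, mul_one, h1, sub_self]

theorem IsRB.top (hR : IsRB R) {x : Grass F n} (hx : x ∈ Fil F n n) : R x = 0 := by
  by_contra hv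
  obtain ⟨z, hz⟩ := frob hv
  obtain ⟨c, hc⟩ := top_eq hx
  have hxz : R x * (c • z) = x := by rw [mul_smul_comm, hz, ← hc]
  have h2 : x * R (c • z) = 0 :=
    Fil_zero (k := n + 1) (Nat.lt_succ_self n) (Fil_mul (k := n) (l := 1) hx (hR.range _))
  have h3 := hR.top_gen hxz h2
  exact hv ((isUnit_one_sub (hR.range _)).mul_left_eq_zero.1 h3)

theorem key_ring {A : Type*} [Ring A] {a0 a1 u0 u1 : A} (e1 : a0 * u0 = u0 * a0)
    (e2 : a0 * u1 = u1 * a0) (e3 : u0 * a1 = a1 * u0) (e4 : u1 * a1 = - (a1 * u1)) :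
    (a0 + a1) * (u0 + u1) - (u0 + u1) * (a0 + a1) = a1 * u1 + a1 * u1 := by
  rw [add_mul, mul_add, mul_add, add_mul, mul_add, mul_add, e1, e2, e3, e4]
  abel

theorem IsRB.odd_gen {F A : Type*} [Field F] [CharZero F] [Ring A] [Algebra F A] {R : A →ₗ[F] A}
    (hR : IsRB R) {a z r b c : A} (ha : R 1 = a) (hr : R z = r)
    (h1 : a * z - z * a = b + b) (h2 : a * r - r * a = c + c) : R b = c := by
  have g1 := hR 1 z
  have g2 := hR z 1
  have h3 : R 1 * R z - R z * R 1 = R (R 1 * z - z * R 1) := by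
    rw [g1, g2, ← map_sub]
    congr 1
    rw [one_mul, mul_one]; abel
  rw [hr, ha, h1, h2, ← two_smul F, ← two_smul F b, map_smul] at h3
  have h2' : (2 : F) ≠ 0 := two_ne_zero
  exact (smul_right_injective _ h2' h3).symm

/-- The commutator trick. -/
theorem IsRB.odd (hR : IsRB R) {a0 a1 z0 z1 r0 r1 : Grass F n}
    (ha : R 1 = a0 + a1) (ha0 : a0 ∈ S F n 0 0) (ha1 : a1 ∈ S F n 0 1)
    (hz0 : z0 ∈ S F n 0 0) (hz1 : z1 ∈ S F n 0 1)
    (hr : R (z0 + z1) = r0 + r1) (hr0 : r0 ∈ S F n 0 0) (hr1 : r1 ∈ S F n 0 1) :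
    R (a1 * z1) = a1 * r1 :=
  hR.odd_gen ha hr
    (key_ring (even_comm ha0 z0) (even_comm ha0 z1) (even_comm hz0 a1) (odd_anticomm hz1 ha1))
    (key_ring (even_comm ha0 r0) (even_comm ha0 r1) (even_comm hr0 a1) (odd_anticomm hr1 ha1))

end H974T.Gr
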