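import Pool.Agent.H974T.Gr3

/-!
Rota-Baxter operators of weight zero on Grassmann algebras: `R^n = 0` for `n ≥ 2`.
-/

namespace H974T.Gr

open Finset

variable {F : Type*} [Field F] [CharZero F] {n : ℕ} {R : Grass F n →ₗ[F] Grass F n}

/-- The decomposition data of `R 1`. -/
structure Dat (R : Grass F n →ₗ[F] Grass F n) where
  a0 : Grass F n
  a1 : Grass F n
  ha : R 1 = a0 + a1
  ha0 : a0 ∈ S F n 2 0
  ha1 : a1 ∈ S F n 1 1

omit [CharZero F] in
theorem dec1 {x : Grass F n} (hx : x ∈ Fil F n 1) :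
    ∃ x0 ∈ S F n 2 0, ∃ x1 ∈ S F n 1 1, x = x0 + x1 := by
  obtain ⟨x0, hx0, x1, hx1, h⟩ := decomp hx
  exact ⟨x0, S_bump (by decide) hx0, x1, hx1, h⟩

theorem exists_dat (hR : IsRB R) : Nonempty (Dat R) := by
  obtain ⟨a0, h0, a1, h1, h⟩ := dec1 (hR.range 1)
  exact ⟨⟨a0, a1, h, h0, h1⟩⟩

theorem sq_zero {a1 : Grass F n} (h : a1 ∈ S F n 0 1) : a1 * a1 = 0 := by
  have h1 := odd_anticomm h h
  have h2 : (2 : F) • (a1 * a1) = 0 := by
    rw [two_smul]
    exact eq_neg_iff_add_eq_zero.1 h1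
  exact (smul_eq_zero.1 h2).resolve_left two_ne_zero

theorem ring_pow {A : Type*} [Ring A] {a0 a1 b p : A} (c : a0 * a1 = a1 * a0)
    (h : a1 * a1 = 0) : (p + b * a1) * (a0 + a1) = p * a0 + (b * a0 + p) * a1 := by
  have e1 : b * a1 * a0 = b * a0 * a1 := by rw [mul_assoc, ← c, mul_assoc]
  have e2 : b * a1 * a1 = 0 := by rw [mul_assoc, h, mul_zero]
  rw [mul_add, add_mul, add_mul, e1, e2, add_mul]
  abel

variable (D : Dat R)

namespace Dat

omit [CharZero F] in
theorem a0' : D.a0 ∈ S F n 0 0 := S_mono (Nat.zero_le _) _ D.ha0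

omit [CharZero F] in
theorem a1' : D.a1 ∈ S F n 0 1 := S_mono (Nat.zero_le _) _ D.ha1

omit [CharZero F] in
theorem a0pow (k : ℕ) : D.a0 ^ k ∈ S F n (2 * k) 0 := by
  induction k with
  | zero =>
    rw [pow_zero, ← E_empty (F := F)]
    exact E_mem_S (by simp) (by simp)
  | succ k ih =>
    rw [pow_succ]
    have := S_mul ih D.ha0
    rwa [add_zero] at this

theorem pow (k : ℕ) : ∃ b ∈ S F n (2 * (k - 1)) 0, (R 1) ^ k = D.a0 ^ k + b * D.a1 := by
  induction k with
  | zero => exact ⟨0, zero_mem _, by simp⟩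
  | succ k ih =>
    obtain ⟨b, hb, hk⟩ := ih
    refine ⟨b * D.a0 + D.a0 ^ k, ?_, ?_⟩
    · apply add_mem
      · have := S_mul hb D.ha0
        rw [add_zero] at this
        exact S_mono (by omega) _ this
      · exact S_mono (by omega) _ (D.a0pow k)
    · rw [pow_succ (R 1), hk, D.ha, pow_succ D.a0]
      exact ring_pow (even_comm D.a0' _) (sq_zero D.a1')

include D in
theorem powFil {k : ℕ} (hk : 1 ≤ k) : (R 1) ^ k ∈ Fil F n (2 * k - 1) := by
  obtain ⟨b, hb, h⟩ := D.pow k
  rw [h]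
  apply add_mem
  · exact S_le_Fil 0 (S_mono (by omega) _ (D.a0pow k))
  · have := S_mul hb D.ha1
    exact S_le_Fil _ (S_mono (by omega) _ this)

end Dat

omit [CharZero F] in
theorem T_pow (a : Grass F n) (k : ℕ) (x : Grass F n) :
    (LinearMap.mulRight F a ^ k) x = x * a ^ k := by
  rw [LinearMap.pow_mulRight, LinearMap.mulRight_apply]

omit [CharZero F] in
theorem L_pow (a : Grass F n) (k : ℕ) (x : Grass F n) :
    (LinearMap.mulLeft F a ^ k) x = a ^ k * x := by
  rw [LinearMap.pow_mulLeft, LinearMap.mulLeft_apply]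

theorem ring_a {A : Type*} [Ring A] {r0 r1 p b a1 : A} (h1 : r0 * p = 0) (h2 : r1 * p = 0)
    (h3 : r0 * (b * a1) = 0) (h4 : b * r1 = r1 * b) (h5 : r1 * a1 = - (a1 * r1))
    (h6 : a1 * r1 = 0) : (r0 + r1) * (p + b * a1) = 0 := by
  rw [add_mul, mul_add, mul_add, h1, h2, h3, ← mul_assoc, ← h4, mul_assoc, h5, h6]
  simp

theorem ring_b {A : Type*} [Ring A] {x0 x1 p b a1 : A}
    (h1 : x0 * a1 = a1 * x0) (h2 : b * a1 = a1 * b) (h3 : a1 * a1 = 0) :
    a1 * (x1 * p + x0 * (b * a1)) = a1 * (x1 * p) := by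
  have : a1 * (x0 * (b * a1)) = 0 := by
    rw [h2, ← mul_assoc, ← h1, mul_assoc, ← mul_assoc a1 a1, h3, zero_mul, mul_zero]
  rw [mul_add, this, add_zero]

/-- Upper bound for even `n`. -/
theorem upper_even (m : ℕ) (hm : 1 ≤ m) (hn : n = 2 * m) (hR : IsRB R) (x : Grass F n) :
    (R ^ (2 * m)) x = 0 := by
  obtain ⟨D⟩ := exists_dat hR
  have e : 2 * m = (2 * m - 1) + 1 := by omega
  rw [e]
  apply ad_vanish (LinearMap.mulRight F (R 1)) R hR.right
  intro j hj
  rw [T_pow, T_pow]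
  rcases Nat.lt_or_ge m (2 * m - 1 - j) with h1 | h1
  · -- a ^ i = 0
    have h2 : (R 1) ^ (2 * m - 1 - j) = 0 :=
      Fil_zero (k := 2 * (2 * m - 1 - j) - 1) (by omega) (D.powFil (by omega))
    rw [h2, mul_zero, map_zero, zero_mul]
  rcases Nat.lt_or_ge m j with h2 | h2
  · have h3 : (R 1) ^ j = 0 :=
      Fil_zero (k := 2 * j - 1) (by omega) (D.powFil (by omega))
    rw [h3, mul_zero]
  rcases Nat.lt_or_ge j m with h3 | h3
  · -- i = m, j = m - 1
    have h4 : 2 * m - 1 - j = m := by omega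
    rw [h4]
    obtain ⟨c, y, hy, rfl⟩ := const x
    have h5 : R ((c • 1 + y) * R 1 ^ m) = 0 := by
      rw [add_mul, map_add, smul_mul_assoc, one_mul, map_smul, hR.pow]
      have h6 : (R 1) ^ (m + 1) = 0 :=
        Fil_zero (k := 2 * (m + 1) - 1) (by omega) (D.powFil (by omega))
      rw [h6, smul_zero, smul_zero, zero_add]
      apply hR.top
      exact Fil_mono (by omega) (Fil_mul hy (D.powFil hm))
    rw [h5, zero_mul]
  · -- i = m - 1, j = m
    have h4 : j = m := by omega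
    subst h4
    have h5 : 2 * j - 1 - j = j - 1 := by omega
    rw [h5]
    obtain ⟨x0, hx0, x1, hx1, rfl⟩ := decomp (mem_Fil_zero x)
    have hx1' : x1 ∈ S F n 1 1 := S_bump (by decide) hx1
    obtain ⟨b, hb, hpb⟩ := D.pow (j - 1)
    obtain ⟨b', hb', hpb'⟩ := D.pow j
    have hy : (x0 + x1) * R 1 ^ (j - 1)
        = (x0 * D.a0 ^ (j - 1) + x1 * (b * D.a1)) + (x1 * D.a0 ^ (j - 1) + x0 * (b * D.a1)) := by
      rw [hpb, add_mul, mul_add, mul_add]; abel
    have hb0 : b ∈ S F n 0 0 := S_mono (Nat.zero_le _) _ hb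
    have hp0 : D.a0 ^ (j - 1) ∈ S F n 0 0 := S_mono (Nat.zero_le _) _ (D.a0pow _)
    have hba : b * D.a1 ∈ S F n 0 1 := by
      have := S_mul hb0 D.a1'
      rwa [zero_add] at this
    have hy0 : x0 * D.a0 ^ (j - 1) + x1 * (b * D.a1) ∈ S F n 0 0 := by
      apply add_mem
      · have := S_mul hx0 hp0
        rwa [add_zero] at this
      · have := S_mul hx1 hba
        have e2 : (1 + 1 : ZMod 2) = 0 := by decide
        rwa [e2] at this
    have hy1 : x1 * D.a0 ^ (j - 1) + x0 * (b * D.a1) ∈ S F n 0 1 := by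
      apply add_mem
      · have := S_mul hx1 hp0
        rwa [add_zero] at this
      · have := S_mul hx0 hba
        rwa [zero_add] at this
    rw [hy]
    obtain ⟨r0, hr0, r1, hr1, hr⟩ := dec1 (hR.range
      ((x0 * D.a0 ^ (j - 1) + x1 * (b * D.a1)) + (x1 * D.a0 ^ (j - 1) + x0 * (b * D.a1))))
    have hr0' : r0 ∈ S F n 0 0 := S_mono (Nat.zero_le _) _ hr0
    have hr1' : r1 ∈ S F n 0 1 := S_mono (Nat.zero_le _) _ hr1
    have key := hR.odd D.ha D.a0' D.a1' hy0 hy1 hr hr0' hr1'
    have hz : D.a1 * r1 = 0 := by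
      rw [← key, ring_b (even_comm hx0 _) (even_comm hb0 _) (sq_zero D.a1')]
      apply hR.top
      have := S_mul D.ha1 (S_mul hx1' (D.a0pow (j - 1)))
      exact S_le_Fil _ (S_mono (by omega) _ this)
    rw [hr, hpb']
    apply ring_a
    · exact Fil_zero (k := 2 + 2 * j) (by omega) (S_le_Fil _ (S_mul hr0 (D.a0pow j)))
    · exact Fil_zero (k := 1 + 2 * j) (by omega) (S_le_Fil _ (S_mul hr1 (D.a0pow j)))
    · exact Fil_zero (k := 2 + (2 * (j - 1) + 1)) (by omega)
        (S_le_Fil _ (S_mul hr0 (S_mul hb' D.ha1)))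
    · exact even_comm (S_mono (Nat.zero_le _) _ hb') _
    · exact odd_anticomm hr1' D.a1'
    · exact hz

theorem ring_c {A : Type*} [Ring A] {s0 s1 p b a1 : A}
    (h1 : s0 * p = 0) (h2 : p * s0 = s0 * p) (h3 : p * s1 = s1 * p) (h4 : b * s0 = s0 * b)
    (h5 : b * s1 = s1 * b) (h6 : s0 * a1 = a1 * s0) (h7 : a1 * s1 = 0)
    (h8 : s1 * a1 = - (a1 * s1)) :
    (s0 + s1) * (p + b * a1) = (p + b * a1) * (s0 + s1) := by
  have e1 : s0 * (b * a1) = b * (a1 * s0) := by rw [← mul_assoc, ← h4, mul_assoc, h6]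
  have e2 : s1 * (b * a1) = 0 := by rw [← mul_assoc, ← h5, mul_assoc, h8, h7]; simp
  have e3 : b * a1 * s0 = b * (a1 * s0) := mul_assoc _ _ _
  have e4 : b * a1 * s1 = 0 := by rw [mul_assoc, h7, mul_zero]
  rw [add_mul, mul_add, mul_add, mul_add, add_mul, add_mul, e1, e2, e3, e4, h2, h3, h1]

/-- Upper bound for odd `n ≥ 3`. -/
theorem upper_odd (m : ℕ) (hm : 1 ≤ m) (hn : n = 2 * m + 1) (hR : IsRB R) (x : Grass F n) :
    (R ^ (2 * m + 1)) x = 0 := by
  obtain ⟨D⟩ := exists_dat hR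
  have big : ∀ i, m + 1 ≤ i → ∀ z : Grass F n, R (z * R 1 ^ i) = 0 := by
    intro i hi z
    apply hR.top
    have := Fil_mul (mem_Fil_zero z) (D.powFil (k := i) (by omega))
    exact Fil_mono (by omega) this
  have big' : ∀ i, m + 1 ≤ i → ∀ z : Grass F n, R (R 1 ^ i * z) = 0 := by
    intro i hi z
    apply hR.top
    have := Fil_mul (D.powFil (k := i) (by omega)) (mem_Fil_zero z)
    exact Fil_mono (by omega) this
  have small : ∀ j, m + 1 ≤ j → ∀ z : Grass F n, R z * R 1 ^ j = 0 := by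
    intro j hj z
    exact Fil_zero (k := 1 + (2 * j - 1)) (by omega)
      (Fil_mul (hR.range z) (D.powFil (k := j) (by omega)))
  have small' : ∀ j, m + 1 ≤ j → ∀ z : Grass F n, R 1 ^ j * R z = 0 := by
    intro j hj z
    exact Fil_zero (k := (2 * j - 1) + 1) (by omega)
      (Fil_mul (D.powFil (k := j) (by omega)) (hR.range z))
  have main : ∀ z : Grass F n, R (z * R 1 ^ m) * R 1 ^ m = 0 := by
    intro z
    obtain ⟨c, y, hy, rfl⟩ := const z
    obtain ⟨y0, hy0, y1, hy1, rfl⟩ := dec1 hy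
    obtain ⟨b, hb, hpb⟩ := D.pow m
    have hb0 : b ∈ S F n 0 0 := S_mono (Nat.zero_le _) _ hb
    have hp0 : D.a0 ^ m ∈ S F n 0 0 := S_mono (Nat.zero_le _) _ (D.a0pow _)
    have t1 : R ((c • 1) * R 1 ^ m) * R 1 ^ m = 0 := by
      rw [smul_mul_assoc, one_mul, map_smul, hR.pow, smul_mul_assoc, smul_mul_assoc, ← pow_add]
      have : (R 1) ^ (m + 1 + m) = 0 :=
        Fil_zero (k := 2 * (m + 1 + m) - 1) (by omega) (D.powFil (by omega))
      rw [this, smul_zero, smul_zero]
    have t2 : R (y0 * R 1 ^ m) = 0 := by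
      apply hR.top
      rw [hpb, mul_add]
      apply add_mem
      · exact Fil_mono (by omega) (S_le_Fil _ (S_mul hy0 (D.a0pow m)))
      · exact Fil_mono (by omega) (S_le_Fil _ (S_mul hy0 (S_mul hb D.ha1)))
    have t3 : R (y1 * R 1 ^ m) * R 1 ^ m = 0 := by
      -- both ad formulas
      have g1 := ad_single (LinearMap.mulRight F (R 1)) R hR.right (2 * m) m (by omega) y1 (by
        intro j hj hjm
        rw [T_pow, T_pow]
        rcases Nat.lt_or_ge m j with h | h
        · exact small j (by omega) _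
        · rw [big (2 * m - j) (by omega), zero_mul])
      have g2 := ad_single (LinearMap.mulLeft F (R 1)) R hR.left (2 * m) m (by omega) y1 (by
        intro j hj hjm
        rw [L_pow, L_pow]
        rcases Nat.lt_or_ge m j with h | h
        · exact small' j (by omega) _
        · rw [big' (2 * m - j) (by omega), mul_zero])
      rw [← g2, T_pow, T_pow, L_pow, L_pow, show 2 * m - m = m from by omega] at g1
      have hcoef : ((-1 : F) ^ m * ((2 * m).choose m : F)) ≠ 0 := by
        apply mul_ne_zero (pow_ne_zero _ (by simp))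
        exact Nat.cast_ne_zero.2 (Nat.choose_pos (by omega)).ne'
      have g3 : R (y1 * R 1 ^ m) * R 1 ^ m = R 1 ^ m * R (R 1 ^ m * y1) :=
        smul_right_injective _ hcoef g1
      -- compute the arguments
      have hy1' : y1 ∈ S F n 0 1 := S_mono (Nat.zero_le _) _ hy1
      have w1 : R (y1 * R 1 ^ m) = - R (b * (D.a1 * y1)) := by
        have v1 : y1 * R 1 ^ m = y1 * D.a0 ^ m + y1 * (b * D.a1) := by rw [hpb, mul_add]
        have v2 : y1 * (b * D.a1) = - (b * (D.a1 * y1)) := by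
          rw [← mul_assoc, ← even_comm hb0, mul_assoc, odd_anticomm hy1' D.a1', mul_neg]
        have v3 : R (y1 * D.a0 ^ m) = 0 := by
          apply hR.top
          exact Fil_mono (by omega) (S_le_Fil _ (S_mul hy1 (D.a0pow m)))
        rw [v1, v2, map_add, v3, map_neg, zero_add]
      have w2 : R (R 1 ^ m * y1) = R (b * (D.a1 * y1)) := by
        have v1 : R 1 ^ m * y1 = D.a0 ^ m * y1 + b * (D.a1 * y1) := by
          rw [hpb, add_mul, mul_assoc]
        have v3 : R (D.a0 ^ m * y1) = 0 := by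
          apply hR.top
          exact Fil_mono (by omega) (S_le_Fil _ (S_mul (D.a0pow m) hy1))
        rw [v1, map_add, v3, zero_add]
      obtain ⟨s0, hs0, s1, hs1, hs⟩ := dec1 (hR.range (b * (D.a1 * y1)))
      have hs0' : s0 ∈ S F n 0 0 := S_mono (Nat.zero_le _) _ hs0
      have hs1' : s1 ∈ S F n 0 1 := S_mono (Nat.zero_le _) _ hs1
      have hev : b * (D.a1 * y1) ∈ S F n 0 0 := by
        have := S_mul hb0 (S_mul D.a1' hy1')
        have e2 : (0 + (1 + 1) : ZMod 2) = 0 := by decide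
        rwa [e2] at this
      have key := hR.odd D.ha D.a0' D.a1' hev (zero_mem (S F n 0 1))
        (by rw [add_zero]; exact hs) hs0' hs1'
      rw [mul_zero, map_zero] at key
      have hcomm : R (b * (D.a1 * y1)) * R 1 ^ m = R 1 ^ m * R (b * (D.a1 * y1)) := by
        rw [hs, hpb]
        apply ring_c
        · exact Fil_zero (k := 2 + 2 * m) (by omega) (S_le_Fil _ (S_mul hs0 (D.a0pow m)))
        · exact even_comm hp0 _
        · exact even_comm hp0 _
        · exact even_comm hb0 _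
        · exact even_comm hb0 _
        · exact even_comm hs0' _
        · exact key.symm
        · exact odd_anticomm hs1' D.a1'
      rw [w1, w2, ← hcomm, neg_mul] at g3
      have g4 : (2 : F) • (R (b * (D.a1 * y1)) * R 1 ^ m) = 0 := by
        rw [two_smul]
        exact add_eq_zero_iff_neg_eq.2 g3
      rw [w1, neg_mul, (smul_eq_zero.1 g4).resolve_left two_ne_zero, neg_zero]
    have e : (c • 1 + (y0 + y1)) * R 1 ^ m
        = (c • 1) * R 1 ^ m + (y0 * R 1 ^ m + y1 * R 1 ^ m) := by rw [add_mul, add_mul]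
    rw [e, map_add, map_add, add_mul, add_mul, t1, t2, t3, zero_mul, zero_add, zero_add]
  apply ad_vanish (LinearMap.mulRight F (R 1)) R hR.right
  intro j hj
  rw [T_pow, T_pow]
  rcases Nat.lt_trichotomy j m with h | h | h
  · rw [big (2 * m - j) (by omega), zero_mul]
  · subst h
    rw [show 2 * j - j = j from by omega]
    exact main x
  · exact small j (by omega) _

theorem upper (hn : 2 ≤ n) (hR : IsRB R) : R ^ n = 0 := by
  refine LinearMap.ext fun x => ?_
  rw [LinearMap.zero_apply]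
  rcases Nat.even_or_odd n with h | h
  · obtain ⟨m, hm⟩ := h
    have := upper_even m (by omega) (by omega) hR x
    rwa [show 2 * m = n from by omega] at this
  · obtain ⟨m, hm⟩ := h
    have := upper_odd m (by omega) (by omega) hR x
    rwa [← hm] at this

theorem upper_one (hR : IsRB R) (hn : n = 1) : R ^ 2 = 0 := by
  refine LinearMap.ext fun x => ?_
  rw [LinearMap.zero_apply]
  have h1 := congrArg (fun X : Module.End F (Grass F n) => X x) hR.right
  simp only [LinearMap.sub_apply, Module.End.mul_apply, LinearMap.mulRight_apply] at h1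
  rw [pow_two, Module.End.mul_apply, ← h1]
  have h2 : R x * R 1 = 0 :=
    Fil_zero (k := 1 + 1) (by omega) (Fil_mul (hR.range x) (hR.range 1))
  have h3 : R (x * R 1) = 0 := by
    apply hR.top
    exact Fil_mono (by omega) (Fil_mul (mem_Fil_zero x) (hR.range 1))
  rw [h2, h3, sub_zero]

end H974T.Gr
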