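import Pool.Agent.H974T.Gr4

/-!
Rota-Baxter operators of weight zero on Grassmann algebras: an operator with `R^(n-1) ≠ 0`.
-/

namespace H974T.Gr

open Finset

variable {F : Type*} [Field F] {n : ℕ}

/-- Weights of the generators. -/
def wN (m j : ℕ) : ℤ :=
  if j = 0 then -(2 * m) else if j = 1 then 0 else if j = 2 * m then 2 * m + 2 else 1

/-- Weight of a monomial. -/
def wt (m : ℕ) (s : Finset (Fin n)) : ℤ := ∑ j ∈ s, wN m j.val

/-- The pairs. -/
def P (n m i : ℕ) : Finset (Fin n) :=
  if i = m - 1 then univ.filter (fun j => j.val = 0 ∨ j.val = 2 * m)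
  else univ.filter (fun j => j.val = 2 * i + 2 ∨ j.val = 2 * i + 3)

/-- The special monomial. -/
def s0 (n m : ℕ) : Finset (Fin n) :=
  univ.filter (fun j => j.val = 0 ∨ (2 ≤ j.val ∧ j.val < 2 * m))

theorem wt_union {m : ℕ} {s t : Finset (Fin n)} (h : Disjoint s t) :
    wt m (s ∪ t) = wt m s + wt m t := by
  unfold wt
  rw [Finset.sum_union h]

section comb

variable {m : ℕ} (hm : 1 ≤ m) (h1 : 2 * m ≤ n) (h2 : n ≤ 2 * m + 1)

include hm h1 h2

theorem P_pair {i : ℕ} (hi : i < n - m - 1) :
    ∃ x y : Fin n, x ≠ y ∧ P n m i = {x, y} ∧ wN m x.val + wN m y.val = 2 ∧ x.val ≠ 1 ∧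
      y.val ≠ 1 := by
  by_cases him : i = m - 1
  · have hn : n = 2 * m + 1 := by omega
    refine ⟨⟨0, by omega⟩, ⟨2 * m, by omega⟩, ?_, ?_, ?_, ?_, ?_⟩
    · intro h
      have := congrArg Fin.val h
      simp only at this
      omega
    · unfold P
      rw [if_pos him]
      ext j
      simp [Fin.ext_iff]
    · simp only [wN]
      rw [if_neg (show ¬ (2 * m = 0) by omega), if_neg (show ¬ (2 * m = 1) by omega)]
      simp only [if_true]
      ring
    · simp
    · simp only; omega
  · refine ⟨⟨2 * i + 2, by omega⟩, ⟨2 * i + 3, by omega⟩, ?_, ?_, ?_, ?_, ?_⟩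
    · intro h
      have := congrArg Fin.val h
      simp only at this
      omega
    · unfold P
      rw [if_neg him]
      ext j
      simp [Fin.ext_iff]
    · simp only [wN]
      rw [if_neg (by omega), if_neg (by omega), if_neg (by omega), if_neg (by omega),
        if_neg (by omega), if_neg (by omega)]
      norm_num
    · simp only; omega
    · simp only; omega

theorem P_card {i : ℕ} (hi : i < n - m - 1) : (P n m i).card = 2 := by
  obtain ⟨x, y, hxy, hP, -⟩ := P_pair hm h1 h2 hi
  rw [hP, Finset.card_pair hxy]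

theorem P_wt {i : ℕ} (hi : i < n - m - 1) : wt m (P n m i) = 2 := by
  obtain ⟨x, y, hxy, hP, hw, -⟩ := P_pair hm h1 h2 hi
  unfold wt
  rw [hP, Finset.sum_pair hxy, hw]

omit hm h1 h2 in
theorem P_disj {i j : ℕ} (_hi : i < n - m - 1) (_hj : j < n - m - 1) (hij : i ≠ j)
    (h2 : n ≤ 2 * m + 1) : Disjoint (P n m i) (P n m j) := by
  rw [Finset.disjoint_left]
  intro a ha hb
  unfold P at ha hb
  split_ifs at ha hb <;> simp only [mem_filter, mem_univ, true_and] at ha hb <;> omega

omit hm h1 h2 in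
theorem P_one {i : ℕ} (_hm : 1 ≤ m) (a : Fin n) (ha : a.val = 1) : a ∉ P n m i := by
  unfold P
  intro h
  split_ifs at h <;> simp only [mem_filter, mem_univ, true_and] at h <;> omega

/-- Sets of negative type. -/
def Neg (m : ℕ) (s : Finset (Fin n)) : Prop :=
  (∃ j ∈ s, j.val = 0) ∧ ∀ j ∈ s, j.val ≠ 2 * m

omit h1 h2 in
theorem neg_of_wt {s : Finset (Fin n)} (h : wt m s < 0) : Neg m s := by
  by_contra hneg
  apply absurd h
  rw [not_lt]
  by_cases h0 : ∃ j ∈ s, j.val = 0
  · obtain ⟨x, hx, hx0⟩ := h0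
    have h3 : ∃ j ∈ s, j.val = 2 * m := by
      by_contra h4
      apply hneg
      refine ⟨⟨x, hx, hx0⟩, ?_⟩
      intro j hj hj2
      exact h4 ⟨j, hj, hj2⟩
    obtain ⟨y, hy, hy0⟩ := h3
    have hxy : x ≠ y := by
      intro h5
      rw [h5, hy0] at hx0
      omega
    have hsub : ({x, y} : Finset (Fin n)) ⊆ s := by
      intro z hz
      rcases Finset.mem_insert.1 hz with rfl | hz
      · exact hx
      · rw [Finset.mem_singleton.1 hz]; exact hy
    unfold wt
    rw [← Finset.sum_sdiff hsub, Finset.sum_pair hxy]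
    have e1 : wN m x.val + wN m y.val = 2 := by
      unfold wN
      rw [if_pos hx0, hy0, if_neg (by omega), if_neg (by omega), if_pos rfl]
      ring
    rw [e1]
    have e2 : 0 ≤ ∑ j ∈ s \ {x, y}, wN m j.val := by
      apply Finset.sum_nonneg
      intro j hj
      rw [Finset.mem_sdiff] at hj
      have hj0 : j.val ≠ 0 := by
        intro h6
        apply hj.2
        have : j = x := Fin.ext (by rw [h6, hx0])
        rw [this]; exact Finset.mem_insert_self _ _
      unfold wN
      rw [if_neg hj0]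
      split_ifs <;> omega
    omega
  · unfold wt
    apply Finset.sum_nonneg
    intro j hj
    have hj0 : j.val ≠ 0 := fun h6 => h0 ⟨j, hj, h6⟩
    unfold wN
    rw [if_neg hj0]
    split_ifs <;> omega

omit h1 in
theorem wt_le_of_neg {s : Finset (Fin n)} (h : Neg m s) : wt m s ≤ -2 := by
  obtain ⟨⟨x, hx, hx0⟩, h4⟩ := h
  unfold wt
  rw [← Finset.add_sum_erase s _ hx]
  have e1 : wN m x.val = -(2 * m) := by unfold wN; rw [if_pos hx0]
  have e2 : ∑ j ∈ s.erase x, wN m j.val
      ≤ ∑ j ∈ s.erase x, (if 2 ≤ j.val ∧ j.val < 2 * m then (1 : ℤ) else 0) := by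
    apply Finset.sum_le_sum
    intro j hj
    rw [Finset.mem_erase] at hj
    have hj0 : j.val ≠ 0 := by
      intro h6
      apply hj.1
      exact Fin.ext (by rw [h6, hx0])
    have hj2 := h4 j hj.2
    have hjn := j.2
    unfold wN
    rw [if_neg hj0]
    split_ifs <;> omega
  have e3 : ∑ j ∈ s.erase x, (if 2 ≤ j.val ∧ j.val < 2 * m then (1 : ℤ) else 0)
      ≤ 2 * m - 2 := by
    rw [Finset.sum_ite, Finset.sum_const_zero, add_zero, Finset.sum_const, nsmul_eq_mul, mul_one]
    have e4 : ((s.erase x).filter (fun j => 2 ≤ j.val ∧ j.val < 2 * m)).card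
        ≤ (Finset.Ico 2 (2 * m)).card := by
      apply Finset.card_le_card_of_injOn (fun j => j.val)
      · intro j hj
        have := (Finset.mem_filter.1 hj).2
        exact Finset.mem_coe.2 (Finset.mem_Ico.2 this)
      · intro a _ b _ hab
        exact Fin.ext hab
    rw [Nat.card_Ico] at e4
    omega
  omega

end comb

/-- Span of the monomials of weight `μ`. -/
noncomputable def W (F : Type*) [Field F] (n m : ℕ) (μ : ℤ) : Submodule F (Grass F n) :=
  Submodule.span F (E F '' {s | wt m s = μ})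

/-- Span of the monomials of negative type of weight `μ`. -/
noncomputable def NW (F : Type*) [Field F] (n m : ℕ) (μ : ℤ) : Submodule F (Grass F n) :=
  Submodule.span F (E F '' {s | Neg m s ∧ wt m s = μ})

theorem E_mem_W {m : ℕ} (s : Finset (Fin n)) {μ : ℤ} (h : wt m s = μ) : E F s ∈ W F n m μ :=
  Submodule.subset_span ⟨s, h, rfl⟩

theorem W_mul {m : ℕ} {μ ν : ℤ} {x y : Grass F n} (hx : x ∈ W F n m μ) (hy : y ∈ W F n m ν) :
    x * y ∈ W F n m (μ + ν) := by
  unfold W at hx
  induction hx using Submodule.span_induction with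
  | zero => simp
  | add a b _ _ iha ihb => rw [add_mul]; exact add_mem iha ihb
  | smul c a _ ih => rw [smul_mul_assoc]; exact Submodule.smul_mem _ _ ih
  | mem a ha =>
    obtain ⟨s, hs, rfl⟩ := ha
    unfold W at hy
    induction hy using Submodule.span_induction with
    | zero => simp
    | add a b _ _ iha ihb => rw [mul_add]; exact add_mem iha ihb
    | smul c a _ ih => rw [mul_smul_comm]; exact Submodule.smul_mem _ _ ih
    | mem a ha =>
      obtain ⟨t, ht, rfl⟩ := ha
      by_cases hd : Disjoint s t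
      · obtain ⟨c, -, hc⟩ := E_mul_disj (F := F) hd
        rw [hc]
        apply Submodule.smul_mem
        apply E_mem_W
        rw [wt_union hd]
        rw [show wt m s = μ from hs, show wt m t = ν from ht]
      · rw [E_mul_not_disj hd]; exact zero_mem _

/-- The element `a`. -/
noncomputable def aK (F : Type*) [Field F] (n m K : ℕ) : Grass F n :=
  ∑ i ∈ range K, E F (P n m i)

section alg

variable {m : ℕ} (hm : 1 ≤ m) (h1 : 2 * m ≤ n) (h2 : n ≤ 2 * m + 1)

include hm h1 h2

theorem aK_even {K : ℕ} (hK : K ≤ n - m - 1) : aK F n m K ∈ S F n 0 0 := by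
  unfold aK
  apply sum_mem
  intro i hi
  apply E_mem_S (Nat.zero_le _)
  rw [P_card hm h1 h2 (lt_of_lt_of_le (mem_range.1 hi) hK)]
  decide

theorem aK_wt {K : ℕ} (hK : K ≤ n - m - 1) : aK F n m K ∈ W F n m 2 := by
  unfold aK
  apply sum_mem
  intro i hi
  exact E_mem_W _ (P_wt hm h1 h2 (lt_of_lt_of_le (mem_range.1 hi) hK))

theorem W_le_NW {μ : ℤ} (hμ : μ < 0) : W F n m μ ≤ NW F n m μ := by
  unfold W NW
  apply Submodule.span_mono
  apply Set.image_mono
  intro s hs
  refine ⟨neg_of_wt hm ?_, hs⟩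
  rw [show wt m s = μ from hs]; exact hμ

theorem NW_bot {μ : ℤ} (hμ : -2 < μ) : NW F n m μ = ⊥ := by
  unfold NW
  rw [Submodule.span_eq_bot]
  rintro _ ⟨s, ⟨hs1, hs2⟩, rfl⟩
  exfalso
  have := wt_le_of_neg hm h2 hs1
  omega

theorem a_NW {K : ℕ} (hK : K ≤ n - m - 1) {μ : ℤ} {x : Grass F n} (hx : x ∈ NW F n m μ) :
    aK F n m K * x ∈ NW F n m (μ + 2) := by
  unfold NW at hx
  induction hx using Submodule.span_induction with
  | zero => simp
  | add a b _ _ iha ihb => rw [mul_add]; exact add_mem iha ihb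
  | smul c a _ ih => rw [mul_smul_comm]; exact Submodule.smul_mem _ _ ih
  | mem a ha =>
    obtain ⟨s, ⟨hs1, hs2⟩, rfl⟩ := ha
    unfold aK
    rw [Finset.sum_mul]
    apply sum_mem
    intro i hi
    have hi' := lt_of_lt_of_le (mem_range.1 hi) hK
    by_cases hd : Disjoint (P n m i) s
    · obtain ⟨c, -, hc⟩ := E_mul_disj (F := F) hd
      rw [hc]
      apply Submodule.smul_mem
      refine Submodule.subset_span ⟨_, ⟨⟨?_, ?_⟩, ?_⟩, rfl⟩
      · obtain ⟨j, hj, hj0⟩ := hs1.1
        exact ⟨j, Finset.mem_union_right _ hj, hj0⟩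
      · intro j hj hj2
        rcases Finset.mem_union.1 hj with hj | hj
        · -- the pair containing 2m contains 0
          obtain ⟨z, hz, hz0⟩ := hs1.1
          apply (Finset.disjoint_left.1 hd) (a := z) _ hz
          unfold P at hj ⊢
          split_ifs at hj ⊢ with hc1
          · simp only [mem_filter, mem_univ, true_and]; exact Or.inl hz0
          · simp only [mem_filter, mem_univ, true_and] at hj
            omega
        · exact hs1.2 j hj hj2
      · rw [wt_union hd, P_wt hm h1 h2 hi', hs2, add_comm]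
    · rw [E_mul_not_disj hd]; exact zero_mem _

theorem a_W2 {K : ℕ} (hK : K ≤ n - m - 1) {x : Grass F n} (hx : x ∈ W F n m (-2)) :
    aK F n m K * x = 0 := by
  have h3 := a_NW hm h1 h2 hK (W_le_NW hm h1 h2 (by norm_num) hx)
  rw [NW_bot hm h1 h2 (by norm_num)] at h3
  simpa using h3

theorem a_W4 {K : ℕ} (hK : K ≤ n - m - 1) {x : Grass F n} (hx : x ∈ W F n m (-4)) :
    aK F n m K * (aK F n m K * x) = 0 := by
  have h3 := a_NW hm h1 h2 hK (a_NW hm h1 h2 hK (W_le_NW hm h1 h2 (by norm_num) hx))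
  rw [NW_bot hm h1 h2 (by norm_num)] at h3
  simpa using h3

end alg

end H974T.Gr
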