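import Pool.Agent.H974T.Gr5

/-!
The extremal Rota-Baxter operator.
-/

namespace H974T.Gr

open Finset

variable {F : Type*} [Field F] {n : ℕ}

open Classical in
/-- The values of the operator on monomials. -/
noncomputable def Rval (F : Type*) [Field F] (n m : ℕ) (s : Finset (Fin n)) : Grass F n :=
  if wt m s = -2 then
    (if s = s0 n m then E F (univ.filter (fun j : Fin n => j.val = 1)) else 0)
  else ((2 : F) / ((wt m s : F) + 2)) • (aK F n m (n - m - 1) * E F s)

/-- The operator. -/
noncomputable def Rop (F : Type*) [Field F] (n m : ℕ) : Grass F n →ₗ[F] Grass F n :=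
  (bas F n).constr F (Rval F n m)

theorem Rop_E (m : ℕ) (s : Finset (Fin n)) : Rop F n m (E F s) = Rval F n m s := by
  unfold Rop E
  rw [Module.Basis.constr_basis]

theorem Rop_W (m : ℕ) {μ : ℤ} (hμ : μ ≠ -2) {x : Grass F n} (hx : x ∈ W F n m μ) :
    Rop F n m x = ((2 : F) / ((μ : F) + 2)) • (aK F n m (n - m - 1) * x) := by
  unfold W at hx
  induction hx using Submodule.span_induction with
  | zero => simp
  | add a b _ _ iha ihb => rw [map_add, mul_add, smul_add, iha, ihb]
  | smul c a _ ih => rw [map_smul, mul_smul_comm, ih, smul_comm]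
  | mem a ha =>
    obtain ⟨s, hs, rfl⟩ := ha
    rw [Rop_E, Rval, if_neg (by rw [show wt m s = μ from hs]; exact hμ),
      show wt m s = μ from hs]

/-- The vector `e_1`. -/
noncomputable def e1 (F : Type*) [Field F] (n : ℕ) : Grass F n :=
  E F (univ.filter (fun j : Fin n => j.val = 1))

section

variable [CharZero F] {m : ℕ} (hm : 1 ≤ m) (h1 : 2 * m ≤ n) (h2 : n ≤ 2 * m + 1)

theorem ring_A {F A : Type*} [Field F] [Ring A] [Algebra F A] {a x y : A} (hc : a * x = x * a)
    (c d : F) : (c • (a * x)) * (d • (a * y)) = (c * d) • (a * (a * (x * y))) := by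
  rw [smul_mul_smul_comm]
  congr 1
  rw [mul_assoc, ← mul_assoc x a y, ← hc, mul_assoc]

theorem ring_A2 {F A : Type*} [Field F] [Ring A] [Algebra F A] {a x y : A} (hc : a * x = x * a)
    (c d : F) : (c • (a * x)) * y + x * (d • (a * y)) = (c + d) • (a * (x * y)) := by
  rw [smul_mul_assoc, mul_smul_comm, ← mul_assoc x a y, ← hc, mul_assoc, add_smul]

theorem coef {F : Type*} [Field F] {μ ν : F} (h1 : μ + 2 ≠ 0) (h2 : ν + 2 ≠ 0)
    (h3 : μ + ν + 2 + 2 ≠ 0) :
    2 / (μ + 2) * (2 / (ν + 2)) = (2 / (μ + 2) + 2 / (ν + 2)) * (2 / (μ + ν + 2 + 2)) := by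
  field_simp
  ring

theorem coef0 {F : Type*} [Field F] {μ ν : F} (h1 : μ + 2 ≠ 0) (h2 : ν + 2 ≠ 0)
    (h3 : μ + ν + 2 + 2 = 0) : 2 / (μ + 2) + 2 / (ν + 2) = 0 := by
  rw [div_add_div _ _ h1 h2, div_eq_zero_iff]
  left
  linear_combination 2 * h3

theorem castne {μ : ℤ} (h : μ ≠ -2) : (μ : F) + 2 ≠ 0 := by
  intro h3
  apply h
  have : ((μ + 2 : ℤ) : F) = 0 := by push_cast; exact h3
  have := Int.cast_eq_zero.1 this
  omega

omit [CharZero F] in
theorem e1_wt : e1 F n ∈ W F n m 0 := by
  apply E_mem_W
  unfold wt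
  apply Finset.sum_eq_zero
  intro j hj
  have := (mem_filter.1 hj).2
  unfold wN
  rw [if_neg (by omega), if_pos this]

include hm h1

omit [CharZero F] in
theorem e1_card : (univ.filter (fun j : Fin n => j.val = 1)).card = 1 := by
  rw [Finset.card_eq_one]
  refine ⟨⟨1, by omega⟩, ?_⟩
  ext j
  simp [Fin.ext_iff]

omit [CharZero F] in
theorem s0_card : (s0 n m).card = 2 * m - 1 := by
  have : (s0 n m) = insert (⟨0, by omega⟩ : Fin n)
      (univ.filter (fun j : Fin n => 2 ≤ j.val ∧ j.val < 2 * m)) := by
    unfold s0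
    ext j
    simp [Fin.ext_iff]
  rw [this, Finset.card_insert_of_notMem (by simp)]
  have h3 : (univ.filter (fun j : Fin n => 2 ≤ j.val ∧ j.val < 2 * m)).card
      = (Finset.Ico 2 (2 * m)).card := by
    apply Finset.card_bij (fun j _ => j.val)
    · intro j hj
      exact Finset.mem_Ico.2 (Finset.mem_filter.1 hj).2
    · intro a _ b _ hab
      exact Fin.ext hab
    · intro b hb
      have hb' := Finset.mem_Ico.1 hb
      exact ⟨⟨b, by omega⟩, by simp [hb'], rfl⟩
  rw [h3, Nat.card_Ico]
  omega

omit [CharZero F] in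
theorem e1_sq : e1 F n * e1 F n = 0 := by
  unfold e1
  apply E_mul_not_disj
  intro h
  rw [disjoint_self, Finset.bot_eq_empty, ← Finset.card_eq_zero, e1_card hm h1] at h
  omega

/-- The value on weight `-2` monomials. -/
theorem special (s : Finset (Fin n)) (hs : wt m s = -2) :
    (s = s0 n m ∧ Rop F n m (E F s) = e1 F n) ∨ (s ≠ s0 n m ∧ Rop F n m (E F s) = 0) := by
  rw [Rop_E, Rval, if_pos hs]
  by_cases h : s = s0 n m
  · left; refine ⟨h, ?_⟩; rw [if_pos h]; rfl
  · right; refine ⟨h, ?_⟩; rw [if_neg h]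

omit [CharZero F] hm h1 in
theorem e1_not_s0 {s : Finset (Fin n)} (hn : 1 < n)
    (h : univ.filter (fun j : Fin n => j.val = 1) ⊆ s) : s ≠ s0 n m := by
  intro h3
  have h4 : (⟨1, hn⟩ : Fin n) ∈ s := h (by simp)
  rw [h3] at h4
  unfold s0 at h4
  simp at h4

theorem R_e1_mul (s : Finset (Fin n)) (hs : wt m s = -2) :
    Rop F n m (e1 F n * E F s) = 0 ∧ Rop F n m (E F s * e1 F n) = 0 := by
  have key : ∀ t u : Finset (Fin n), wt m t + wt m u = -2 →
      univ.filter (fun j : Fin n => j.val = 1) ⊆ t ∪ u → Rop F n m (E F t * E F u) = 0 := by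
    intro t u htu hsub
    by_cases hd : Disjoint t u
    · obtain ⟨c, -, hc⟩ := E_mul_disj (F := F) hd
      rw [hc, map_smul]
      rcases special (F := F) hm h1 (t ∪ u) (by rw [wt_union hd, htu]) with h | h
      · exact absurd h.1 (e1_not_s0 (by omega) hsub)
      · rw [h.2, smul_zero]
    · rw [E_mul_not_disj hd, map_zero]
  have h3 : wt m (univ.filter (fun j : Fin n => j.val = 1)) = 0 := by
    unfold wt
    apply Finset.sum_eq_zero
    intro j hj
    have := (mem_filter.1 hj).2
    unfold wN
    rw [if_neg (by omega), if_pos this]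
  exact ⟨key _ _ (by rw [h3, hs]; norm_num) Finset.subset_union_left,
    key _ _ (by rw [h3, hs]; norm_num) Finset.subset_union_right⟩

include h2

theorem rb_pair (s t : Finset (Fin n)) :
    Rop F n m (E F s) * Rop F n m (E F t)
      = Rop F n m (Rop F n m (E F s) * E F t + E F s * Rop F n m (E F t)) := by
  have hae := aK_even (F := F) hm h1 h2 (le_refl (n - m - 1))
  have haw := aK_wt (F := F) hm h1 h2 (le_refl (n - m - 1))
  have hE : ∀ u : Finset (Fin n), E F u ∈ W F n m (wt m u) := fun u => E_mem_W u rfl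
  by_cases hs : wt m s = -2
  · have has : aK F n m (n - m - 1) * E F s = 0 :=
      a_W2 hm h1 h2 (le_refl _) (by rw [← hs]; exact hE s)
    have has' : E F s * aK F n m (n - m - 1) = 0 := by rw [← even_comm hae, has]
    by_cases ht : wt m t = -2
    · -- both special
      rcases special (F := F) hm h1 s hs with ⟨hs1, hs2⟩ | ⟨hs1, hs2⟩
      · rcases special (F := F) hm h1 t ht with ⟨ht1, ht2⟩ | ⟨ht1, ht2⟩
        · rw [hs2, ht2, e1_sq hm h1, hs1, ht1]
          have ho : e1 F n * E F (s0 n m) = - (E F (s0 n m) * e1 F n) := by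
            apply odd_anticomm
            · apply E_mem_S (Nat.zero_le _)
              rw [e1_card hm h1]; decide
            · apply E_mem_S (Nat.zero_le _)
              rw [s0_card hm h1]
              apply (ZMod.natCast_eq_one_iff_odd).2
              exact ⟨m - 1, by omega⟩
          rw [ho, neg_add_cancel, map_zero]
        · rw [hs2, ht2, mul_zero, mul_zero, add_zero, (R_e1_mul hm h1 t ht).1]
      · rcases special (F := F) hm h1 t ht with ⟨ht1, ht2⟩ | ⟨ht1, ht2⟩
        · rw [hs2, ht2, zero_mul, zero_mul, zero_add, (R_e1_mul hm h1 s hs).2]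
        · rw [hs2, ht2, zero_mul, zero_mul, mul_zero, add_zero, map_zero]
    · have hRt := Rop_W (F := F) m ht (hE t)
      have hprod : E F s * Rop F n m (E F t) = 0 := by
        rw [hRt, mul_smul_comm, ← mul_assoc, has', zero_mul, smul_zero]
      rw [hprod, add_zero]
      rcases special (F := F) hm h1 s hs with ⟨-, hs2⟩ | ⟨-, hs2⟩
      · rw [hs2]
        have h5 : e1 F n * E F t ∈ W F n m (wt m t) := by
          have := W_mul (e1_wt (F := F) (n := n) (m := m)) (hE t)
          rwa [zero_add] at this
        rw [Rop_W (F := F) m ht h5, hRt, mul_smul_comm, ← mul_assoc, ← mul_assoc,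
          even_comm hae (e1 F n)]
      · rw [hs2, zero_mul, zero_mul, map_zero]
  · have hRs := Rop_W (F := F) m hs (hE s)
    by_cases ht : wt m t = -2
    · have hat : aK F n m (n - m - 1) * E F t = 0 :=
        a_W2 hm h1 h2 (le_refl _) (by rw [← ht]; exact hE t)
      have hprod : Rop F n m (E F s) * E F t = 0 := by
        rw [hRs, smul_mul_assoc, even_comm hae, mul_assoc, hat, mul_zero, smul_zero]
      rw [hprod, zero_add]
      rcases special (F := F) hm h1 t ht with ⟨-, ht2⟩ | ⟨-, ht2⟩
      · rw [ht2]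
        have h5 : E F s * e1 F n ∈ W F n m (wt m s) := by
          have := W_mul (hE s) (e1_wt (F := F) (n := n) (m := m))
          rwa [add_zero] at this
        rw [Rop_W (F := F) m hs h5, hRs, smul_mul_assoc, mul_assoc]
      · rw [ht2, mul_zero, mul_zero, map_zero]
    · have hRt := Rop_W (F := F) m ht (hE t)
      rw [hRs, hRt, ring_A (even_comm hae _), ring_A2 (even_comm hae _), map_smul]
      have hxy := W_mul (hE s) (hE t)
      have haxy := W_mul haw hxy
      by_cases h5 : 2 + (wt m s + wt m t) = -2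
      · have h6 : wt m s + wt m t = -4 := by omega
        rw [a_W4 hm h1 h2 (le_refl _) (by rw [← h6]; exact hxy), smul_zero]
        have h7 := coef0 (castne (F := F) hs) (castne (F := F) ht) (by
          have : ((wt m s + wt m t : ℤ) : F) = ((-4 : ℤ) : F) := by rw [h6]
          push_cast at this
          rw [this]; norm_num)
        rw [h7, zero_smul]
      · rw [Rop_W (F := F) m h5 haxy, smul_smul]
        congr 1
        have h8 := castne (F := F) h5
        rw [coef (castne (F := F) hs) (castne (F := F) ht) (by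
          intro h9; apply h8; push_cast; rw [← h9]; ring)]
        congr 2
        push_cast; ring

theorem rb_Rop : IsRB (Rop F n m) := by
  intro x y
  have hx : x ∈ Submodule.span F (Set.range (bas F n)) := by
    rw [(bas F n).span_eq]; trivial
  have hy : y ∈ Submodule.span F (Set.range (bas F n)) := by
    rw [(bas F n).span_eq]; trivial
  induction hx using Submodule.span_induction with
  | zero => simp
  | add a b _ _ iha ihb =>
    rw [map_add, add_mul, iha, ihb, ← map_add]
    congr 1
    rw [add_mul, add_mul]; abel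
  | smul c a _ ih =>
    rw [map_smul, smul_mul_assoc, ih, ← map_smul]
    congr 1
    rw [smul_mul_assoc, smul_mul_assoc, smul_add]
  | mem a ha =>
    obtain ⟨s, rfl⟩ := ha
    induction hy using Submodule.span_induction with
    | zero => simp
    | add a b _ _ iha ihb =>
      rw [map_add, mul_add, iha, ihb, ← map_add]
      congr 1
      rw [mul_add, mul_add]; abel
    | smul c a _ ih =>
      rw [map_smul, mul_smul_comm, ih, ← map_smul]
      congr 1
      rw [mul_smul_comm, mul_smul_comm, smul_add]
    | mem a ha =>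
      obtain ⟨t, rfl⟩ := ha
      exact rb_pair hm h1 h2 s t

end

end H974T.Gr
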