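import Pool.Agent.H974T.Gr6

/-!
The extremal operator has `R^(n-1) ≠ 0`.
-/

namespace H974T.Gr

open Finset

variable {F : Type*} [Field F] [CharZero F] {n : ℕ}

theorem add_pow_sq {A : Type*} [Ring A] {b u : A} (hc : b * u = u * b) (hu : u * u = 0) (k : ℕ) :
    (b + u) ^ (k + 1) = b ^ (k + 1) + ((k + 1 : ℕ) : A) * (u * b ^ k) := by
  induction k with
  | zero => simp
  | succ k ih =>
    have hcu : b ^ (k + 1) * u = u * b ^ (k + 1) := (Commute.pow_left hc (k + 1)).eq
    have e1 : ((k + 1 : ℕ) : A) * (u * b ^ k) * b = ((k + 1 : ℕ) : A) * (u * b ^ (k + 1)) := by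
      rw [mul_assoc, mul_assoc, ← pow_succ]
    have e2 : ((k + 1 : ℕ) : A) * (u * b ^ k) * u = 0 := by
      have h3 : b ^ k * u = u * b ^ k := (Commute.pow_left hc k).eq
      rw [mul_assoc, mul_assoc, h3, ← mul_assoc u u, hu, zero_mul, mul_zero]
    rw [pow_succ (b + u) (k + 1), ih, mul_add, add_mul, add_mul, e1, e2, hcu, ← pow_succ,
      Nat.cast_succ (k + 1), add_mul, one_mul]
    abel

variable {m : ℕ} (hm : 1 ≤ m) (h1 : 2 * m ≤ n) (h2 : n ≤ 2 * m + 1)

include hm h1 h2

theorem aK_pow (K : ℕ) (hK : K ≤ n - m - 1) :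
    (aK F n m K) ^ (K + 1) = 0 ∧
    ∃ c : F, c ≠ 0 ∧ (aK F n m K) ^ K = c • E F ((range K).biUnion (P n m)) := by
  induction K with
  | zero =>
    refine ⟨?_, 1, one_ne_zero, ?_⟩
    · simp [aK]
    · rw [pow_zero, range_zero, biUnion_empty, E_empty, one_smul]
  | succ K ih =>
    obtain ⟨ih1, c, hc, ih2⟩ := ih (by omega)
    have hs : aK F n m (K + 1) = aK F n m K + E F (P n m K) := by
      unfold aK; rw [sum_range_succ]
    have hcomm : aK F n m K * E F (P n m K) = E F (P n m K) * aK F n m K :=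
      even_comm (aK_even hm h1 h2 (by omega)) _
    have hsq : E F (P n m K) * E F (P n m K) = 0 := by
      apply E_mul_not_disj
      intro h
      rw [disjoint_self, Finset.bot_eq_empty, ← Finset.card_eq_zero,
        P_card hm h1 h2 (by omega)] at h
      omega
    constructor
    · rw [hs, add_pow_sq hcomm hsq, pow_succ, ih1, zero_mul, mul_zero, mul_zero, add_zero]
    · have hd : Disjoint (P n m K) ((range K).biUnion (P n m)) := by
        rw [Finset.disjoint_biUnion_right]
        intro i hi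
        have := mem_range.1 hi
        exact P_disj (by omega) (by omega) (by omega) h2
      obtain ⟨d, hd1, hd2⟩ := E_mul_disj (F := F) hd
      have hd0 : d ≠ 0 := by rcases hd1 with rfl | rfl <;> simp
      refine ⟨((K + 1 : ℕ) : F) * (c * d), ?_, ?_⟩
      · exact mul_ne_zero (Nat.cast_ne_zero.2 (Nat.succ_ne_zero _)) (mul_ne_zero hc hd0)
      · rw [hs, add_pow_sq hcomm hsq, ih1, zero_add, ih2, mul_smul_comm, hd2, smul_smul]
        have e : (range (K + 1)).biUnion (P n m) = P n m K ∪ (range K).biUnion (P n m) := by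
          rw [Finset.range_add_one, Finset.biUnion_insert]
        rw [e]
        have e2 : ((K + 1 : ℕ) : Grass F n) = algebraMap F (Grass F n) ((K + 1 : ℕ) : F) := by
          rw [map_natCast]
        rw [e2, ← Algebra.smul_def, smul_smul]

omit h2 in
theorem zero_wt : wt m (univ.filter (fun j : Fin n => j.val = 0)) = -(2 * m) := by
  have : (univ.filter (fun j : Fin n => j.val = 0)) = {(⟨0, by omega⟩ : Fin n)} := by
    ext j; simp [Fin.ext_iff]
  rw [this]
  unfold wt
  rw [Finset.sum_singleton]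
  unfold wN
  rw [if_pos rfl]

/-- First half of the chain. -/
theorem chain1 (k : ℕ) (hk : k ≤ m - 1) : ∃ c : F, c ≠ 0 ∧
    (Rop F n m ^ k) (E F (univ.filter (fun j : Fin n => j.val = 0)))
      = c • ((aK F n m (n - m - 1)) ^ k * E F (univ.filter (fun j : Fin n => j.val = 0))) ∧
    (aK F n m (n - m - 1)) ^ k * E F (univ.filter (fun j : Fin n => j.val = 0))
      ∈ W F n m (-(2 * m) + 2 * k) := by
  induction k with
  | zero =>
    refine ⟨1, one_ne_zero, by simp, ?_⟩
    rw [pow_zero, one_mul]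
    apply E_mem_W
    rw [zero_wt hm h1]; simp
  | succ k ih =>
    obtain ⟨c, hc, ih1, ih2⟩ := ih (by omega)
    have hne : (-(2 * m : ℤ) + 2 * k) ≠ -2 := by omega
    have h5 := Rop_W (F := F) m hne ih2
    have h6 := castne (F := F) hne
    refine ⟨c * (2 / (((-(2 * m : ℤ) + 2 * k : ℤ) : F) + 2)), ?_, ?_, ?_⟩
    · exact mul_ne_zero hc (div_ne_zero two_ne_zero h6)
    · rw [pow_succ', Module.End.mul_apply, ih1, map_smul, h5, smul_smul, ← mul_assoc, ← pow_succ']
    · rw [pow_succ', mul_assoc]
      have := W_mul (aK_wt (F := F) hm h1 h2 (le_refl (n - m - 1))) ih2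
      rw [show (2 + (-(2 * m : ℤ) + 2 * k) : ℤ) = -(2 * m : ℤ) + 2 * ((k + 1 : ℕ) : ℤ) from by
        push_cast; ring] at this
      exact this

/-- Second half of the chain. -/
theorem chain2 (k : ℕ) : ∃ c : F, c ≠ 0 ∧
    (Rop F n m ^ k) (e1 F n) = c • ((aK F n m (n - m - 1)) ^ k * e1 F n) ∧
    (aK F n m (n - m - 1)) ^ k * e1 F n ∈ W F n m (2 * k) := by
  induction k with
  | zero =>
    refine ⟨1, one_ne_zero, by simp, ?_⟩
    rw [pow_zero, one_mul]
    have := e1_wt (F := F) (n := n) (m := m)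
    simpa using this
  | succ k ih =>
    obtain ⟨c, hc, ih1, ih2⟩ := ih
    have hne : (2 * k : ℤ) ≠ -2 := by omega
    have h5 := Rop_W (F := F) m hne ih2
    have h6 := castne (F := F) hne
    refine ⟨c * (2 / (((2 * k : ℤ) : F) + 2)), ?_, ?_, ?_⟩
    · exact mul_ne_zero hc (div_ne_zero two_ne_zero h6)
    · rw [pow_succ', Module.End.mul_apply, ih1, map_smul, h5, smul_smul, ← mul_assoc, ← pow_succ']
    · rw [pow_succ', mul_assoc]
      have := W_mul (aK_wt (F := F) hm h1 h2 (le_refl (n - m - 1))) ih2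
      rw [show (2 + 2 * k : ℤ) = 2 * ((k + 1 : ℕ) : ℤ) from by push_cast; ring] at this
      exact this

theorem top2 : (aK F n m (n - m - 1)) ^ (n - m - 1) * e1 F n ≠ 0 := by
  obtain ⟨-, c, hc, h3⟩ := aK_pow (F := F) hm h1 h2 (n - m - 1) (le_refl _)
  rw [h3]
  unfold e1
  have hd : Disjoint ((range (n - m - 1)).biUnion (P n m))
      (univ.filter (fun j : Fin n => j.val = 1)) := by
    rw [Finset.disjoint_left]
    intro a ha hb
    obtain ⟨i, -, hi⟩ := Finset.mem_biUnion.1 ha
    exact P_one hm a (mem_filter.1 hb).2 hi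
  obtain ⟨d, hd1, hd2⟩ := E_mul_disj (F := F) hd
  have hd0 : d ≠ 0 := by rcases hd1 with rfl | rfl <;> simp
  rw [smul_mul_assoc, hd2, smul_smul]
  exact smul_ne_zero (mul_ne_zero hc hd0) ((bas F n).ne_zero _)

theorem top1 : ∃ c : F, c ≠ 0 ∧ (aK F n m (n - m - 1)) ^ (m - 1) *
    E F (univ.filter (fun j : Fin n => j.val = 0)) = c • E F (s0 n m) := by
  -- only the first m - 1 pairs matter
  have hred : ∀ k : ℕ, (aK F n m (n - m - 1)) ^ k *
      E F (univ.filter (fun j : Fin n => j.val = 0)) = (aK F n m (m - 1)) ^ k *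
      E F (univ.filter (fun j : Fin n => j.val = 0)) := by
    have hone : aK F n m (n - m - 1) * E F (univ.filter (fun j : Fin n => j.val = 0))
        = aK F n m (m - 1) * E F (univ.filter (fun j : Fin n => j.val = 0)) := by
      rcases Nat.lt_or_ge (2 * m) n with h | h
      · have e : n - m - 1 = (m - 1) + 1 := by omega
        rw [e]
        have hs : aK F n m (m - 1 + 1) = aK F n m (m - 1) + E F (P n m (m - 1)) := by
          unfold aK; rw [sum_range_succ]
        rw [hs, add_mul, E_mul_not_disj, add_zero]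
        intro hd
        have h3 : (⟨0, by omega⟩ : Fin n) ∈ P n m (m - 1) := by
          unfold P; rw [if_pos rfl]; simp
        exact (Finset.disjoint_left.1 hd h3) (by simp)
      · have e : n - m - 1 = m - 1 := by omega
        rw [e]
    intro k
    induction k with
    | zero => rw [pow_zero, pow_zero]
    | succ k ih =>
      rw [pow_succ', mul_assoc, ih, ← mul_assoc, even_comm (aK_even hm h1 h2 (le_refl _)),
        mul_assoc, hone, ← mul_assoc, ← pow_succ]
  rw [hred]
  obtain ⟨-, c, hc, h3⟩ := aK_pow (F := F) hm h1 h2 (m - 1) (by omega)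
  rw [h3]
  have hd : Disjoint ((range (m - 1)).biUnion (P n m))
      (univ.filter (fun j : Fin n => j.val = 0)) := by
    rw [Finset.disjoint_left]
    intro a ha hb
    obtain ⟨i, hi1, hi⟩ := Finset.mem_biUnion.1 ha
    have := mem_range.1 hi1
    unfold P at hi
    rw [if_neg (by omega)] at hi
    have h5 := (mem_filter.1 hb).2
    have h6 := (mem_filter.1 hi).2
    omega
  obtain ⟨d, hd1, hd2⟩ := E_mul_disj (F := F) hd
  have hd0 : d ≠ 0 := by rcases hd1 with rfl | rfl <;> simp
  refine ⟨c * d, mul_ne_zero hc hd0, ?_⟩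
  rw [smul_mul_assoc, hd2, smul_smul]
  congr 2
  ext j
  rw [Finset.mem_union, Finset.mem_biUnion]
  unfold s0
  simp only [mem_filter, mem_univ, true_and]
  constructor
  · rintro (⟨i, hi1, hi⟩ | h)
    · have := mem_range.1 hi1
      unfold P at hi
      rw [if_neg (by omega)] at hi
      have h6 := (mem_filter.1 hi).2
      omega
    · exact Or.inl h
  · rintro (h | ⟨h3, h4⟩)
    · exact Or.inr h
    · left
      refine ⟨j.val / 2 - 1, mem_range.2 (by omega), ?_⟩
      unfold P
      rw [if_neg (by omega)]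
      simp only [mem_filter, mem_univ, true_and]
      omega

theorem Rop_pow_ne : Rop F n m ^ (n - 1) ≠ 0 := by
  intro h0
  have e : n - 1 = (n - m - 1) + (1 + (m - 1)) := by omega
  have h3 := congrArg (fun X : Module.End F (Grass F n) =>
    X (E F (univ.filter (fun j : Fin n => j.val = 0)))) h0
  simp only [LinearMap.zero_apply] at h3
  rw [e, pow_add, pow_add, pow_one, Module.End.mul_apply, Module.End.mul_apply] at h3
  obtain ⟨c, hc, h4, -⟩ := chain1 (F := F) hm h1 h2 (m - 1) (le_refl _)
  obtain ⟨d, hd, h5⟩ := top1 (F := F) hm h1 h2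
  have hw : wt m (s0 n m) = -2 := by
    unfold wt s0
    have hsplit : (univ.filter (fun j : Fin n => j.val = 0 ∨ (2 ≤ j.val ∧ j.val < 2 * m)))
        = insert (⟨0, by omega⟩ : Fin n)
          (univ.filter (fun j : Fin n => 2 ≤ j.val ∧ j.val < 2 * m)) := by
      ext j
      simp [Fin.ext_iff]
    have hcard := s0_card (n := n) (m := m) hm h1
    unfold s0 at hcard
    rw [hsplit, Finset.card_insert_of_notMem (by simp)] at hcard
    rw [hsplit, Finset.sum_insert (by simp)]
    have e3 : ∑ j ∈ univ.filter (fun j : Fin n => 2 ≤ j.val ∧ j.val < 2 * m), wN m j.val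
        = ∑ j ∈ univ.filter (fun j : Fin n => 2 ≤ j.val ∧ j.val < 2 * m), (1 : ℤ) := by
      apply Finset.sum_congr rfl
      intro j hj
      have := (mem_filter.1 hj).2
      unfold wN
      rw [if_neg (by omega), if_neg (by omega), if_neg (by omega)]
    rw [e3, Finset.sum_const, nsmul_eq_mul, mul_one]
    have e4 : wN m (⟨0, by omega⟩ : Fin n).val = -(2 * m) := by
      unfold wN; rw [if_pos rfl]
    rw [e4]
    omega
  have h6 : Rop F n m (E F (s0 n m)) = e1 F n := by
    rcases special (F := F) hm h1 (s0 n m) hw with h | h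
    · exact h.2
    · exact absurd rfl h.1
  obtain ⟨c', hc', h7, -⟩ := chain2 (F := F) hm h1 h2 (n - m - 1)
  rw [h4, h5, map_smul, map_smul, map_smul, map_smul, h6, h7, smul_smul, smul_smul] at h3
  exact (smul_ne_zero (mul_ne_zero (mul_ne_zero hc hd) hc') (top2 (F := F) hm h1 h2)) h3

end H974T.Gr
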