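import Pool.Agent.H974T.Gr7

/-!
The Rota-Baxter index of the Grassmann algebra.
-/

namespace H974T.Gr

open Finset

variable {F : Type*} [Field F] [CharZero F] {n : ℕ}

/-- The case `n = 1`. -/
theorem exists_one : ∃ R : Module.End F (Grass F 1), IsRB R ∧ R ≠ 0 := by
  refine ⟨(bas F 1).constr F (fun s => if s = ∅ then E F univ else 0), ?_, ?_⟩
  · set R : Module.End F (Grass F 1) :=
      (bas F 1).constr F (fun s => if s = ∅ then E F univ else 0) with hR
    have hval : ∀ s : Finset (Fin 1), R (E F s) = if s = ∅ then E F univ else 0 := by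
      intro s
      rw [hR]; unfold E
      rw [Module.Basis.constr_basis]
    have hFil : ∀ x ∈ Fil F 1 1, R x = 0 := by
      intro x hx
      obtain ⟨c, hc⟩ := top_eq hx
      rw [hc, map_smul, hval, if_neg (by simp), smul_zero]
    have hrange : ∀ x, R x ∈ Fil F 1 1 := by
      intro x
      obtain ⟨c, y, hy, rfl⟩ := const x
      rw [map_add, hFil y hy, add_zero, map_smul]
      apply Submodule.smul_mem
      rw [← E_empty (F := F), hval, if_pos rfl]
      exact E_mem_Fil (by simp)
    intro x y
    have e1 : R x * R y = 0 :=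
      Fil_zero (k := 1 + 1) (by omega) (Fil_mul (hrange x) (hrange y))
    rw [e1, hFil]
    apply add_mem
    · exact Fil_mono (by omega) (Fil_mul (hrange x) (mem_Fil_zero y))
    · exact Fil_mono (by omega) (Fil_mul (mem_Fil_zero x) (hrange y))
  · intro h
    have h1 := congrArg (fun X : Module.End F (Grass F 1) => X (E F ∅)) h
    simp only [LinearMap.zero_apply] at h1
    unfold E at h1
    rw [Module.Basis.constr_basis, if_pos rfl] at h1
    exact (bas F 1).ne_zero _ h1

theorem exists_big (hn : 1 ≤ n) :
    ∃ R : Module.End F (Grass F n), IsRB R ∧ R ^ (max n 2 - 1) ≠ 0 := by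
  rcases Nat.lt_or_ge n 2 with h | h
  · have hn1 : n = 1 := by omega
    subst hn1
    obtain ⟨R, h1, h2⟩ := exists_one (F := F)
    refine ⟨R, h1, ?_⟩
    rw [show max 1 2 - 1 = 1 from rfl, pow_one]
    exact h2
  · refine ⟨Rop F n (n / 2), rb_Rop (by omega) (by omega) (by omega), ?_⟩
    rw [max_eq_left h]
    exact Rop_pow_ne (by omega) (by omega) (by omega)

theorem rb_index (hn : 1 ≤ n) :
    IsLeast {m : ℕ | ∀ R : Module.End F (Grass F n), IsRB R → R ^ m = 0} (max n 2) := by
  constructor
  · intro R hR
    rcases Nat.lt_or_ge n 2 with h | h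
    · have hn1 : n = 1 := by omega
      have := upper_one hR hn1
      rw [max_eq_right (by omega : n ≤ 2)]
      exact this
    · rw [max_eq_left h]
      exact upper h hR
  · intro m hm
    by_contra hlt
    obtain ⟨R, h1, h2⟩ := exists_big (F := F) hn
    apply h2
    have h3 := hm R h1
    have h4 : max n 2 - 1 = m + (max n 2 - 1 - m) := by omega
    rw [h4, pow_add, h3, zero_mul]

end H974T.Gr
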