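import Pool.Agent.H974T.Gap2
import Pool.Agent.H974T.Bw

/-!
# Reduction of the linearization problem for tori to volume-preserving actions
-/

set_option autoImplicit false

open MvPolynomial

namespace Pool.Agent.H974T

variable {k : Type*} [Field k] {d n : ℕ}

/-- inclusion of the polynomial ring in `n` variables in the one in `n + 2` variables -/
noncomputable def inc (k : Type*) [Field k] (n : ℕ) : PA k n →ₐ[k] PA k (n + 2) :=
  rename (Fin.castAdd 2)

/-- the projection killing the last two variables -/
noncomputable def prj (k : Type*) [Field k] (n : ℕ) : PA k (n + 2) →ₐ[k] PA k n :=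
  aeval (Fin.addCases X (fun _ => 0))

theorem prj_inc (p : PA k n) : prj k n (inc k n p) = p := by
  have h1 : (prj k n).comp (inc k n) = AlgHom.id k _ := by
    apply MvPolynomial.algHom_ext
    intro i
    simp [prj, inc]
  exact DFunLike.congr_fun h1 p

/-- the two additional weights -/
def wts (w e : Fin d → ℤ) (j : Fin 2) : Fin d → ℤ := if j = 0 then e - 2 • w else - e

/-- the action on `n + 2` variables -/
noncomputable def redHom (ρ : TAct k d n) (w e : Fin d → ℤ) (t : Fin d → kˣ) :
    PA k (n + 2) →ₐ[k] PA k (n + 2) :=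
  aeval (Fin.addCases (fun i => inc k n (ρ (t ^ 2) (X i)))
    (fun j => chik (k := k) (wts w e j) t • X (Fin.natAdd n j)))

theorem redHom_castAdd (ρ : TAct k d n) (w e : Fin d → ℤ) (t : Fin d → kˣ) (i : Fin n) :
    redHom ρ w e t (X (Fin.castAdd 2 i)) = inc k n (ρ (t ^ 2) (X i)) := by
  rw [redHom, aeval_X, Fin.addCases_left]

theorem redHom_natAdd (ρ : TAct k d n) (w e : Fin d → ℤ) (t : Fin d → kˣ) (j : Fin 2) :
    redHom ρ w e t (X (Fin.natAdd n j)) = chik (k := k) (wts w e j) t • X (Fin.natAdd n j) := by
  rw [redHom, aeval_X, Fin.addCases_right]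

theorem redHom_inc (ρ : TAct k d n) (w e : Fin d → ℤ) (t : Fin d → kˣ) (p : PA k n) :
    redHom ρ w e t (inc k n p) = inc k n (ρ (t ^ 2) p) := by
  have h1 : (redHom ρ w e t).comp (inc k n) =
      (inc k n).comp (ρ (t ^ 2) : PA k n →ₐ[k] PA k n) := by
    apply MvPolynomial.algHom_ext
    intro i
    rw [AlgHom.comp_apply, inc, rename_X, redHom_castAdd]
    rfl
  exact DFunLike.congr_fun h1 p

theorem redHom_one (ρ : TAct k d n) (w e : Fin d → ℤ) : redHom ρ w e 1 = AlgHom.id k _ := by
  apply MvPolynomial.algHom_ext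
  intro i
  refine Fin.addCases (fun i => ?_) (fun j => ?_) i
  · rw [redHom_castAdd, one_pow, map_one]
    change inc k n (X i) = X _
    rw [inc, rename_X]
  · rw [redHom_natAdd, map_one, one_smul]
    rfl

theorem redHom_mul (ρ : TAct k d n) (w e : Fin d → ℤ) (s t : Fin d → kˣ) :
    redHom ρ w e (s * t) = (redHom ρ w e s).comp (redHom ρ w e t) := by
  apply MvPolynomial.algHom_ext
  intro i
  refine Fin.addCases (fun i => ?_) (fun j => ?_) i
  · rw [AlgHom.comp_apply, redHom_castAdd, redHom_castAdd, redHom_inc, mul_pow, map_mul]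
    rfl
  · rw [AlgHom.comp_apply, redHom_natAdd, redHom_natAdd, map_smul, redHom_natAdd, map_mul,
      smul_smul, mul_comm]

/-- the action of the torus on `n + 2` variables: `ρ (t ^ 2)` on the first `n` variables, and the
weights `e - 2 w`, `- e` on the last two -/
noncomputable def redAct (ρ : TAct k d n) (w e : Fin d → ℤ) : TAct k d (n + 2) :=
  mkAct (redHom ρ w e) (redHom_one ρ w e) (redHom_mul ρ w e)

theorem redAct_apply (ρ : TAct k d n) (w e : Fin d → ℤ) (t : Fin d → kˣ) (p : PA k (n + 2)) :
    redAct ρ w e t p = redHom ρ w e t p := rfl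

theorem prj_redAct (ρ : TAct k d n) (w e : Fin d → ℤ) (t : Fin d → kˣ) (p : PA k (n + 2)) :
    prj k n (redAct ρ w e t p) = ρ (t ^ 2) (prj k n p) := by
  have h1 : (prj k n).comp (redHom ρ w e t) =
      (ρ (t ^ 2) : PA k n →ₐ[k] PA k n).comp (prj k n) := by
    apply MvPolynomial.algHom_ext
    intro i
    refine Fin.addCases (fun i => ?_) (fun j => ?_) i
    · rw [AlgHom.comp_apply, redHom_castAdd, prj_inc, AlgHom.comp_apply]
      simp [prj]
    · rw [AlgHom.comp_apply, redHom_natAdd, map_smul, AlgHom.comp_apply]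
      simp [prj]
  exact DFunLike.congr_fun h1 p

theorem redAct_rep {ρ : TAct k d n} {x : Fin n → LL k n d} (hx : Rep ρ x) (w e : Fin d → ℤ) :
    ∃ x' : Fin (n + 2) → LL k (n + 2) d, Rep (redAct ρ w e) x' := by
  refine ⟨Fin.addCases
    (fun i => ∑ f ∈ (x i).coeff.support, AddMonoidAlgebra.single (2 • f) (inc k n ((x i).coeff f)))
    (fun j => AddMonoidAlgebra.single (wts w e j) (X (Fin.natAdd n j))), fun t i => ?_⟩
  refine Fin.addCases (fun i => ?_) (fun j => ?_) i
  · beta_reduce
    rw [redAct_apply, redHom_castAdd, Fin.addCases_left, map_sum, hx, ev_apply, Finsupp.sum,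
      map_sum]
    refine Finset.sum_congr rfl (fun f _ => ?_)
    rw [ev_single, map_smul, chik_apply, chik_apply, chi_nsmul, ← map_pow]
  · beta_reduce
    rw [redAct_apply, redHom_natAdd, Fin.addCases_right, ev_single]

theorem pderiv_inc (i : Fin n) (p : PA k n) :
    pderiv (Fin.castAdd 2 i) (inc k n p) = inc k n (pderiv i p) := by
  classical
  induction p using MvPolynomial.induction_on with
  | C a => simp [inc]
  | add p q hp hq => rw [map_add, map_add, hp, hq, map_add, map_add]
  | mul_X p j hp =>
    rw [map_mul, pderiv_mul, hp, pderiv_mul, map_add, map_mul, map_mul]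
    congr 2
    rw [inc, rename_X, pderiv_X, pderiv_X]
    by_cases hij : i = j
    · subst hij; simp
    · rw [Pi.single_eq_of_ne (Ne.symm hij), Pi.single_eq_of_ne, map_zero]
      intro h
      exact hij (Fin.castAdd_injective n 2 h).symm

theorem pderiv_inc' (j : Fin 2) (p : PA k n) : pderiv (Fin.natAdd n j) (inc k n p) = 0 := by
  classical
  induction p using MvPolynomial.induction_on with
  | C a => simp [inc]
  | add p q hp hq => rw [map_add, map_add, hp, hq, add_zero]
  | mul_X p i hp =>
    rw [map_mul, pderiv_mul, hp, zero_mul, zero_add, inc, rename_X, pderiv_X,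
      Pi.single_eq_of_ne, mul_zero]
    intro h
    have h1 := congrArg Fin.val h
    simp at h1
    omega

/-- the action on `n + 2` variables preserves the volume -/
theorem redAct_vol {ρ : TAct k d n} {w : Fin d → ℤ}
    (hw : ∀ t : Fin d → kˣ, (Matrix.of fun i j : Fin n => pderiv i (ρ t (X j))).det =
      C (chik (k := k) w t)) (e : Fin d → ℤ) (t : Fin d → kˣ) :
    (Matrix.of fun i j : Fin (n + 2) => pderiv i (redAct ρ w e t (X j))).det = 1 := by
  classical
  have h1 : (Matrix.of fun i j : Fin (n + 2) => pderiv i (redAct ρ w e t (X j))) =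
      Matrix.reindex finSumFinEquiv finSumFinEquiv (Matrix.fromBlocks
        ((Matrix.of fun i j : Fin n => pderiv i (ρ (t ^ 2) (X j))).map (inc k n)) 0 0
        (Matrix.diagonal (fun j : Fin 2 => (C (chik (k := k) (wts w e j) t) : PA k (n + 2))))) := by
    ext1 i j
    rw [Matrix.reindex_apply, Matrix.submatrix_apply]
    refine Fin.addCases (fun i => ?_) (fun i => ?_) i
    · refine Fin.addCases (fun j => ?_) (fun j => ?_) j
      · rw [finSumFinEquiv_symm_apply_castAdd, finSumFinEquiv_symm_apply_castAdd,
          Matrix.fromBlocks_apply₁₁, Matrix.of_apply, redAct_apply, redHom_castAdd, pderiv_inc]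
        rfl
      · rw [finSumFinEquiv_symm_apply_castAdd, finSumFinEquiv_symm_apply_natAdd,
          Matrix.fromBlocks_apply₁₂, Matrix.of_apply, redAct_apply, redHom_natAdd,
          Derivation.map_smul, pderiv_X, Pi.single_eq_of_ne, smul_zero]
        · rfl
        · intro h
          have h1 := congrArg Fin.val h
          simp at h1
          omega
    · refine Fin.addCases (fun j => ?_) (fun j => ?_) j
      · rw [finSumFinEquiv_symm_apply_natAdd, finSumFinEquiv_symm_apply_castAdd,
          Matrix.fromBlocks_apply₂₁, Matrix.of_apply, redAct_apply, redHom_castAdd, pderiv_inc']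
        rfl
      · rw [finSumFinEquiv_symm_apply_natAdd, finSumFinEquiv_symm_apply_natAdd,
          Matrix.fromBlocks_apply₂₂, Matrix.of_apply, redAct_apply, redHom_natAdd,
          Derivation.map_smul, pderiv_X, Matrix.diagonal_apply]
        by_cases hij : i = j
        · subst hij
          rw [if_pos rfl, Pi.single_eq_same, smul_eq_C_mul, mul_one]
        · rw [if_neg hij, Pi.single_eq_of_ne, smul_zero]
          intro h
          have h1 := congrArg Fin.val h
          simp only [Fin.val_natAdd] at h1
          exact hij (Fin.ext (by omega))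
  rw [h1, Matrix.det_reindex_self, Matrix.det_fromBlocks_zero₂₁, Matrix.det_diagonal]
  have h2 : ((Matrix.of fun i j : Fin n => pderiv i (ρ (t ^ 2) (X j))).map (inc k n)).det =
      C (chik (k := k) w (t ^ 2)) := by
    have h3 := congrArg (inc k n) (hw (t ^ 2))
    rw [AlgHom.map_det] at h3
    have h4 : inc k n (C (chik (k := k) w (t ^ 2))) = C (chik (k := k) w (t ^ 2)) := by
      rw [inc, rename_C]
    rw [h4] at h3
    exact h3
  rw [h2, Fin.prod_univ_two, ← C_mul, ← C_mul, ← C_1]
  congr 1
  have h3 : chik (k := k) w (t ^ 2) = chik (k := k) (2 • w) t := by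
    rw [chik_apply, chik_apply, chi_nsmul, map_pow]
  rw [h3]
  simp only [chik_apply]
  rw [← Units.val_mul, ← Units.val_mul, ← chi_add, ← chi_add]
  have h4 : 2 • w + (wts w e 0 + wts w e 1) = 0 := by
    rw [wts, wts, if_pos rfl, if_neg (by decide)]
    abel
  rw [h4, chi_zero, Units.val_one]

/-- an algebraic action which is linear after a change of coordinates is diagonal after a change
of coordinates -/
theorem Rep.diagWith_of_linearizable [IsAlgClosed k] [CharZero k] {ρ : TAct k d n}
    {x : Fin n → LL k n d} (hx : Rep ρ x) (h : Linearizable ρ) : ∃ a, DiagWith ρ a := by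
  classical
  obtain ⟨φ, hφ⟩ := h
  have hfix : ∀ t i, eval (0 : Fin n → k) (conjAct φ ρ t (X i)) = (0 : Fin n → k) i := by
    intro t i
    rw [conjAct_apply, eval_zero]
    change coeff 0 _ = 0
    refine (hφ t i).coeff_eq_zero ?_
    simp
  have htr : ∀ p : PA k n, trans (0 : Fin n → k) p = p := by
    intro p
    have h1 : trans (0 : Fin n → k) = AlgHom.id k (PA k n) := by
      apply MvPolynomial.algHom_ext
      intro i
      rw [trans, aeval_X]
      simp
    rw [h1]; rfl
  obtain ⟨a, ha⟩ := exists_diagWith_of_gap (hx.conj φ) hfix 0 (by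
    intro t i β hβ
    left
    rw [htr, conjAct_apply] at hβ
    have h1 := hφ t i (mem_support_iff.1 hβ)
    rw [Finsupp.degree_eq_weight_one]
    exact h1.le)
  exact ⟨a, ha.of_conj φ⟩

end Pool.Agent.H974T
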