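import Pool.Agent.H974T.Red

/-!
# Reduction of the linearization problem for tori to volume-preserving actions, continued
-/

set_option autoImplicit false

open MvPolynomial

namespace Pool.Agent.H974T

variable {k : Type*} [Field k] {d n : ℕ}

theorem card_eq_of_algEquiv {J : Type} [Fintype J] (e : MvPolynomial J k ≃ₐ[k] PA k n) :
    Fintype.card J = n := by
  have h1 := e.lift_trdeg_eq
  rw [MvPolynomial.trdeg_of_isDomain, MvPolynomial.trdeg_of_isDomain] at h1
  simpa using h1

/-- the reduction -/
theorem linearizable_of_redAct [IsAlgClosed k] [CharZero k] {ρ : TAct k d n} (w e : Fin d → ℤ)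
    (s : Fin d → kˣ) (hs : s ^ 2 = 1) (hes : chi e s = -1) {c : Fin (n + 2) → Fin d → ℤ}
    (h : DiagWith (redAct ρ w e) c) : Linearizable ρ := by
  classical
  have h20 : (2 : k) ≠ 0 := by exact_mod_cast (two_ne_zero : (2 : ℕ) ≠ 0)
  have hneg : ∀ (m : ℕ) (p : PA k m), p = -p → p = 0 := by
    intro m p hp
    have h1 : (C (2 : k) : PA k m) * p = 0 := by
      have h2 : (C (2 : k) : PA k m) * p = p + p := by
        rw [show (2 : k) = 1 + 1 by norm_num, C_add, C_1]; ring
      rw [h2]
      nth_rewrite 2 [hp]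
      ring
    rcases mul_eq_zero.1 h1 with h3 | h3
    · exact absurd (C_eq_zero.1 h3) h20
    · exact h3
  obtain ⟨φ, hφ⟩ := h
  set σ := redAct ρ w e with hσ
  -- the weights of the last two variables at `s`
  have hw2 : ∀ j : Fin 2, chik (k := k) (wts w e j) s = -1 := by
    intro j
    have h1 : chi (k := k) (wts w e j) s = -1 := by
      by_cases hj : j = 0
      · rw [wts, if_pos hj, chi_sub, chi_nsmul, hes, ← map_pow, hs, map_one, inv_one, mul_one]
      · rw [wts, if_neg hj, chi_neg, hes, inv_neg, inv_one]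
    rw [chik_apply, h1, Units.val_neg, Units.val_one]
  -- the semi-invariant coordinates
  let u : Fin (n + 2) → PA k (n + 2) := fun j => φ.symm (X j)
  have hu : ∀ t j, σ t (u j) = chik (k := k) (c j) t • u j := by
    intro t j
    have h1 := congrArg φ.symm (hφ t j)
    have h2 : φ.symm ((φ * σ t * φ⁻¹) (X j)) = σ t (u j) := by
      change φ.symm (φ (σ t (φ.symm (X j)))) = _
      rw [AlgEquiv.symm_apply_apply]
    rw [h2, map_smul] at h1
    exact h1
  -- the involution
  let τ : PA k (n + 2) →ₐ[k] PA k (n + 2) := aeval (fun j => chik (k := k) (c j) s • X j)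
  have hτ : ∀ p, τ (φ p) = φ (σ s p) := by
    intro p
    have h1 : (τ.comp (φ : PA k (n + 2) →ₐ[k] PA k (n + 2))).comp
        (φ.symm : PA k (n + 2) →ₐ[k] PA k (n + 2)) =
        ((φ : PA k (n + 2) →ₐ[k] PA k (n + 2)).comp
          (σ s : PA k (n + 2) →ₐ[k] PA k (n + 2))).comp
          (φ.symm : PA k (n + 2) →ₐ[k] PA k (n + 2)) := by
      apply MvPolynomial.algHom_ext
      intro j
      change τ (φ (φ.symm (X j))) = φ (σ s (φ.symm (X j)))
      have h2 := hφ s j
      change φ (σ s (φ.symm (X j))) = _ at h2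
      rw [h2, AlgEquiv.apply_symm_apply, aeval_X]
    have h3 := DFunLike.congr_fun h1 (φ p)
    change τ (φ (φ.symm (φ p))) = φ (σ s (φ.symm (φ p))) at h3
    rwa [AlgEquiv.symm_apply_apply] at h3
  have hsq : ∀ j, chik (k := k) (c j) s = 1 ∨ chik (k := k) (c j) s = -1 := by
    intro j
    have h1 : chik (k := k) (c j) s ^ 2 = 1 := by
      rw [← map_pow, hs, map_one]
    rw [pow_two] at h1
    exact mul_self_eq_one_iff.1 h1
  -- the even coordinates
  let J : Type := {j : Fin (n + 2) // chik (k := k) (c j) s = 1}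
  let kill : PA k (n + 2) →ₐ[k] MvPolynomial J k :=
    aeval (fun j => if hj : chik (k := k) (c j) s = 1 then X ⟨j, hj⟩ else 0)
  let y : J → PA k n := fun j => prj k n (u j.1)
  have hodd : ∀ j, chik (k := k) (c j) s ≠ 1 → prj k n (u j) = 0 := by
    intro j hj
    apply hneg
    have h1 := congrArg (prj k n) (hu s j)
    rw [hσ, prj_redAct, hs, map_one, map_smul, (hsq j).resolve_left hj, neg_smul, one_smul] at h1
    exact h1
  -- the coordinate algebra is generated by `y`
  have hcomp : (aeval y : MvPolynomial J k →ₐ[k] PA k n).comp kill =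
      (prj k n).comp (φ.symm : PA k (n + 2) →ₐ[k] PA k (n + 2)) := by
    apply MvPolynomial.algHom_ext
    intro j
    rw [AlgHom.comp_apply, AlgHom.comp_apply]
    simp only [kill]
    rw [aeval_X]
    by_cases hj : chik (k := k) (c j) s = 1
    · rw [dif_pos hj, aeval_X]
      rfl
    · rw [dif_neg hj, map_zero]
      exact (hodd j hj).symm
  have hsurj : Function.Surjective (aeval y : MvPolynomial J k →ₐ[k] PA k n) := by
    intro p
    refine ⟨kill (φ (inc k n p)), ?_⟩
    have h1 := DFunLike.congr_fun hcomp (φ (inc k n p))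
    rw [AlgHom.comp_apply, AlgHom.comp_apply] at h1
    rw [h1]
    change prj k n (φ.symm (φ (inc k n p))) = p
    rw [AlgEquiv.symm_apply_apply, prj_inc]
  -- injectivity
  have hkτ : ∀ g, kill (τ g) = kill g := by
    intro g
    have h1 : kill.comp τ = kill := by
      apply MvPolynomial.algHom_ext
      intro j
      rw [AlgHom.comp_apply]
      simp only [τ, kill]
      rw [aeval_X, map_smul, aeval_X]
      by_cases hj : chik (k := k) (c j) s = 1
      · rw [dif_pos hj, hj, one_smul]
      · rw [dif_neg hj, smul_zero]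
    exact DFunLike.congr_fun h1 g
  have hkY : ∀ j : Fin 2, kill (φ (X (Fin.natAdd n j))) = 0 := by
    intro j
    have h1 : τ (φ (X (Fin.natAdd n j))) = - φ (X (Fin.natAdd n j)) := by
      rw [hτ, hσ, redAct_apply, redHom_natAdd, hw2, map_smul, neg_smul, one_smul]
    have h2 := hkτ (φ (X (Fin.natAdd n j)))
    rw [h1, map_neg] at h2
    have h3 : (2 : MvPolynomial J k) * kill (φ (X (Fin.natAdd n j))) = 0 := by
      linear_combination -h2
    rcases mul_eq_zero.1 h3 with h4 | h4
    · exfalso
      apply h20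
      have h5 : (C (2 : k) : MvPolynomial J k) = 0 := by
        rw [← h4]; exact map_ofNat C 2
      exact C_eq_zero.1 h5
    · exact h4
  let θ : PA k (n + 2) →ₐ[k] PA k (n + 2) :=
    ((φ.symm : PA k (n + 2) →ₐ[k] PA k (n + 2)).comp
      ((rename (Subtype.val : J → Fin (n + 2))).comp kill)).comp
      (φ : PA k (n + 2) →ₐ[k] PA k (n + 2))
  have hθ : ∀ p, θ p = φ.symm (rename (Subtype.val : J → Fin (n + 2)) (kill (φ p))) :=
    fun p => rfl
  have hθ2 : θ = θ.comp ((inc k n).comp (prj k n)) := by
    apply MvPolynomial.algHom_ext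
    intro i
    refine Fin.addCases (fun i => ?_) (fun j => ?_) i
    · change θ (X (Fin.castAdd 2 i)) = θ (inc k n (prj k n (X (Fin.castAdd 2 i))))
      have h1 : inc k n (prj k n (X (Fin.castAdd 2 i))) = X (Fin.castAdd 2 i) := by
        simp [prj, inc]
      rw [h1]
    · change θ (X (Fin.natAdd n j)) = θ (inc k n (prj k n (X (Fin.natAdd n j))))
      have h1 : prj k n (X (Fin.natAdd n j)) = 0 := by
        simp [prj]
      rw [h1, hθ, hkY, map_zero, map_zero, map_zero, map_zero]
  have hkr : ∀ f : MvPolynomial J k, kill (rename (Subtype.val : J → Fin (n + 2)) f) = f := by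
    intro f
    have h1 : kill.comp (rename (Subtype.val : J → Fin (n + 2))) = AlgHom.id k _ := by
      apply MvPolynomial.algHom_ext
      intro j
      rw [AlgHom.comp_apply, rename_X]
      simp only [kill]
      rw [aeval_X, dif_pos j.2]
      rfl
    exact DFunLike.congr_fun h1 f
  have hinj : Function.Injective (aeval y : MvPolynomial J k →ₐ[k] PA k n) := by
    rw [injective_iff_map_eq_zero]
    intro f hf
    set f' := rename (Subtype.val : J → Fin (n + 2)) f with hf'
    have h1 : prj k n (φ.symm f') = 0 := by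
      have h2 := DFunLike.congr_fun hcomp f'
      rw [AlgHom.comp_apply, AlgHom.comp_apply, hf', hkr, hf] at h2
      exact h2.symm
    have h2 : θ (φ.symm f') = 0 := by
      have h3 : θ (φ.symm f') = θ (inc k n (prj k n (φ.symm f'))) :=
        DFunLike.congr_fun hθ2 (φ.symm f')
      rw [h1, map_zero, map_zero] at h3
      exact h3
    rw [hθ, AlgEquiv.apply_symm_apply, hf', hkr, ← hf'] at h2
    have h3 : f' = 0 := by
      have h4 := congrArg φ h2
      rwa [AlgEquiv.apply_symm_apply, map_zero] at h4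
    rw [hf'] at h3
    exact (rename_injective _ Subtype.val_injective) (by rw [h3, map_zero])
  -- the number of even coordinates is `n`
  have hJ : Fintype J := Subtype.fintype _
  let E : MvPolynomial J k ≃ₐ[k] PA k n := AlgEquiv.ofBijective (aeval y) ⟨hinj, hsurj⟩
  have hcard : Fintype.card J = n := card_eq_of_algEquiv E
  let ι : Fin n ≃ J := (Fintype.equivFinOfCardEq hcard).symm
  let ψ : PA k n ≃ₐ[k] PA k n := (renameEquiv k ι).trans E
  have hψ : ∀ i, ψ (X i) = y (ι i) := by
    intro i
    change E (renameEquiv k ι (X i)) = _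
    rw [renameEquiv_apply, rename_X]
    change aeval y (X (ι i)) = _
    rw [aeval_X]
  refine ⟨ψ⁻¹, fun t i => ?_⟩
  obtain ⟨r, rfl⟩ := exists_root_torus t (two_pos)
  have h1 : ρ (r ^ 2) (y (ι i)) = chik (k := k) (c (ι i).1) r • y (ι i) := by
    simp only [y]
    rw [← prj_redAct ρ w e, ← hσ, hu, map_smul]
  have h2 : (ψ⁻¹ * ρ (r ^ 2) * ψ⁻¹⁻¹) (X i) = ψ.symm (ρ (r ^ 2) (ψ (X i))) := by
    rw [inv_inv]; rfl
  rw [h2, hψ, h1, map_smul, ← hψ, AlgEquiv.symm_apply_apply, smul_eq_C_mul]
  have h3 := (isHomogeneous_C (Fin n) (chik (k := k) (c (ι i).1) r)).mul (isHomogeneous_X k i)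
  rwa [zero_add] at h3

/-- **Reduction.** If every volume-preserving algebraic action of `(k^*)^d` on affine
`(n + 2)`-space is linearizable, then every algebraic action of `(k^*)^d` on affine `n`-space is
linearizable. -/
theorem linearizable_of_vp [IsAlgClosed k] [CharZero k] (hd : 1 ≤ d)
    (H : ∀ σ : TAct k d (n + 2), IsAlg σ →
      (∀ t : Fin d → kˣ, (Matrix.of fun i j : Fin (n + 2) => pderiv i (σ t (X j))).det = 1) →
      Linearizable σ) (ρ : TAct k d n) (hρ : IsAlg ρ) : Linearizable ρ := by
  classical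
  have hinf : Infinite k := IsAlgClosed.instInfinite
  have h20 : (2 : k) ≠ 0 := by exact_mod_cast (two_ne_zero : (2 : ℕ) ≠ 0)
  obtain ⟨x, hx⟩ := hρ.exists_rep
  obtain ⟨P, hP⟩ := hx.exists_fixed_point h20
  obtain ⟨M, N, a, hMN, hnorm⟩ := hx.exists_normalAt hP
  have hM : M.det ≠ 0 := by
    intro h0
    have h1 := congrArg Matrix.det hMN
    rw [Matrix.det_mul, h0, zero_mul, Matrix.det_one] at h1
    exact zero_ne_one h1
  let w : Fin d → ℤ := ∑ i, a i
  have hw : ∀ t : Fin d → kˣ, (Matrix.of fun i j : Fin n => pderiv i (ρ t (X j))).det =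
      C (chik (k := k) w t) := by
    intro t
    rw [jac_det (ρ t) P]
    congr 1
    have h3 := congrArg Matrix.det (hnorm.lin t)
    rw [Matrix.det_mul, Matrix.det_mul, Matrix.det_diagonal, mul_comm] at h3
    have h4 := mul_left_cancel₀ hM h3
    change (Matrix.of fun i j => eval P (pderiv i (ρ t (X j)))).det = _
    rw [h4, chik_apply, chi_sum, Units.coe_prod]
    rfl
  let i0 : Fin d := ⟨0, hd⟩
  let e : Fin d → ℤ := Pi.single i0 1
  let s : Fin d → kˣ := Function.update 1 i0 (-1)
  have hs : s ^ 2 = 1 := by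
    funext i
    rw [Pi.pow_apply, Pi.one_apply]
    by_cases hi : i = i0
    · subst hi
      simp only [s]
      rw [Function.update_self]
      simp
    · simp only [s]
      rw [Function.update_of_ne hi, Pi.one_apply, one_pow]
  have hes : chi e s = -1 := by
    simp only [e, s]
    rw [chi_update_one, Pi.single_eq_same, zpow_one]
  obtain ⟨x', hx'⟩ := redAct_rep hx w e
  obtain ⟨c, hc⟩ := hx'.diagWith_of_linearizable
    (H (redAct ρ w e) hx'.isAlg (redAct_vol hw e))
  exact linearizable_of_redAct w e s hs hes hc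

end Pool.Agent.H974T
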